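import Pool.Agent.Lib.MP_5591bc_ag.Rg.Linv
import Pool.Agent.Lib.MP_5591bc_ag.M.Tay

/-! Algebraic on all lines. -/

namespace Pool.Agent.Lib.MP_5591bc_ag.Rg

open Matrix Filter Topology Metric Polynomial G R W M A B

noncomputable section

section
variable {σ : Type} [Fintype σ] [DecidableEq σ] {f : (σ → ℂ) → ℂ} {x : σ → ℂ} {N : ℕ}

omit [DecidableEq σ] in
/-- a point off countably many hypersurfaces -/
theorem ak_off (D : ℕ → MvPolynomial σ ℂ) (h : ∀ N, D N ≠ 0) :
    ∃ v : σ → ℂ, ∀ N, MvPolynomial.eval v (D N) ≠ 0 := by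
  have : Dense (⋂ N, {v : σ → ℂ | MvPolynomial.eval v (D N) ≠ 0}) := by
    refine dense_iInter_of_isOpen (fun N => ?_) fun N v => ?_
    · exact isOpen_ne_fun (MvPolynomial.continuous_eval _) continuous_const
    · by_contra hv
      have e : ∀ᶠ z in 𝓝 v, MvPolynomial.eval z (D N) = 0 := by
        filter_upwards [isClosed_closure.isOpen_compl.mem_nhds hv] with z hz
        by_contra h'
        exact hz (subset_closure h')
      have hA : AnalyticOnNhd ℂ (fun z : σ → ℂ => MvPolynomial.eval z (D N)) Set.univ :=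
        fun z _ => aeval_ana (D N)
      have := hA.eqOn_zero_of_preconnected_of_eventuallyEq_zero isPreconnected_univ
        (Set.mem_univ v) e
      exact h N (MvPolynomial.funext fun z => by simpa using this (Set.mem_univ z))
  obtain ⟨v, hv⟩ := this.nonempty
  exact ⟨v, Set.mem_iInter.1 hv⟩

/-- the coefficient of `u ^ k` in `u ^ a * F (u v) ^ b`, a polynomial in `v` -/
def akW (F : MvPowerSeries σ ℂ) (N : ℕ) (i : Fin (N + 1) × Fin (N + 1)) (k : ℕ) :
    MvPolynomial σ ℂ :=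
  if (i.1 : ℕ) ≤ k then homP (k - i.1) (F ^ (i.2 : ℕ)) else 0

/-- the combination along a line -/
def akG (f : (σ → ℂ) → ℂ) (x v : σ → ℂ) (c : Fin (N + 1) × Fin (N + 1) → ℂ) (u : ℂ) : ℂ :=
  ∑ i, c i * (u ^ (i.1 : ℕ) * f (x + u • v) ^ (i.2 : ℕ))

omit [DecidableEq σ] in
theorem akG_ana {v : σ → ℂ} {u : ℂ} (hf : AnalyticAt ℂ f (x + u • v))
    (c : Fin (N + 1) × Fin (N + 1) → ℂ) : AnalyticAt ℂ (akG f x v c) u := by
  have h1 : AnalyticAt ℂ (fun u : ℂ => f (x + u • v)) u :=
    AnalyticAt.comp (g := f) (f := fun u : ℂ => x + u • v) hf (by fun_prop)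
  exact Finset.analyticAt_fun_sum _ fun i _ =>
    analyticAt_const.fun_mul ((analyticAt_id.fun_pow _).fun_mul (h1.fun_pow _))

theorem akG_tay (hf : AnalyticAt ℂ f x) (v : σ → ℂ) (c : Fin (N + 1) × Fin (N + 1) → ℂ) (k : ℕ) :
    PowerSeries.coeff k (tay (akG f x v c) 0) =
      ∑ i, c i * MvPolynomial.eval v (akW (tayM f x) N i k) := by
  have h1 := line_ana hf v
  have h2 : ∀ a b : ℕ, AnalyticAt ℂ (fun u : ℂ => u ^ a * f (x + u • v) ^ b) 0 := fun a b =>
    (analyticAt_id.fun_pow _).fun_mul (h1.fun_pow _)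
  unfold akG
  rw [tay_sum _ fun i _ => analyticAt_const.fun_mul (h2 _ _), map_sum]
  refine Finset.sum_congr rfl fun i _ => ?_
  have e := tay_pow_mul (h1.fun_pow (i.2 : ℕ)) (i.1 : ℕ)
  simp only [sub_zero] at e
  rw [tay_cmul (h2 _ _), PowerSeries.coeff_C_mul, e, tay_pow h1, ← dir_tayM hf, ← map_pow,
    PowerSeries.coeff_X_pow_mul', akW]
  split_ifs
  · rw [coeff_dir]
  · rw [map_zero]

theorem akG_iff (hf : AnalyticAt ℂ f x) (v : σ → ℂ) (c : Fin (N + 1) × Fin (N + 1) → ℂ) :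
    (∀ᶠ u in 𝓝 (0 : ℂ), akG f x v c u = 0) ↔
      ∀ k, ∑ i, c i * MvPolynomial.eval v (akW (tayM f x) N i k) = 0 := by
  constructor
  · intro h k
    rw [← akG_tay hf, tay_congr (h := fun _ => 0) h, tay_const, map_zero, map_zero]
  · intro h
    refine eventually_zero_of_tay (akG_ana (by simpa using hf) c) ?_
    ext k
    rw [akG_tay hf, h, map_zero]

omit [DecidableEq σ] in
/-- continuation along the line inside a ball -/
theorem akG_cont {r : ℝ} (r0 : 0 < r) (hr : ∀ y ∈ ball x r, AnalyticAt ℂ f y) {v : σ → ℂ}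
    {c : Fin (N + 1) × Fin (N + 1) → ℂ} (h : ∀ᶠ u in 𝓝 (0 : ℂ), akG f x v c u = 0) {u : ℂ}
    (hu : x + u • v ∈ ball x r) : akG f x v c u = 0 := by
  let V : Set ℂ := (fun u : ℂ => x + u • v) ⁻¹' ball x r
  have hV : Convex ℝ V := by
    intro a ha b hb c d hc hd hcd
    have := convex_ball x r ha hb hc hd hcd
    have e1 : x + (c • a + d • b) • v = c • (x + a • v) + d • (x + b • v) := by
      rw [smul_add, smul_add, add_add_add_comm, ← add_smul, hcd, one_smul, add_smul, smul_assoc,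
        smul_assoc]
    change x + (c • a + d • b) • v ∈ ball x r
    rwa [e1]
  have hA : AnalyticOnNhd ℂ (akG f x v c) V := fun u hu => akG_ana (hr _ hu) c
  exact hA.eqOn_zero_of_preconnected_of_eventuallyEq_zero hV.isPreconnected (z₀ := 0)
    (by simp [V, r0]) h hu

/-- the dependent case -/
theorem ak_dep (hf : AnalyticAt ℂ f x)
    (h : ¬ LinearIndependent (MvPolynomial σ ℂ) (akW (tayM f x) N)) :
    ∃ (n : ℕ) (p : ℕ → MvPolynomial σ ℂ), (∃ j ≤ n, p j ≠ 0) ∧
      ∀ᶠ t in 𝓝 x, ∑ j ∈ Finset.range (n + 1), MvPolynomial.eval t (p j) * f t ^ j = 0 := by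
  obtain ⟨c, hc, ⟨a0, b0⟩, c0⟩ := Fintype.not_linearIndependent_iff.1 h
  obtain ⟨v0, hv0⟩ : ∃ v0, MvPolynomial.eval v0 (c (a0, b0)) ≠ 0 := by
    by_contra hn
    push Not at hn
    exact c0 (MvPolynomial.funext fun z => by rw [hn, map_zero])
  let q : ℂ[X] := ∑ a : Fin (N + 1), monomial (a : ℕ) (MvPolynomial.eval v0 (c (a, b0)))
  have q0 : q ≠ 0 := by
    intro e
    have := congrArg (fun p : ℂ[X] => p.coeff a0) e
    simp only [q, finsetSum_coeff, coeff_monomial, Fin.val_inj, Finset.sum_ite_eq',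
      Finset.mem_univ, if_true, coeff_zero] at this
    exact hv0 this
  obtain ⟨l, hl⟩ : ∃ l : ℂ, (X * q).eval l ≠ 0 := by
    by_contra hn
    push Not at hn
    exact mul_ne_zero X_ne_zero q0 (Polynomial.funext fun z => by rw [hn, eval_zero])
  rw [eval_mul, eval_X, mul_ne_zero_iff] at hl
  let φ : MvPolynomial σ ℂ →ₐ[ℂ] MvPolynomial σ ℂ := MvPolynomial.aeval fun m =>
    MvPolynomial.C l⁻¹ * (MvPolynomial.X m - MvPolynomial.C (x m))
  have hφ : ∀ (t : σ → ℂ) (p : MvPolynomial σ ℂ),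
      MvPolynomial.eval t (φ p) = MvPolynomial.eval (l⁻¹ • (t - x)) p := by
    intro t p
    induction p using MvPolynomial.induction_on with
    | C a => simp [φ]
    | add a b ha hb => simp only [map_add, ha, hb]
    | mul_X a m ha => simp only [map_mul, ha]; simp [φ]
  let P : Fin (N + 1) → MvPolynomial σ ℂ := fun b =>
    ∑ a : Fin (N + 1), MvPolynomial.C (l ^ (a : ℕ)) * φ (c (a, b))
  have hP : ∀ t b, MvPolynomial.eval t (P b) = ∑ a : Fin (N + 1),
      l ^ (a : ℕ) * MvPolynomial.eval (l⁻¹ • (t - x)) (c (a, b)) := by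
    intro t b
    simp only [P, map_sum, map_mul, MvPolynomial.eval_C, hφ]
  refine ⟨N, fun j => if hj : j < N + 1 then P ⟨j, hj⟩ else 0, ⟨b0, Nat.lt_succ_iff.1 b0.2, ?_⟩, ?_⟩
  · simp only [b0.2, dif_pos, Fin.eta]
    intro e
    have := hP (x + l • v0) b0
    rw [e, map_zero, add_sub_cancel_left, inv_smul_smul₀ hl.1] at this
    refine hl.2 ?_
    rw [this]
    simp only [q, eval_finsetSum, eval_monomial, mul_comm]
  · obtain ⟨r, r0, hr⟩ := Metric.eventually_nhds_iff_ball.1 hf.eventually_analyticAt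
    filter_upwards [ball_mem_nhds x r0] with t ht
    have e : x + l • l⁻¹ • (t - x) = t := by rw [smul_inv_smul₀ hl.1, add_sub_cancel]
    have := akG_cont r0 hr ((akG_iff hf (l⁻¹ • (t - x))
      (fun i => MvPolynomial.eval (l⁻¹ • (t - x)) (c i))).2 fun k => by
        have := congrArg (MvPolynomial.eval (l⁻¹ • (t - x))) (congrFun hc k)
        simpa [Finset.sum_apply] using this) (u := l) (by rwa [e])
    rw [akG, e, Fintype.sum_prod_type_right] at this
    rw [← this, Finset.sum_range]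
    refine Finset.sum_congr rfl fun b _ => ?_
    simp only [b.2, dif_pos, Fin.eta, hP, Finset.sum_mul]
    exact Finset.sum_congr rfl fun a _ => by ring

theorem ak_evalEval (q : ℂ[X][X]) (h1 : q.natDegree < N + 1)
    (h2 : ∀ b, (q.coeff b).natDegree < N + 1) (u y : ℂ) : q.evalEval u y =
      ∑ i : Fin (N + 1) × Fin (N + 1), (q.coeff i.2).coeff i.1 * (u ^ (i.1 : ℕ) * y ^ (i.2 : ℕ)) := by
  rw [evalEval, eval_eq_sum_range' h1, eval_finsetSum, Finset.sum_range,
    Fintype.sum_prod_type_right]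
  refine Finset.sum_congr rfl fun b _ => ?_
  rw [eval_mul, eval_pow, eval_C, eval_eq_sum_range' (h2 b), Finset.sum_range, Finset.sum_mul]
  exact Finset.sum_congr rfl fun a _ => by ring

end

/-- `linv` over `ℂ[v]` for the Taylor coefficients of `u ^ a * f (x + u v) ^ b`, `a, b ≤ N`; a `v`
off countably many hypersurfaces; then put `u = λ`, `v = (t - x) / λ` -/
theorem algK {σ : Type} [Fintype σ] [DecidableEq σ] {f : (σ → ℂ) → ℂ} {x : σ → ℂ}
    (hf : AnalyticAt ℂ f x) (h : ∀ v : σ → ℂ, ∃ q : ℂ[X][X], q ≠ 0 ∧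
      ∀ᶠ u in 𝓝 (0 : ℂ), q.evalEval u (f (x + u • v)) = 0) :
    ∃ (n : ℕ) (p : ℕ → MvPolynomial σ ℂ), (∃ j ≤ n, p j ≠ 0) ∧
      ∀ᶠ t in 𝓝 x, ∑ j ∈ Finset.range (n + 1), MvPolynomial.eval t (p j) * f t ^ j = 0 := by
  by_contra hn
  have hI : ∀ N, LinearIndependent (MvPolynomial σ ℂ) (akW (tayM f x) N) := fun N => by
    by_contra h'
    exact hn (ak_dep hf h')
  choose r D D0 hD using fun N => linv (hI N)
  obtain ⟨v, hv⟩ := ak_off D D0
  obtain ⟨q, q0, hq⟩ := h v
  obtain ⟨N, h1, h2⟩ : ∃ N, q.natDegree < N + 1 ∧ ∀ b, (q.coeff b).natDegree < N + 1 := by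
    refine ⟨q.natDegree + q.support.sup fun b => (q.coeff b).natDegree, by omega, fun b => ?_⟩
    by_cases hb : b ∈ q.support
    · have := Finset.le_sup (f := fun b => (q.coeff b).natDegree) hb
      omega
    · rw [notMem_support_iff.1 hb, natDegree_zero]; omega
  have hk := (akG_iff hf v (N := N) fun i => (q.coeff i.2).coeff i.1).1 (by
    filter_upwards [hq] with u hu
    rw [akG, ← ak_evalEval q h1 h2, hu])
  have hz : ∀ j : Fin (N + 1) × Fin (N + 1), (q.coeff j.2).coeff j.1 = 0 := by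
    intro j
    have e : ∑ i : Fin (N + 1) × Fin (N + 1), (q.coeff i.2).coeff i.1 *
        MvPolynomial.eval v ((r N j).sum fun k c => c * akW (tayM f x) N i k) = 0 := by
      simp only [Finsupp.sum, map_sum, map_mul, Finset.mul_sum]
      rw [Finset.sum_comm]
      refine Finset.sum_eq_zero fun k _ => ?_
      have := congrArg (MvPolynomial.eval v (r N j k) * ·) (hk k)
      simp only [Finset.mul_sum, mul_zero] at this
      rw [← this]
      exact Finset.sum_congr rfl fun i _ => by ring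
    simp only [hD, apply_ite (MvPolynomial.eval v), map_zero, mul_ite, mul_zero,
      Finset.sum_ite_eq', Finset.mem_univ, if_true] at e
    exact (mul_eq_zero.1 e).resolve_right (hv N)
  refine q0 (Polynomial.ext fun b => Polynomial.ext fun a => ?_)
  rw [coeff_zero, coeff_zero]
  by_cases hb : b < N + 1
  · by_cases ha : a < N + 1
    · exact hz (⟨a, ha⟩, ⟨b, hb⟩)
    · exact coeff_eq_zero_of_natDegree_lt (by have := h2 b; omega)
  · rw [coeff_eq_zero_of_natDegree_lt (p := q) (by omega), coeff_zero]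

end

end Pool.Agent.Lib.MP_5591bc_ag.Rg
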