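import Pool.Agent.Lib.MP_5591bc_ag.Rg.Mero

/-! Finitely many branches and moderate growth. -/

namespace Pool.Agent.Lib.MP_5591bc_ag.Rg

open Matrix Filter Topology Metric Polynomial G R W M A B

noncomputable section

theorem algl_co (a : ℂ) (p : ℂ[X]) (k : ℕ) :
    ((X - C a) * p).coeff k = (if k = 0 then 0 else p.coeff (k - 1)) - a * p.coeff k := by
  rcases k with _ | k <;> simp [sub_mul]

theorem algl_bd {ι : Type*} (J : Finset ι) (a : ι → ℂ) (k : ℕ) :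
    ‖(∏ f ∈ J, (X - C (a f))).coeff k‖ ≤ ∏ f ∈ J, (1 + ‖a f‖) := by
  classical
  induction J using Finset.induction_on generalizing k with
  | empty =>
    simp only [Finset.prod_empty, coeff_one]
    split_ifs <;> simp
  | insert f J hf ih =>
    rw [Finset.prod_insert hf, Finset.prod_insert hf, algl_co, add_mul, one_mul]
    refine (norm_sub_le _ _).trans (add_le_add ?_ ?_)
    · split_ifs
      · rw [norm_zero]
        positivity
      · exact ih _
    · rw [norm_mul]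
      exact mul_le_mul_of_nonneg_left (ih k) (norm_nonneg _)

theorem algl_df (J : Finset (ℂ → ℂ)) {u : ℂ} (h : ∀ f ∈ J, DifferentiableAt ℂ f u) (k : ℕ) :
    DifferentiableAt ℂ (fun v => (∏ f ∈ J, (X - C (f v))).coeff k) u := by
  classical
  induction J using Finset.induction_on generalizing k with
  | empty => simp
  | insert f J hf ih =>
    have ih := ih fun g hg => h g (Finset.mem_insert_of_mem hg)
    simp only [Finset.prod_insert hf, algl_co]
    refine DifferentiableAt.fun_sub ?_ ((h f (Finset.mem_insert_self _ _)).fun_mul (ih k))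
    split_ifs
    · exact differentiableAt_const _
    · exact ih _

/-- the product over the germs at `u` -/
def alglQ (𝓑 : Set (Set ℂ × (ℂ → ℂ))) (u : ℂ) : ℂ[X] :=
  ∏ᶠ γ ∈ {γ : Germ (𝓝 u) ℂ | ∃ b ∈ 𝓑, u ∈ b.1 ∧ γ = b.2}, (X - C γ.value)

theorem algl_loc {Z : Finset ℂ} {𝓑 : Set (Set ℂ × (ℂ → ℂ))} (h : FinB Z 𝓑) {c : ℂ} (hc : c ∉ Z) :
    ∃ ρ > 0, ∃ J : Finset (ℂ → ℂ), (∀ f ∈ J, (ball c ρ, f) ∈ 𝓑) ∧ (∀ b ∈ 𝓑, c ∈ b.1 →
      ∃ f ∈ J, b.2 c = f c) ∧ ∀ u ∈ ball c ρ, alglQ 𝓑 u = ∏ f ∈ J, (X - C (f u)) := by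
  obtain ⟨ρ, ρ0, 𝒥, fin, h1, h2⟩ := h.fin c hc
  obtain ⟨J, j1, j2⟩ := Set.exists_subset_bijOn 𝒥 fun f => (f : Germ (𝓝 c) ℂ)
  lift J to Finset (ℂ → ℂ) using fin.subset j1
  have tr : ∀ f ∈ 𝒥, ∀ g ∈ 𝒥, ∀ u ∈ ball c ρ, ∀ v ∈ ball c ρ, f =ᶠ[𝓝 u] g → f =ᶠ[𝓝 v] g :=
    fun f hf g hg u hu v hv e => mem_of_superset (isOpen_ball.mem_nhds hv)
      ((h.an _ (h1 f hf)).eqOn_of_preconnected_of_eventuallyEq (h.an _ (h1 g hg))
        (convex_ball _ _).isPreconnected hu e)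
  have c0 := mem_ball_self (x := c) ρ0
  have su : ∀ b ∈ 𝓑, ∀ u ∈ b.1, u ∈ ball c ρ → ∃ f ∈ J, f =ᶠ[𝓝 u] b.2 := fun b hb u u1 u2 => by
    obtain ⟨f, f1, f2⟩ := h2 b hb u u1 u2
    obtain ⟨g, g1, g2⟩ := j2.surjOn ⟨f, f1, rfl⟩
    exact ⟨g, g1, (tr g (j1 g1) f f1 c c0 u u2 (Germ.coe_eq.1 g2)).trans f2.symm⟩
  refine ⟨ρ, ρ0, J, fun f hf => h1 f (j1 hf), fun b hb m => (su b hb c m c0).imp fun f hf =>
    ⟨hf.1, hf.2.self_of_nhds.symm⟩, fun u hu => ?_⟩
  rw [← finprod_mem_coe_finset, alglQ]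
  symm
  refine finprod_mem_eq_of_bijOn (fun f : ℂ → ℂ => (f : Germ (𝓝 u) ℂ)) ?_ fun f _ => rfl
  refine ⟨fun f hf => ⟨_, h1 f (j1 hf), hu, rfl⟩, fun f hf g hg e => j2.injOn hf hg
    (Germ.coe_eq.2 (tr f (j1 hf) g (j1 hg) u hu c c0 (Germ.coe_eq.1 e))), ?_⟩
  rintro _ ⟨b, hb, m, rfl⟩
  obtain ⟨f, f1, f2⟩ := su b hb u m hu
  exact ⟨f, f1, Germ.coe_eq.2 f2⟩

/-- the product of `X - value` over the germs at `u` of the branches; the number of germs is locally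
constant on the connected complement of `Z` -/
theorem algL {Z : Finset ℂ} {𝓑 : Set (Set ℂ × (ℂ → ℂ))} (h : FinB Z 𝓑) : ∃ q : ℂ[X][X], q ≠ 0 ∧
    ∀ b ∈ 𝓑, ∀ u ∈ b.1, u ∉ Z → q.evalEval u (b.2 u) = 0 := by
  choose! ρ ρ0 J j1 j2 j3 using fun c (hc : c ∉ Z) => algl_loc h hc
  have j4 := fun c hc => j3 c hc c (mem_ball_self (ρ0 c hc))
  have dg : ∀ c ∉ Z, ∀ u ∈ ball c (ρ c), (alglQ 𝓑 u).natDegree = (J c).card := fun c hc u hu => by
    rw [j3 c hc u hu, natDegree_prod_of_monic _ _ fun f _ => monic_X_sub_C _]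
    simp
  obtain ⟨o, ho⟩ := Infinite.exists_notMem_finset Z
  obtain ⟨n, hn⟩ : ∃ n, ∀ c ∉ Z, (J c).card = n := ⟨(alglQ 𝓑 o).natDegree, fun c hc => by
    rw [← dg c hc c (mem_ball_self (ρ0 c hc))]
    refine (Z.countable_toSet.isConnected_compl_of_one_lt_rank
      (by rw [Complex.rank_real_complex]; norm_num)).isPreconnected.constant
      (f := fun u => (alglQ 𝓑 u).natDegree) (fun x hx => ?_) hc ho
    exact (continuousAt_const.congr (mem_of_superset (ball_mem_nhds x (ρ0 x hx)) fun u hu =>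
      (dg x hx u hu).symm)).continuousWithinAt⟩
  have bd : ∀ u ∉ Z, ∀ k, ‖(alglQ 𝓑 u).coeff k‖ ≤ ∏ f ∈ J u, (1 + ‖f u‖) := fun u hu k =>
    j4 u hu ▸ algl_bd _ _ k
  have me := fun k => mero (Z := Z) (f := fun u => (alglQ 𝓑 u).coeff k) (fun c hc =>
    (algl_df (J c) (fun f hf => (h.an _ (j1 c hc f hf) c (mem_ball_self (ρ0 c hc))).differentiableAt)
      k).congr_of_eventuallyEq (mem_of_superset (ball_mem_nhds c (ρ0 c hc)) fun u hu => by
        simp only [Set.mem_ofPred_eq, j3 c hc u hu])) (fun s hs => by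
      obtain ⟨N, hN⟩ := h.gr s hs
      refine ⟨(N + 1) * n, ?_⟩
      filter_upwards [hN, Z.eventually_cofinite_notMem.filter_mono (nhdsNE_le_cofinite s),
        mem_nhdsWithin_of_mem_nhds (ball_mem_nhds s one_half_pos)] with u a1 a2 a3
      rw [mem_ball_iff_norm] at a3
      refine (mul_le_mul_of_nonneg_right (bd u a2 k) (by positivity)).trans ?_
      rw [pow_mul, ← hn u a2, ← Finset.prod_const, ← Finset.prod_mul_distrib]
      refine Finset.prod_le_one (fun f _ => by positivity) fun f hf => ?_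
      have b1 := a1 _ (j1 u a2 f hf) (mem_ball_self (ρ0 u a2))
      have b2 : ‖u - s‖ ^ N ≤ 1 := pow_le_one₀ (norm_nonneg _) (by linarith)
      rw [pow_succ]
      nlinarith [norm_nonneg (u - s)]) (by
      obtain ⟨N, hN⟩ := h.gi
      refine ⟨(N + 1) * n, ?_⟩
      filter_upwards [hN, Z.eventually_cofinite_notMem.filter_mono cocompact_le_cofinite,
        tendsto_norm_cocompact_atTop.eventually_ge_atTop 2] with u a1 a2 a3
      refine (bd u a2 k).trans ?_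
      rw [pow_mul, ← hn u a2, ← Finset.prod_const]
      refine Finset.prod_le_prod (fun f _ => by positivity) fun f hf => ?_
      have b1 := a1 _ (j1 u a2 f hf) (mem_ball_self (ρ0 u a2))
      have b2 : 1 ≤ ‖u‖ ^ N := one_le_pow₀ (by linarith)
      rw [pow_succ]
      nlinarith)
  choose N p hp using me
  obtain ⟨q, hq⟩ : ∃ q : ℂ[X][X], ∀ u ∉ Z, ∀ y, q.evalEval u y =
      (∏ s ∈ Z, (u - s)) ^ (∑ k ∈ Finset.range (n + 1), N k) * (alglQ 𝓑 u).eval y := by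
    refine ⟨∑ k ∈ Finset.range (n + 1), C ((∏ s ∈ Z, (X - C s)) ^
      (∑ k ∈ Finset.range (n + 1), N k - N k) * p k) * X ^ k, fun u hu y => ?_⟩
    rw [eval_eq_sum_range, dg u hu u (mem_ball_self (ρ0 u hu)), hn u hu, Finset.mul_sum,
      evalEval_finsetSum]
    refine Finset.sum_congr rfl fun k hk => ?_
    simp only [evalEval_mul, evalEval_C, evalEval_pow, evalEval_X, eval_mul, eval_pow, eval_prod,
      eval_sub, eval_X, eval_C, ← hp k u hu]
    rw [← mul_assoc, ← mul_assoc, ← pow_add, Nat.sub_add_cancel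
      (Finset.single_le_sum (fun _ _ => Nat.zero_le _) hk)]
  refine ⟨q, fun e => ?_, fun b hb u m hu => ?_⟩
  · refine (j4 o ho ▸ monic_prod_of_monic _ _ fun f _ => monic_X_sub_C _ :
      (alglQ 𝓑 o).Monic).ne_zero (Polynomial.funext fun y => ?_)
    have := hq o ho y
    rw [e, evalEval_zero, eq_comm, mul_eq_zero] at this
    exact (this.resolve_left (pow_ne_zero _ (Finset.prod_ne_zero_iff.2 fun s hs =>
      sub_ne_zero.2 fun c => ho (c ▸ hs)))).trans eval_zero.symm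
  · obtain ⟨f, f1, f2⟩ := j2 u hu b hb m
    rw [hq u hu, j4 u hu, eval_prod, Finset.prod_eq_zero f1 (by simp [f2]), mul_zero]

end

end Pool.Agent.Lib.MP_5591bc_ag.Rg
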