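import Pool.Agent.Lib.MP_5591bc_ag.B.Chev

/-! Complex forms that vanish on a rational group are combinations of rational ones. -/

namespace Pool.Agent.Lib.MP_5591bc_ag.Rg

open Matrix G R W M A

noncomputable section

/-- specialisation of finitely many numbers to a finite extension -/
theorem chqa_spec {K F ι : Type*} [Field K] [Field F] [Algebra K F] [Finite ι] (x : ι → F)
    {p : MvPolynomial ι K} (hp : MvPolynomial.aeval x p ≠ 0) :
    ∃ m : Ideal (MvPolynomial ι K), m.IsMaximal ∧ p ∉ m ∧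
      ∀ q, MvPolynomial.aeval x q = 0 → q ∈ m := by
  have h1 : (RingHom.ker (MvPolynomial.aeval (R := K) x)).IsPrime := RingHom.ker_isPrime _
  have h2 : p ∉ (RingHom.ker (MvPolynomial.aeval (R := K) x)).jacobson := by
    rwa [IsJacobsonRing.out inferInstance h1.isRadical]
  rw [Ideal.jacobson, Ideal.mem_sInf] at h2
  push Not at h2
  obtain ⟨m, ⟨m1, m2⟩, m3⟩ := h2
  exact ⟨m, m2, m3, fun q hq => m1 hq⟩

variable {ν : Type*} [Fintype ν] [DecidableEq ν] {G : Set (Matrix ν ν ℂ)}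

/-- each rational component of a form that vanishes on `G` vanishes on `G` -/
theorem chqa_comp (hG : QGrp G) {δ : ℕ} {F : Mo δ ν → ℂ} (hF : ∀ a ∈ G, F ⬝ᵥ mono δ a = 0)
    (π : ℂ →ₗ[ℚ] ℚ) : ∀ a ∈ G, (fun μ => (π (F μ) : ℂ)) ⬝ᵥ mono δ a = 0 := by
  classical
  obtain ⟨⟨E, rfl⟩, -⟩ := hG
  intro g hg
  by_contra hy
  let X := mvPolynomialX ν ν ℚ
  have ev : ∀ {S : Type _} [CommRing S] (f : MvPolynomial (ν × ν) ℚ →+* S) (μ : Mo δ ν),
      f (mono δ X μ) = mono δ (X.map f) μ := fun f μ => V.map_vk f X μ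
  let y : MvPolynomial (ν × ν) ℚ := ∑ μ, π (F μ) • mono δ X μ
  let f0 := MvPolynomial.aeval (R := ℚ) fun a : ν × ν => g a.1 a.2
  have e0 : X.map (f0 : MvPolynomial (ν × ν) ℚ →+* ℂ) = g := by
    ext i j
    simp [X, f0, mvPolynomialX]
  obtain ⟨m, m1, m2, m3⟩ := chqa_spec (fun a : ν × ν => g a.1 a.2) (p := y * X.det) (by
    rw [map_mul]
    refine mul_ne_zero (fun e => hy ?_) (fun e => hg.1 ?_)
    · rw [← e, map_sum, dotProduct]
      refine Finset.sum_congr rfl fun μ _ => ?_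
      rw [map_smul, Rat.smul_def]
      exact congrArg _ ((ev (f0 : MvPolynomial (ν × ν) ℚ →+* ℂ) μ).trans (by rw [e0])).symm
    · have := (f0 : MvPolynomial (ν × ν) ℚ →+* ℂ).map_det X
      rw [RingHom.mapMatrix_apply, e0] at this
      exact this.symm.trans e)
  let : Field (MvPolynomial (ν × ν) ℚ ⧸ m) := Ideal.Quotient.field m
  have : Module.Finite ℚ (MvPolynomial (ν × ν) ℚ ⧸ m) := finite_of_finite_type_of_isJacobsonRing _ _
  let φ := Ideal.Quotient.mkₐ ℚ m
  have y0 : φ y ≠ 0 := fun e => m2 (m.mul_mem_right _ (Ideal.Quotient.eq_zero_iff_mem.1 e))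
  have d0 : φ X.det ≠ 0 := fun e => m2 (m.mul_mem_left _ (Ideal.Quotient.eq_zero_iff_mem.1 e))
  have k : ∀ τ : (MvPolynomial (ν × ν) ℚ ⧸ m) →ₐ[ℚ] ℂ, ∑ μ, F μ * τ (φ (mono δ X μ)) = 0 :=
    fun τ => by
      have := hF (X.map ((τ.comp φ : _ →ₐ[ℚ] ℂ) : MvPolynomial (ν × ν) ℚ →+* ℂ)) ⟨?_, fun p hp => ?_⟩
      · rw [← this, dotProduct]
        exact Finset.sum_congr rfl fun μ _ => by rw [← ev]; rfl
      · rw [← RingHom.mapMatrix_apply, ← RingHom.map_det]
        exact (_root_.map_ne_zero τ).2 d0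
      · have e : MvPolynomial.aeval (fun a : ν × ν => (X.map
            ((τ.comp φ : _ →ₐ[ℚ] ℂ) : MvPolynomial (ν × ν) ℚ →+* ℂ)) a.1 a.2) = τ.comp φ :=
          MvPolynomial.algHom_ext fun a => by simp [X, mvPolynomialX]
        rw [e, AlgHom.comp_apply,
          show φ p = 0 from Ideal.Quotient.eq_zero_iff_mem.2 (m3 p (hg.2 p hp)), map_zero]
  have k2 : ∑ μ, Algebra.trace ℚ _ ((φ y)⁻¹ * φ (mono δ X μ)) • F μ = 0 := by
    have : ∀ μ, Algebra.trace ℚ _ ((φ y)⁻¹ * φ (mono δ X μ)) • F μ =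
        ∑ τ : (MvPolynomial (ν × ν) ℚ ⧸ m) →ₐ[ℚ] ℂ, τ (φ y)⁻¹ * (F μ * τ (φ (mono δ X μ))) :=
      fun μ => by
        rw [Algebra.smul_def, trace_eq_sum_embeddings ℂ, Finset.sum_mul]
        exact Finset.sum_congr rfl fun τ _ => by rw [map_mul]; ring
    simp only [this]
    rw [Finset.sum_comm]
    exact Finset.sum_eq_zero fun τ _ => by rw [← Finset.mul_sum, k, mul_zero]
  have k3 : Algebra.trace ℚ _ ((φ y)⁻¹ * φ y) = 0 := by
    have := congrArg π k2
    rw [map_sum, map_zero] at this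
    have e : φ y = ∑ μ, π (F μ) • φ (mono δ X μ) := by simp only [y, map_sum, map_smul]
    generalize (φ y)⁻¹ = l at this
    rw [← this, e, Finset.mul_sum, map_sum]
    refine Finset.sum_congr rfl fun μ _ => ?_
    rw [mul_smul_comm, map_smul, map_smul, smul_eq_mul, smul_eq_mul, mul_comm]
  rw [inv_mul_cancel₀ y0, ← map_one (algebraMap ℚ _), Algebra.trace_algebraMap] at k3
  exact Module.finrank_pos.ne' (by simpa using k3)

/-- a form that vanishes on `G` kills every vector killed by the rational such forms -/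
theorem chqa_rat (hG : QGrp G) {δ : ℕ} {v : Mo δ ν → ℂ}
    (hv : ∀ w : Mo δ ν → ℚ, (∀ a ∈ G, (fun μ => (w μ : ℂ)) ⬝ᵥ mono δ a = 0) →
      (fun μ => (w μ : ℂ)) ⬝ᵥ v = 0) {F : Mo δ ν → ℂ} (hF : ∀ a ∈ G, F ⬝ᵥ mono δ a = 0) :
    F ⬝ᵥ v = 0 := by
  classical
  let b := Module.Basis.ofVectorSpace ℚ ℂ
  have e : F = ∑ i ∈ Finset.univ.biUnion fun a => (b.repr (F a)).support,
      b i • fun a => ((b.repr (F a) i : ℚ) : ℂ) := by
    funext a
    rw [Finset.sum_apply]
    conv_lhs => rw [← b.linearCombination_repr (F a), Finsupp.linearCombination_apply,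
      Finsupp.sum_of_support_subset _
        (Finset.subset_biUnion_of_mem (fun a => (b.repr (F a)).support) (Finset.mem_univ a))
        (fun i q => q • b i) (fun i _ => zero_smul _ _)]
    exact Finset.sum_congr rfl fun i _ => by simp [Rat.smul_def, mul_comm]
  rw [e, sum_dotProduct]
  refine Finset.sum_eq_zero fun i _ => ?_
  rw [smul_dotProduct, hv (fun a => b.repr (F a) i) (chqa_comp hG hF (b.coord i)), smul_zero]

/-- the wedge of a rational basis -/
theorem chqa_line (hG : QGrp G) (δ : ℕ) : ∃ (r : ℕ) (e : (Fin r → Mo δ ν) → ℚ), e ≠ 0 ∧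
    (∀ g ∈ G, ∃ c : ℂ, (rW r δ g *ᵥ fun a => (e a : ℂ)) = c • fun a => (e a : ℂ)) ∧
    ∀ (g : Matrix ν ν ℂ) (c : ℂ), g.det ≠ 0 →
      (rW r δ g *ᵥ fun a => (e a : ℂ)) = c • (fun a => (e a : ℂ)) →
      ∀ F : Mo δ ν → ℂ, (∀ a ∈ G, F ⬝ᵥ mono δ a = 0) → F ⬝ᵥ mono δ g = 0 := by
  classical
  let 𝓕 : Set (Mo δ ν → ℚ) := {w | ∀ a ∈ G, (fun μ => (w μ : ℂ)) ⬝ᵥ mono δ a = 0}
  let E : Submodule ℚ (Mo δ ν → ℚ) :=
    { carrier := {x | ∀ w ∈ 𝓕, w ⬝ᵥ x = 0}
      add_mem' := fun ha hb w hw => by rw [dotProduct_add, ha w hw, hb w hw, add_zero]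
      zero_mem' := fun w _ => dotProduct_zero w
      smul_mem' := fun c x hx w hw => by rw [dotProduct_smul, hx w hw, smul_zero] }
  obtain ⟨r, ⟨b⟩⟩ : ∃ r, Nonempty (Module.Basis (Fin r) ℚ E) := ⟨_, ⟨Module.finBasis ℚ E⟩⟩
  obtain ⟨V, hV⟩ : ∃ V : Matrix (Mo δ ν) (Fin r) ℚ, ∀ a j, V a j = (b j).1 a :=
    ⟨of fun a j => (b j).1 a, fun _ _ => rfl⟩
  have rep : ∀ x ∈ E, ∃ y, x = V *ᵥ y := fun x hx => ⟨b.repr ⟨x, hx⟩, by
    ext a
    have := congrArg (fun w : E => w.1 a) (b.sum_repr ⟨x, hx⟩)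
    simp only [Submodule.coe_sum, Finset.sum_apply, Submodule.coe_smul, Pi.smul_apply,
      smul_eq_mul] at this
    simp only [mulVec, dotProduct, hV, mul_comm ((b _).1 a), this]⟩
  have col : ∀ j, (fun a => V a j) ∈ E := fun j => by simpa only [hV] using (b j).2
  have FV : ∀ F : Mo δ ν → ℂ, (∀ a ∈ G, F ⬝ᵥ mono δ a = 0) → F ᵥ* qc V = 0 := fun F hF =>
    funext fun j => chqa_rat hG (v := fun a => (V a j : ℂ)) (fun w hw => by
      have := congrArg (fun q : ℚ => (q : ℂ)) (col j w hw)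
      simpa [dotProduct] using this) hF
  have repC : ∀ x : Mo δ ν → ℂ, (∀ w ∈ 𝓕, (fun μ => (w μ : ℂ)) ⬝ᵥ x = 0) →
      ∃ y, x = qc V *ᵥ y := fun x hx => by
    have sp := chb_span 𝓕 (fun w => of fun _ a => w a) (fun _ => 0) x fun w hw => by
      funext a
      simpa [mulVec, dotProduct] using hx w hw
    clear hx
    induction sp using Submodule.span_induction with
    | mem x hx =>
      obtain ⟨u, hu, rfl⟩ := hx
      obtain ⟨y, rfl⟩ := rep u fun w hw => by
        simpa [mulVec, dotProduct] using congrFun (hu w hw) fun _ => none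
      exact ⟨fun j => (y j : ℂ), funext fun a => by simp [mulVec, dotProduct]⟩
    | zero => exact ⟨0, (mulVec_zero _).symm⟩
    | add x y _ _ hx hy =>
      obtain ⟨a, rfl⟩ := hx
      obtain ⟨b, rfl⟩ := hy
      exact ⟨a + b, (mulVec_add _ _ _).symm⟩
    | smul c x _ hx =>
      obtain ⟨a, rfl⟩ := hx
      exact ⟨c • a, (mulVec_smul _ _ _).symm⟩
  have eW : (fun a => ((chevW V a : ℚ) : ℂ)) = chevW (qc V) := funext fun μ =>
    (Rat.castHom ℂ).map_det _
  obtain ⟨a, ha⟩ : ∃ a, chevW V a ≠ 0 := by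
    obtain ⟨L, hL⟩ := (mulVecLin V).exists_leftInverse_of_injective (LinearMap.ker_eq_bot'.2
      fun y hy => funext (Fintype.linearIndependent_iff.1 b.linearIndependent y (by
        ext a
        simpa [mulVec, dotProduct, hV, mul_comm] using congrFun hy a)))
    have h1 : LinearMap.toMatrix' L * V = 1 := by
      rw [← LinearMap.toMatrix'_id, ← hL, LinearMap.toMatrix'_comp]
      exact congrArg _ (LinearMap.toMatrix'_toLin' V).symm
    by_contra! h
    have := congrFun (chevW_mul (LinearMap.toMatrix' L) V) id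
    rw [h1, show chevW V = 0 from funext h] at this
    simp [chevW] at this
  have gm : ∀ g ∈ G, ∀ a ∈ G, g * a ∈ G := fun g hg a ha => by
    have a0 : a.det ≠ 0 := by
      obtain ⟨⟨E, rfl⟩, -⟩ := hG
      exact ha.1
    have := hG.2.2 g hg _ (hG.2.2 1 hG.2.1 a ha)
    rwa [Matrix.one_mul, nonsing_inv_nonsing_inv _ a0.isUnit] at this
  refine ⟨r, chevW V, fun e => ha (congrFun e a), fun g hg => ?_, fun g c hg hc F hF => ?_⟩
  · have : ∀ j, ∃ y, ((piM fun _ : Fin δ => exg 1 g) *ᵥ fun a => qc V a j) = qc V *ᵥ y := fun j =>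
      repC _ fun w hw => by
        rw [dotProduct_mulVec]
        exact congrFun (FV _ fun a ha => by
          rw [← dotProduct_mulVec, chev_mono]
          exact hw _ (gm g hg a ha)) j
    choose y hy using this
    refine ⟨(of fun i j => y j i).det, ?_⟩
    rw [eW, rW, chevW_mul, ← chevW_right]
    exact congrArg _ (Matrix.ext fun a j => congrFun (hy j) a)
  · replace hF := FV F hF
    rw [eW] at hc
    obtain ⟨μ, hμ⟩ : ∃ μ, (rW r δ g *ᵥ chevW (qc V)) μ ≠ 0 := by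
      by_contra! h
      have := congrFun (congrArg (rW r δ g⁻¹ *ᵥ ·) (funext h)) a
      simp only [mulVec_mulVec, ← rW_mul, nonsing_inv_mul _ hg.isUnit, rW_one, one_mulVec,
        ← eW] at this
      exact ha (by simpa [mulVec, dotProduct] using this)
    rw [rW, chevW_mul] at hc hμ
    obtain ⟨y, h1⟩ := repC (mono δ (1 : Matrix ν ν ℂ)) fun w hw => hw 1 hG.2.1
    rw [← Matrix.mul_one g, ← chev_mono, h1, mulVec_mulVec, dotProduct_mulVec]
    generalize (piM fun _ : Fin δ => exg 1 g) * qc V = X at hc hμ ⊢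
    have h2 := mulVec_cramer (X.submatrix μ id)ᵀ (F ᵥ* X)
    rw [show cramer (X.submatrix μ id)ᵀ (F ᵥ* X) = 0 from funext fun i => by
      have := chevW_con (qc V) F μ i
      rw [hF, map_zero] at this
      simp only [chevW_con, hc, Pi.smul_apply, smul_eq_mul, mul_left_comm _ c, ← Finset.mul_sum,
        ← this, Pi.zero_apply, mul_zero], mulVec_zero, det_transpose] at h2
    rw [(smul_eq_zero.1 h2.symm).resolve_left hμ, zero_dotProduct]

end

end Pool.Agent.Lib.MP_5591bc_ag.Rg
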