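import Pool.Agent.Lib.MP_5591bc_ag.Rg.Set
import Pool.Agent.Lib.MP_5591bc_ag.Rg.ChQA

/-! The line of Chevalley of a rational group. -/

namespace Pool.Agent.Lib.MP_5591bc_ag.Rg

open Matrix Filter Topology Metric Polynomial G R W M A B

noncomputable section

variable {ν : Type*} [Fintype ν] [DecidableEq ν] {G : Set (Matrix ν ν ℂ)}

/-- the span of the `mono δ X`, `X ∈ G`, has a rational basis; an edited copy of `chev_line` -/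
theorem chq (hG : QGrp G) (δ : ℕ) : ∃ (r : ℕ) (e : (Fin r → Mo δ ν) → ℚ),
    (∀ g ∈ G, ∃ c : ℂ, (rW r δ g *ᵥ fun a => (e a : ℂ)) = c • fun a => (e a : ℂ)) ∧
    ∀ (g : Matrix ν ν ℂ) (c : ℂ), g.det ≠ 0 →
      (rW r δ g *ᵥ fun a => (e a : ℂ)) = c • (fun a => (e a : ℂ)) →
      ∀ F : Mo δ ν → ℂ, (∀ X ∈ G, F ⬝ᵥ mono δ X = 0) → F ⬝ᵥ mono δ g = 0 := by
  obtain ⟨r, e, -, h⟩ := chqa_line hG δ
  exact ⟨r, e, h⟩

theorem chq_mem (hG : QGrp G) {g : Matrix ν ν ℂ} (g0 : g.det ≠ 0)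
    (h : ∀ (r δ : ℕ) (e : (Fin r → Mo δ ν) → ℚ),
      (∀ X ∈ G, ∃ c : ℂ, (rW r δ X *ᵥ fun a => (e a : ℂ)) = c • fun a => (e a : ℂ)) →
      (rW r δ g *ᵥ fun a => (e a : ℂ)) = fun a => (e a : ℂ)) : g ∈ G := by
  have hG' := hG
  obtain ⟨⟨E, hE⟩, -⟩ := hG'
  rw [hE]
  refine ⟨g0, fun p hp => ?_⟩
  have ev : ∀ X : Matrix ν ν ℂ, MvPolynomial.eval (fun a : ν × ν => X a.1 a.2)
      (MvPolynomial.map (algebraMap ℚ ℂ) p) =
      MvPolynomial.aeval (fun a : ν × ν => X a.1 a.2) p := fun X => by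
    rw [MvPolynomial.eval_map, MvPolynomial.aeval_def]
  obtain ⟨F, hF⟩ := chev_form (MvPolynomial.map (algebraMap ℚ ℂ) p)
  obtain ⟨r, e, h1, h2⟩ := chq hG (MvPolynomial.map (algebraMap ℚ ℂ) p).totalDegree
  rw [← ev, hF]
  refine h2 g 1 g0 (by rw [h r _ e h1, one_smul]) F fun X hX => ?_
  rw [← hF, ev]
  exact ((Set.ext_iff.1 hE X).1 hX).2 p hp

end

end Pool.Agent.Lib.MP_5591bc_ag.Rg
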