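import Pool.Agent.Lib.MP_5591bc_ag.Rg.Set
import Pool.Agent.Lib.MP_5591bc_ag.N.Brg

/-! Denominators that do not vanish at the point. -/

namespace Pool.Agent.Lib.MP_5591bc_ag.Rg

open Matrix Filter Topology Metric G R W M A B N

noncomputable section

variable {σ K ν μ : Type} [Fintype σ] [DecidableEq σ] [Field K] [Algebra K ℂ] [Fintype ν]
  [DecidableEq ν] [Fintype μ] [DecidableEq μ] {T : MvPolynomial σ K}
  {B : σ → Matrix ν ν (MvPolynomial σ K)} {U V : Set (σ → ℂ)} {P Q : (σ → ℂ) → Matrix ν ν ℂ}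
  {C1 : Matrix ν ν ℂ} {c : μ → ν} {s v : σ → ℂ}

/-- a finitely generated module stable under `t * ∂` that contains `u` -/
def DenG (S : Subalgebra ℂ (MvPowerSeries σ ℂ)) (t u : MvPowerSeries σ ℂ) : Prop :=
  ∃ M : Submodule S (MvPowerSeries σ ℂ), M.FG ∧
    (∀ l, ∀ x ∈ M, t * MvPowerSeries.pderiv ℂ l x ∈ M) ∧ u ∈ M

section
omit [Fintype σ] [DecidableEq σ]

variable {S : Subalgebra ℂ (MvPowerSeries σ ℂ)} {t u u' b : MvPowerSeries σ ℂ}

theorem den_lei (l : σ) (t x y : MvPowerSeries σ ℂ) : t * MvPowerSeries.pderiv ℂ l (x * y) =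
    t * MvPowerSeries.pderiv ℂ l x * y + x * (t * MvPowerSeries.pderiv ℂ l y) := by
  rw [Derivation.leibniz, smul_eq_mul, smul_eq_mul]
  ring

theorem den_span (hD : DN t S) {A : Set (MvPowerSeries σ ℂ)} (hA : A.Finite)
    (h : ∀ l, ∀ a ∈ A, t * MvPowerSeries.pderiv ℂ l a ∈ Submodule.span S A)
    (hu : u ∈ Submodule.span S A) : DenG S t u := by
  refine ⟨_, Submodule.fg_span hA, fun l x hx => ?_, hu⟩
  induction hx using Submodule.span_induction with
  | mem a ha => exact h l a ha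
  | zero => simp
  | add x y _ _ hx hy =>
    rw [map_add, mul_add]
    exact add_mem hx hy
  | smul c x ax hx =>
    have e := den_lei l t c x
    change t * MvPowerSeries.pderiv ℂ l (c * x) ∈ _
    rw [e]
    exact add_mem (Submodule.smul_mem _ (⟨_, hD l c c.2⟩ : S) ax) (Submodule.smul_mem _ c hx)

theorem DenG.add (h : DenG S t u) (h' : DenG S t u') : DenG S t (u + u') := by
  obtain ⟨M, f, d, m⟩ := h
  obtain ⟨M', f', d', m'⟩ := h'
  refine ⟨M ⊔ M', f.sup f', fun l x hx => ?_, Submodule.add_mem_sup m m'⟩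
  obtain ⟨y, hy, z, hz, rfl⟩ := Submodule.mem_sup.1 hx
  rw [map_add, mul_add]
  exact Submodule.add_mem_sup (d l y hy) (d' l z hz)

theorem DenG.mul (h : DenG S t u) (h' : DenG S t u') : DenG S t (u * u') := by
  obtain ⟨M, f, d, m⟩ := h
  obtain ⟨M', f', d', m'⟩ := h'
  refine ⟨M * M', f.mul f', fun l x hx => ?_, Submodule.mul_mem_mul m m'⟩
  refine Submodule.mul_induction_on hx (fun y hy z hz => ?_) fun y z hy hz => ?_
  · rw [den_lei]
    exact add_mem (Submodule.mul_mem_mul (d l y hy) hz) (Submodule.mul_mem_mul hy (d' l z hz))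
  · rw [map_add, mul_add]
    exact add_mem hy hz

theorem DenG.den (h : DenG S t u) (hS : S.FG) (ht : MvPowerSeries.constantCoeff t ≠ 0)
    (hD : DN t S) (hb : b ∈ S) (b0 : b ≠ 0) (h' : b * u ∈ S) :
    ∃ b' ∈ S, MvPowerSeries.constantCoeff b' ≠ 0 ∧ b' * u ∈ S := by
  obtain ⟨M, f, d, m⟩ := h
  have := (Subalgebra.fg_iff_finiteType S).1 hS
  have : IsNoetherianRing S := Algebra.FiniteType.isNoetherianRing ℂ S
  let N : Submodule S (MvPowerSeries σ ℂ) :=
    { carrier := {x | x ∈ M ∧ ∃ b ∈ S, b ≠ 0 ∧ b * x ∈ S}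
      zero_mem' := ⟨M.zero_mem, 1, S.one_mem, one_ne_zero, by simp⟩
      add_mem' := by
        rintro x y ⟨mx, a, ha, a0, h1⟩ ⟨my, c, hc, c0, h2⟩
        refine ⟨M.add_mem mx my, a * c, mul_mem ha hc, mul_ne_zero a0 c0, ?_⟩
        rw [show a * c * (x + y) = c * (a * x) + a * (c * y) by ring]
        exact add_mem (mul_mem hc h1) (mul_mem ha h2)
      smul_mem' := by
        rintro c x ⟨mx, a, ha, a0, h1⟩
        refine ⟨M.smul_mem c mx, a, ha, a0, ?_⟩
        change a * (c * x) ∈ S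
        rw [mul_left_comm]
        exact mul_mem c.2 h1 }
  have dN : ∀ l, ∀ x ∈ N, t * MvPowerSeries.pderiv ℂ l x ∈ N := by
    rintro l x ⟨mx, a, ha, a0, h1⟩
    refine ⟨d l x mx, a * a, mul_mem ha ha, mul_ne_zero a0 a0, ?_⟩
    rw [show a * a * (t * MvPowerSeries.pderiv ℂ l x) = a * (t * MvPowerSeries.pderiv ℂ l (a * x)) -
      t * MvPowerSeries.pderiv ℂ l a * (a * x) by rw [den_lei]; ring]
    exact sub_mem (mul_mem ha (hD l _ h1)) (mul_mem (hD l a ha) h1)
  have fN : N.FG := f.of_le (fun x hx => hx.1)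
  obtain ⟨A, hA⟩ := fN
  choose! β h1 h2 h3 using fun x (hx : x ∈ N) => hx.2
  have mA : ∀ x ∈ A, x ∈ N := fun x hx => hA ▸ Submodule.subset_span hx
  by_contra! hn
  have key : ∀ n, ∀ c ∈ S, (∀ x ∈ N, c * x ∈ S) → On (n + 1) c := by
    intro n
    induction n with
    | zero => exact fun c hc k => on_one.2 (by_contra fun e => hn c hc e (k u ⟨m, b, hb, b0, h'⟩))
    | succ n ih =>
      refine fun c hc k => (ih c hc k).lower fun l => On.unit (ih _ (hD l c hc) fun x hx => ?_) ht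
      rw [eq_sub_of_add_eq (den_lei l t c x).symm]
      exact sub_mem (hD l _ (k x hx)) (k _ (dN l x hx))
  refine Finset.prod_ne_zero_iff.2 (fun x hx => h2 x (mA x hx)) (on_all fun n =>
    (key n _ (prod_mem fun x hx => h1 x (mA x hx)) fun x hx => ?_).mono n.le_succ)
  rw [← hA] at hx
  induction hx using Submodule.span_induction with
  | mem a ha =>
    classical
    rw [← Finset.prod_erase_mul _ _ ha, mul_assoc]
    exact mul_mem (prod_mem fun x hx => h1 x (mA x (Finset.mem_of_mem_erase hx))) (h3 a (mA a ha))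
  | zero => simp
  | add x y _ _ hx hy =>
    rw [mul_add]
    exact add_mem hx hy
  | smul c x _ hx =>
    change _ * (c * x) ∈ S
    rw [mul_left_comm]
    exact mul_mem c.2 hx

theorem den_tm {x : σ → ℂ} {p : MvPolynomial σ ℂ} (h : τm x p = 0) : p = 0 := by
  have h1 : MvPolynomial.aeval (fun l => MvPolynomial.X l + MvPolynomial.C (x l) :
      σ → MvPolynomial σ ℂ) p = 0 := MvPolynomial.coe_injective σ ℂ h
  have h2 : (MvPolynomial.aeval fun l => MvPolynomial.X l - MvPolynomial.C (x l) :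
      MvPolynomial σ ℂ →ₐ[ℂ] MvPolynomial σ ℂ).comp (MvPolynomial.aeval
        fun l => MvPolynomial.X l + MvPolynomial.C (x l)) = AlgHom.id ℂ _ := by
    ext l
    simp
  have h3 := DFunLike.congr_fun h2 p
  rw [AlgHom.comp_apply, h1, map_zero] at h3
  exact h3.symm

theorem den_lift {κ κ' : Type} (q : MvPolynomial κ (MvPolynomial σ ℂ)) :
    ∃ H : MvPolynomial (σ ⊕ κ ⊕ κ') ℂ, ∀ (t : σ → ℂ) (z : κ → ℂ) (y : κ' → ℂ),
      MvPolynomial.eval (Sum.elim t (Sum.elim z y)) H =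
        MvPolynomial.eval₂ (MvPolynomial.aeval t).toRingHom z q := by
  induction q using MvPolynomial.induction_on with
  | C p => exact ⟨MvPolynomial.rename Sum.inl p, fun t z y => by
      rw [MvPolynomial.eval_rename, MvPolynomial.eval₂_C]
      rfl⟩
  | add p q hp hq =>
    obtain ⟨H, h1⟩ := hp
    obtain ⟨H', h2⟩ := hq
    exact ⟨H + H', fun t z y => by rw [map_add, h1, h2, MvPolynomial.eval₂_add]⟩
  | mul_X p k hp =>
    obtain ⟨H, h1⟩ := hp
    exact ⟨H * MvPolynomial.X (.inr (.inl k)), fun t z y => by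
      rw [map_mul, h1, MvPolynomial.eval₂_mul, MvPolynomial.eval₂_X, MvPolynomial.eval_X]
      rfl⟩

end

/-- the elements of the span with a denominator in `S` form a finitely generated module; its ideal
of denominators is stable under `t * ∂` -/
theorem den_abs {S : Subalgebra ℂ (MvPowerSeries σ ℂ)} (hS : S.FG) {t : MvPowerSeries σ ℂ}
    (ht : MvPowerSeries.constantCoeff t ≠ 0) (hD : DN t S) {ι : Type} [Fintype ι]
    {m : ι → MvPowerSeries σ ℂ}
    (hm : ∀ l i, t * MvPowerSeries.pderiv ℂ l (m i) ∈ Submodule.span S (Set.range m))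
    {u b : MvPowerSeries σ ℂ} (hu : u ∈ Submodule.span S (Set.range m)) (hb : b ∈ S) (b0 : b ≠ 0)
    (h : b * u ∈ S) : ∃ b' ∈ S, MvPowerSeries.constantCoeff b' ≠ 0 ∧ b' * u ∈ S := by
  refine (den_span hD (Set.finite_range m) ?_ hu).den hS ht hD hb b0 h
  rintro l _ ⟨i, rfl⟩
  exact hm l i

theorem mf_fix (ho : IsOpen U) (hc : IsPreconnected U) (hP : FundM T B U P)
    (hC : ConnRM U P fun t => P t * C1) (hs : s ∈ U) (hT : MvPolynomial.aeval s T ≠ 0)
    (F : MvPolynomial (μ × μ) ℂ) {n : ℕ} {p : ℕ → MvPolynomial σ ℂ} (hp : ∃ j ≤ n, p j ≠ 0)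
    (h : ∀ᶠ t in 𝓝 s, ∑ j ∈ Finset.range (n + 1), MvPolynomial.eval t (p j) *
      MvPolynomial.eval (fun a => (P t).submatrix c c a.1 a.2) F ^ j = 0) :
    ∀ g ∈ Mf P C1 c s, MvPolynomial.eval (fun a => ((P s).submatrix c c * g) a.1 a.2) F =
      MvPolynomial.eval (fun a => (P s).submatrix c c a.1 a.2) F := by
  classical
  have a := fun t ht i j => ((hP t ht).2 i j).1
  have hD := DN_SN (uuN_ode ho hP C1 hs)
  have hN := (connRM_iff ho hc a (brg_an a C1) hs).1 hC
  change ConnTN (SN fun a => tayM (uuN P C1 · a) s) _ at hN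
  have hS : (SN fun a => tayM (uuN P C1 · a) s).FG :=
    Subalgebra.fg_def.2 ⟨_, (Set.finite_range _).union (Set.finite_range _), rfl⟩
  have hG : ∀ q, DenG (SN fun a => tayM (uuN P C1 · a) s) (τm s (TM ℂ T))
      (evGM s (tayX P s) q) := fun q => by
    induction q using MvPolynomial.induction_on with
    | C p =>
      refine den_span hD (Set.finite_singleton 1) (fun l x hx => by
        rw [hx, Derivation.map_one_eq_zero, mul_zero]; exact zero_mem _) ?_
      exact Submodule.mem_span_singleton.2 ⟨⟨_, τm_mem_SN s _ p⟩, by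
        simp [evGM, Subalgebra.smul_def]⟩
    | add p q hp hq => exact map_add (evGM s (tayX P s)) p q ▸ hp.add hq
    | mul_X p x hp =>
      rw [map_mul]
      refine hp.mul (den_span hD (Set.finite_range fun x : ν × ν => tayX P s x.1 x.2) ?_
        (Submodule.subset_span ⟨x, by simp [evGM]⟩))
      rintro l _ ⟨y, rfl⟩
      have e : τm s (TM ℂ T) * MvPowerSeries.pderiv ℂ l (tayX P s y.1 y.2) =
          ∑ k, τm s (BM ℂ B l y.1 k) * tayX P s k y.2 := congrFun₂ (irr_ode ho hP hs l) y.1 y.2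
      rw [e]
      exact sum_mem fun k _ => Submodule.smul_mem _ (⟨_, τm_mem_SN s _ _⟩ : SN _)
        (Submodule.subset_span ⟨(k, y.2), rfl⟩)
  obtain ⟨F', hF⟩ : ∃ F' : MvPolynomial (ν × ν) (MvPolynomial σ ℂ), ∀ t, valM P F' t =
      MvPolynomial.eval (fun a => (P t).submatrix c c a.1 a.2) F :=
    ⟨MvPolynomial.map MvPolynomial.C (MvPolynomial.rename (fun a => (c a.1, c a.2)) F), fun t => by
      rw [valM, MvPolynomial.eval₂_map, MvPolynomial.eval₂_rename]
      exact congrArg (fun φ => MvPolynomial.eval₂ φ _ F) (RingHom.ext fun x =>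
        MvPolynomial.eval_C x)⟩
  have e0 : evGM s (tayX P s) (∑ j ∈ Finset.range (n + 1), MvPolynomial.C (p j) * F' ^ j) = 0 := by
    rw [← (irr_val (a s hs) _).2, tayM_eq_zero_iff (irr_val (a s hs) _).1]
    filter_upwards [h] with t ht
    rw [← hF] at ht
    simpa [valM, MvPolynomial.eval₂_sum] using ht
  obtain ⟨j, hj, p0⟩ := hp
  obtain ⟨x, hx, b, hb, b0, r⟩ := hN _ ⟨F', rfl⟩ _ ⟨1, rfl⟩ n (fun j => τm s (p j))
    (fun j => τm_mem_SN s _ _) (by simp) ⟨j, hj, fun e => p0 (den_tm e)⟩ (by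
      simpa [evGM] using e0)
  rw [map_one, mul_one] at r
  obtain ⟨b', hb', c0, hx'⟩ := (hG F').den hS (by rwa [τm_const, MvPolynomial.eval_map]) hD hb b0
    (r ▸ hx)
  obtain ⟨qb, rfl⟩ := (mem_SN s).1 hb'
  obtain ⟨qa, ea⟩ := (mem_SN s).1 hx'
  have au := uuN_an hP C1 hs
  rw [← tay_vlC au, constantCoeff_tayM (tay_vlN au qb).1] at c0
  rw [← tay_vlC au, ← tay_vlC au, ← (irr_val (a s hs) _).2,
    ← tayM_mul (tay_vlN au qb).1 (irr_val (a s hs) _).1] at ea
  have ev : ∀ᶠ t in 𝓝 s, vlN (uuN P C1) qa t = vlN (uuN P C1) qb t * valM P F' t :=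
    tayM_inj (tay_vlN au qa).1 ((tay_vlN au qb).1.fun_mul (irr_val (a s hs) F').1) ea
  obtain ⟨Ha, h1⟩ := den_lift (κ' := μ × μ) qa
  obtain ⟨Hb, h2⟩ := den_lift (κ' := μ × μ) qb
  have k : ∀ (t : σ → ℂ) (y : μ × μ → ℂ), MvPolynomial.eval (Sum.elim t (Sum.elim
      (fun a : ν × ν => (P t * C1) a.1 a.2) y))
        (Hb * MvPolynomial.rename (Sum.inr ∘ Sum.inr) F - Ha) =
      vlN (uuN P C1) qb t * MvPolynomial.eval y F - vlN (uuN P C1) qa t := fun t y => by
    rw [map_sub, map_mul, h1, h2, MvPolynomial.eval_rename]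
    rfl
  intro g hg
  have e1 := hg.2 (Hb * MvPolynomial.rename (Sum.inr ∘ Sum.inr) F - Ha) (ev.mono fun t ht => by
    rw [k, ht, hF]
    exact sub_self _)
  rw [k, ev.self_of_nhds, hF, sub_eq_zero] at e1
  exact mul_left_cancel₀ c0 e1

end

end Pool.Agent.Lib.MP_5591bc_ag.Rg
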