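import Pool.Agent.Lib.MP_5591bc_ag.Rg.Ord

/-! Moderate growth. -/

namespace Pool.Agent.Lib.MP_5591bc_ag.Rg

open Matrix Filter Topology Metric Polynomial G R W M A B

noncomputable section

variable {ν : Type*} [Fintype ν] [DecidableEq ν] {e : ℤ}

theorem gron_ne (e : ℤ) {f : ℂ[X]} (h : f ≠ 0) : ∀ᶠ u in Fe e, f.eval u ≠ 0 := by
  have : Fe e ≤ cofinite := by
    unfold Fe; split_ifs
    · exact nhdsNE_le_cofinite _
    · exact cocompact_le_cofinite
  exact this (eventually_cofinite_not_isRoot h)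

theorem gron_bd (he : e = 1 ∨ e = -1) {f g : ℂ[X]} {κ : ℚ} {k : ℕ} (h0 : Ord e f κ)
    (h1 : lc e f κ ≠ 0) (h2 : Ord e g (κ - e * k)) :
    ∃ c : ℝ, ∀ᶠ u in Fe e, f.eval u ≠ 0 ∧ ‖u ^ k * g.eval u‖ ≤ c * ‖f.eval u‖ := by
  obtain ⟨j, -, hj⟩ := Finset.exists_ne_zero_of_sum_ne_zero h1
  obtain ⟨rfl, c0⟩ : (e : ℚ) * j = κ ∧ f.coeff j ≠ 0 := by
    split_ifs at hj with c
    exacts [⟨c, hj⟩, absurd rfl hj]
  have f0 : f ≠ 0 := fun c => c0 (by simp [c])
  have hg : ∀ i : ℕ, (e : ℚ) * i < e * j → (X ^ k * g).coeff i = 0 := fun i hi => by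
    rw [coeff_X_pow_mul']
    split_ifs with c
    · exact h2 _ (by rw [Nat.cast_sub c]; linarith)
    · rfl
  suffices h : (fun u => (X ^ k * g).eval u) =O[Fe e] fun u => f.eval u by
    obtain ⟨c, hc⟩ := h.bound
    exact ⟨c, (gron_ne e f0).and (by simpa using hc)⟩
  rcases he with rfl | rfl
  · obtain ⟨f1, rfl⟩ : X ^ j ∣ f := X_pow_dvd_iff.2 fun d hd => h0 d (by simpa using hd)
    obtain ⟨g1, e1⟩ : X ^ j ∣ X ^ k * g := X_pow_dvd_iff.2 fun d hd => hg d (by simpa using hd)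
    have n0 : f1.eval 0 ≠ 0 := by
      rwa [coeff_X_pow_mul', if_pos le_rfl, Nat.sub_self, coeff_zero_eq_eval_zero] at c0
    have b1 : (fun u => g1.eval u) =O[𝓝 (0 : ℂ)] fun u => f1.eval u :=
      (g1.continuous.continuousAt.isBigO_one ℂ).trans
        (Asymptotics.isBigO_const_left_iff_pos_le_norm one_ne_zero |>.2 ⟨‖f1.eval 0‖ / 2,
          half_pos (norm_pos_iff.2 n0), f1.continuous.norm.continuousAt.eventually
            (le_mem_nhds (half_lt_self (norm_pos_iff.2 n0)))⟩)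
    rw [e1]
    simp only [eval_mul, Fe, if_true]
    exact ((Asymptotics.isBigO_refl _ _).mul b1).mono nhdsWithin_le_nhds
  · rw [show Fe (-1) = Bornology.cobounded ℂ by simp [Fe, cobounded_eq_cocompact]]
    refine isBigO_cobounded_of_degree_le (((degree_le_iff_coeff_zero _ _).2 fun m hm => hg m ?_).trans
      (le_degree_of_ne_zero c0))
    simpa using hm

/-- the scaled derivatives -/
def gronZ (t : ℂ[X]) (b : Matrix ν ν ℂ[X]) (x : ν) (i : ℕ) (w : ℂ) (y : ν → ℂ) : ℂ :=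
  (w / t.eval w) ^ i * ∑ z, (iterK t b i x z).eval w * y z

theorem gron_der {t : ℂ[X]} {b : Matrix ν ν ℂ[X]} (x : ν) (i : ℕ) {u τ : ℂ} {Y : ℂ → ν → ℂ}
    (h0 : t.eval (u * Complex.exp τ) ≠ 0) (h : HasDerivAt Y ((u * Complex.exp τ /
      t.eval (u * Complex.exp τ)) • (b.map (eval (u * Complex.exp τ)) *ᵥ Y τ)) τ) :
    HasDerivAt (fun ζ => gronZ t b x i (u * Complex.exp ζ) (Y ζ))
      (i * gronZ t b x i (u * Complex.exp τ) (Y τ) +
        gronZ t b x (i + 1) (u * Complex.exp τ) (Y τ)) τ := by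
  have dw := (Complex.hasDerivAt_exp τ).const_mul u
  have dp := fun p : ℂ[X] => (p.hasDerivAt (u * Complex.exp τ)).comp τ dw
  refine (((dw.fun_div (dp t) h0).fun_pow i).fun_mul (HasDerivAt.fun_sum (u := Finset.univ)
    fun z _ => (dp (iterK t b i x z)).fun_mul (hasDerivAt_pi.1 h z))).congr_deriv ?_
  simp only [Function.comp_def, gronZ]
  generalize u * Complex.exp τ = w at h0
  have e : ∑ z, (iterK t b (i + 1) x z).eval w * Y τ z =
      t.eval w * ∑ z, (derivative (iterK t b i x z)).eval w * Y τ z -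
        i * t.derivative.eval w * ∑ z, (iterK t b i x z).eval w * Y τ z +
        ∑ z, (iterK t b i x z).eval w * (b.map (eval w) *ᵥ Y τ) z := by
    simp only [iterK, Matrix.add_apply, Matrix.sub_apply, Matrix.smul_apply, Matrix.map_apply,
      Matrix.mul_apply, smul_eq_mul, eval_add, eval_sub, eval_mul, eval_natCast, eval_finsetSum,
      add_mul, sub_mul, Finset.sum_add_distrib, Finset.sum_sub_distrib, Finset.mul_sum,
      Finset.sum_mul, mulVec, dotProduct, mul_assoc]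
    congr 1
    exact Finset.sum_comm
  have e2 : ∑ z, ((derivative (iterK t b i x z)).eval w * w * Y τ z + (iterK t b i x z).eval w *
      ((w / t.eval w) • (b.map (eval w) *ᵥ Y τ)) z) =
      w * ∑ z, (derivative (iterK t b i x z)).eval w * Y τ z +
        w / t.eval w * ∑ z, (iterK t b i x z).eval w * (b.map (eval w) *ᵥ Y τ) z := by
    simp only [Finset.mul_sum, ← Finset.sum_add_distrib, Pi.smul_apply, smul_eq_mul]
    exact Finset.sum_congr rfl fun z _ => by ring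
  rw [e, e2]
  rcases i with _ | i
  · simp only [Nat.cast_zero, zero_mul, pow_zero, zero_add, pow_one]
    field_simp
    ring
  · simp only [Nat.add_sub_cancel, pow_succ]
    field_simp
    ring

theorem gron_top {t : ℂ[X]} {b : Matrix ν ν ℂ[X]} {x : ν} {n : ℕ} {a0 : ℂ[X]} {a : ℕ → ℂ[X]}
    (h : Rel t b x n a0 a) {w : ℂ} (h0 : t.eval w ≠ 0) (y : ν → ℂ) :
    a0.eval w * gronZ t b x n w y =
      ∑ i ∈ Finset.range n, w ^ (n - i) * (a i).eval w * gronZ t b x i w y := by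
  have e : ∀ z, a0.eval w * (iterK t b n x z).eval w = ∑ i ∈ Finset.range n,
      (a i).eval w * t.eval w ^ (n - i) * (iterK t b i x z).eval w := fun z => by
    simpa [eval_finsetSum] using congrArg (eval w) (congrFun h.eq z)
  have e2 : a0.eval w * ∑ z, (iterK t b n x z).eval w * y z = ∑ i ∈ Finset.range n,
      (a i).eval w * t.eval w ^ (n - i) * ∑ z, (iterK t b i x z).eval w * y z := by
    simp only [Finset.mul_sum, ← mul_assoc, e, Finset.sum_mul]
    exact Finset.sum_comm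
  rw [gronZ, mul_left_comm, e2, Finset.mul_sum]
  refine Finset.sum_congr rfl fun i hi => ?_
  obtain ⟨d, rfl⟩ := Nat.exists_eq_add_of_le (Finset.mem_range.1 hi).le
  rw [gronZ, Nat.add_sub_cancel_left, pow_add, div_pow _ _ d]
  field_simp

theorem gron_ode {n : ℕ} {Z : ℕ → ℂ → ℂ} {l C : ℝ} (hC : 0 ≤ C)
    (h1 : ∀ τ ∈ Set.uIcc (0 : ℝ) l, ∀ i, HasDerivAt (Z i) (i * Z i τ + Z (i + 1) τ) τ)
    (h2 : ∀ τ ∈ Set.uIcc (0 : ℝ) l, ‖Z n τ‖ ≤ ∑ i ∈ Finset.range n, C * ‖Z i τ‖) {δ : ℝ}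
    (hδ : 0 ≤ δ) (h3 : ∀ i < n, ‖Z i l‖ ≤ δ) {i : ℕ} (hi : i < n) :
    ‖Z i 0‖ ≤ δ * Real.exp ((n + 1 + n * C) * |l|) := by
  let φ : ℝ → Fin n → ℂ := fun σ i => Z i (l * (1 - σ) : ℝ)
  have m : ∀ σ ∈ Set.Icc (0 : ℝ) 1, l * (1 - σ) ∈ Set.uIcc (0 : ℝ) l := fun σ hσ => by
    rcases le_total 0 l with c | c
    · exact Set.mem_uIcc_of_le (by nlinarith [hσ.2]) (by nlinarith [hσ.1])
    · exact Set.mem_uIcc_of_ge (by nlinarith [hσ.1]) (by nlinarith [hσ.2])
  have d : ∀ σ ∈ Set.Icc (0 : ℝ) 1, HasDerivAt φ (fun i : Fin n => (-l : ℝ) •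
      ((i : ℕ) * Z i (l * (1 - σ) : ℝ) + Z (i + 1) (l * (1 - σ) : ℝ))) σ := fun σ hσ =>
    hasDerivAt_pi.2 fun i => by
      have := (h1 _ (m σ hσ) i).comp_ofReal.scomp σ
        (((hasDerivAt_id σ).const_sub 1).const_mul l)
      simpa only [mul_neg, mul_one] using! this
  have g := norm_le_gronwallBound_of_norm_deriv_right_le (K := (n + 1 + n * C) * |l|) (ε := 0)
    (δ := δ) (fun σ hσ => (d σ hσ).continuousAt.continuousWithinAt)
    (fun σ hσ => (d σ (Set.Ico_subset_Icc_self hσ)).hasDerivWithinAt)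
    ((pi_norm_le_iff_of_nonneg hδ).2 fun i => by simpa [φ] using h3 i i.2)
    (fun σ hσ => by
      have q : ∀ j < n, ‖Z j (l * (1 - σ) : ℝ)‖ ≤ ‖φ σ‖ := fun j hj => norm_le_pi_norm (φ σ) ⟨j, hj⟩
      have p0 := norm_nonneg (φ σ)
      rw [add_zero, pi_norm_le_iff_of_nonneg (by positivity)]
      intro j
      have q1 : ‖Z (j + 1) (l * (1 - σ) : ℝ)‖ ≤ (1 + n * C) * ‖φ σ‖ := by
        have : 0 ≤ n * C * ‖φ σ‖ := by positivity
        rcases (Nat.succ_le_of_lt j.2).eq_or_lt with c | c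
        · rw [show (j : ℕ) + 1 = n from c]
          refine (h2 _ (m σ (Set.Ico_subset_Icc_self hσ))).trans
            ((Finset.sum_le_card_nsmul _ _ (C * ‖φ σ‖) fun k hk =>
              mul_le_mul_of_nonneg_left (q k (Finset.mem_range.1 hk)) hC).trans ?_)
          rw [Finset.card_range, nsmul_eq_mul]
          linarith
        · linarith [q _ c]
      have q2 : ‖((j : ℕ) : ℂ) * Z j (l * (1 - σ) : ℝ)‖ ≤ n * ‖φ σ‖ := by
        rw [norm_mul, Complex.norm_natCast]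
        exact mul_le_mul (by exact_mod_cast j.2.le) (q j j.2) (norm_nonneg _) (Nat.cast_nonneg _)
      rw [norm_smul, Real.norm_eq_abs, abs_neg, mul_right_comm, mul_comm _ |l|]
      exact mul_le_mul_of_nonneg_left ((norm_add_le _ _).trans (by linarith)) (abs_nonneg l))
    1 (Set.right_mem_Icc.2 zero_le_one)
  rw [gronwallBound_ε0, sub_zero, mul_one] at g
  simpa [φ] using (norm_le_pi_norm (φ 1) ⟨i, hi⟩).trans g

/-- Gronwall for `z i = w ^ i / t w ^ i * (iterK t b i x) w ⬝ᵥ Y`, `i < n`, `w = u * exp τ` -/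
theorem gron (he : e = 1 ∨ e = -1) {t : ℂ[X]} (t0 : t ≠ 0) {b : Matrix ν ν ℂ[X]}
    (h : ∀ x, ∃ (n : ℕ) (a0 : ℂ[X]) (a : ℕ → ℂ[X]) (κ : ℚ), Rel t b x n a0 a ∧
      Ord e a0 κ ∧ lc e a0 κ ≠ 0 ∧ ∀ i < n, Ord e (a i) (κ - e * (n - i : ℚ))) : Mod e t b := by
  choose n a0 a κ hR o0 l0 oa using h
  have hb : ∀ x (i : Fin (n x)), ∃ c : ℝ, ∀ᶠ u in Fe e, (a0 x).eval u ≠ 0 ∧
      ‖u ^ (n x - i) * (a x i).eval u‖ ≤ c * ‖(a0 x).eval u‖ := fun x i =>
    gron_bd he (o0 x) (l0 x) (by rw [Nat.cast_sub i.2.le]; exact oa x i i.2)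
  choose c hc using hb
  obtain ⟨C, hC⟩ := (Set.finite_range fun p : Σ x, Fin (n x) => c p.1 p.2).bddAbove
  obtain ⟨N, hN⟩ := (Set.finite_range fun x => (⌈(n x + 1 + n x * |C| : ℝ)⌉₊)).bddAbove
  refine ⟨N, _, (gron_ne e t0).and (eventually_all.2 fun x => eventually_all.2 (hc x)),
    fun ρ _ hρ => ?_⟩
  obtain ⟨M, hM⟩ := (isCompact_sphere (0 : ℂ) ρ).exists_bound_of_continuousOn
    (f := fun w (p : Σ x, Fin (n x)) z => (w / t.eval w) ^ (p.2 : ℕ) * (iterK t b p.2 p.1 z).eval w)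
    (continuousOn_pi.2 fun p => continuousOn_pi.2 fun z =>
      ((continuousOn_id.div t.continuous.continuousOn fun w hw => (hρ hw).1).pow _).mul
        (Polynomial.continuous _).continuousOn)
  refine ⟨Fintype.card ν * |M|, fun u l Y h1 h2 => ?_⟩
  rw [pi_norm_le_iff_of_nonneg (by positivity)]
  intro x
  have key := gron_ode (n := n x) (Z := fun i ζ => gronZ t b x i (u * Complex.exp ζ) (Y ζ))
    (l := l) (abs_nonneg C) (fun τ hτ i => gron_der x i (h2 τ hτ).1.1 (h2 τ hτ).2)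
    (fun τ hτ => by
      have q := (h2 τ hτ).1.2 x
      refine le_of_mul_le_mul_left ?_ (norm_pos_iff.2 (q ⟨0, (hR x).n0⟩).1)
      rw [← norm_mul, gron_top (hR x) (h2 τ hτ).1.1, Finset.mul_sum]
      refine norm_sum_le_of_le _ fun i hi => ?_
      rw [norm_mul, ← mul_assoc, mul_comm _ |C|]
      exact mul_le_mul_of_nonneg_right ((q ⟨i, Finset.mem_range.1 hi⟩).2.trans
        (mul_le_mul_of_nonneg_right ((hC ⟨⟨x, ⟨i, Finset.mem_range.1 hi⟩⟩, rfl⟩).trans
          (le_abs_self C)) (norm_nonneg _))) (norm_nonneg _))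
    (δ := Fintype.card ν * |M| * ‖Y l‖) (by positivity) (fun i hi => by
      rw [gronZ, Finset.mul_sum, mul_assoc, ← nsmul_eq_mul, ← Finset.card_univ]
      refine (norm_sum_le _ _).trans (Finset.sum_le_card_nsmul _ _ _ fun z _ => ?_)
      rw [← mul_assoc, norm_mul]
      have q := (hM _ (mem_sphere_zero_iff_norm.2 h1)).trans (le_abs_self M)
      rw [pi_norm_le_iff_of_nonneg (abs_nonneg M)] at q
      exact mul_le_mul ((pi_norm_le_iff_of_nonneg (abs_nonneg M)).1 (q ⟨x, ⟨i, hi⟩⟩) z)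
        (norm_le_pi_norm _ z) (norm_nonneg _) (abs_nonneg M)) (hR x).n0
  have e0 : gronZ t b x 0 (u * Complex.exp 0) (Y 0) = Y 0 x := by
    simp [gronZ, iterK, one_apply, apply_ite (eval u)]
  rw [e0] at key
  refine key.trans (mul_le_mul_of_nonneg_left (Real.exp_le_exp.2 (mul_le_mul_of_nonneg_right
    ((Nat.le_ceil _).trans (by exact_mod_cast hN ⟨x, rfl⟩)) (abs_nonneg l))) (by positivity))

end

end Pool.Agent.Lib.MP_5591bc_ag.Rg
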