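import Pool.Agent.Lib.MP_5591bc_ag.Rg.Orb
import Pool.Agent.Lib.MP_5591bc_ag.B.Br

/-! The branches along a line. -/

namespace Pool.Agent.Lib.MP_5591bc_ag.Rg

open Matrix Filter Topology Metric G R W M A B E

noncomputable section

variable {σ K ν μ : Type} [Fintype σ] [DecidableEq σ] [Field K] [Algebra K ℂ] [Fintype ν]
  [DecidableEq ν] [Fintype μ] [DecidableEq μ] {T : MvPolynomial σ K}
  {B : σ → Matrix ν ν (MvPolynomial σ K)} {U V : Set (σ → ℂ)} {P Q : (σ → ℂ) → Matrix ν ν ℂ}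
  {C1 : Matrix ν ν ℂ} {c : μ → ν} {s v : σ → ℂ}

/-- an edited copy of `br_famX`; `he` passes to all branches by `rch_zero`, `SH = J⁻¹ * hH (-I)`,
`SH_conj` and `orb_fin` give finitely many vectors `rW γ e` -/
theorem lb_ex (hc : Function.Injective c) {J : Matrix μ μ ℝ} {j r : ℕ} {w : μ → ℕ}
    (h : VHS T U P C1 c J j w r) (k : ContM U P V Q) (oV : IsOpen V) (cV : IsPreconnected V)
    (hQ : FundM T B V Q) (hV : s ∈ V) (hT : MvPolynomial.aeval s T ≠ 0) (v : σ → ℂ) {r' δ : ℕ}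
    (e : (Fin r' → Mo δ μ) → ℚ) (he : ∀ᶠ u in 𝓝 (0 : ℂ),
      (rW r' δ (hH J j w (-Complex.I) ((Q (s + u • v)).submatrix c c)) *ᵥ fun a => (e a : ℝ)) =
        rW r' δ (hH J j w (-Complex.I) ((Q s).submatrix c c)) *ᵥ fun a => (e a : ℝ)) :
    ∃ (Z : Finset ℂ) (ρ : ℝ), 0 < ρ ∧
      LB T B s v Z (ball 0 ρ, fun u => s + u • v, fun u => Q (s + u • v))
        {g | g.det ≠ 0 ∧ ∃ γ : Matrix μ μ ℚ, g * bm c = bm c * qc γ ∧ rW r' δ γ *ᵥ e = e} := by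
  obtain ⟨y, ey⟩ : ∃ y : ℂ → σ → ℂ, y = fun u => s + u • v := ⟨_, rfl⟩
  have y0 : y 0 = s := by simp [ey]
  have yu : ∀ u, s + u • v = y u := fun u => by rw [ey]
  have hy' : ∀ u, AnalyticAt ℂ y u := fun u => by
    rw [ey]
    exact analyticAt_const.add (analyticAt_id.smul analyticAt_const)
  have hy := hy' 0
  simp only [yu] at he ⊢
  rw [← y0] at hV hT he
  obtain ⟨Z, g, p, hA, hon⟩ := alg_arc T hy (fun l => ⟨MvPolynomial.X 1 - MvPolynomial.C (s l) -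
    MvPolynomial.C (v l) * MvPolynomial.X 0, fun k => by
      simpa using congrArg (MvPolynomial.eval ![0, s l + 1]) k, .of_forall fun u => by
        simp [ey, mul_comm]⟩) hT
  have loc : Loc T B := loc_fund oV ⟨_, hV⟩ hQ fun e => hT (by rw [e, map_zero])
  have hTn : ∀ᶠ u in 𝓝 (0 : ℂ), MvPolynomial.aeval (y u) T ≠ 0 :=
    (AnalyticAt.aeval_mvPolynomial (f := y) (fun l => analyticAt_pi_iff.1 hy l)
      T).continuousAt.eventually_ne hT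
  obtain ⟨ρ, ρ0, hρ⟩ := Metric.eventually_nhds_iff_ball.1 (hy.eventually_analyticAt.and
    ((hy.continuousAt.eventually (oV.mem_nhds hV)).and hTn))
  obtain ⟨a, ea⟩ : ∃ a : Bc σ ν, a = (ball 0 ρ, y, fun u => Q (y u)) := ⟨_, rfl⟩
  have a1 : a.2.1 = y := by rw [ea]
  have a2 : ∀ u, a.2.2 u = Q (y u) := fun u => by rw [ea]
  have a0 : (0 : ℂ) ∈ a.1 := by rw [ea]; exact mem_ball_self ρ0
  have ha : IsBr T B a := by
    rw [ea]
    exact ⟨isOpen_ball, (convex_ball _ _).isPreconnected, fun u hu => (hρ u hu).1, fun u hu =>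
      ⟨(hρ u hu).2.2, V, Q, oV, cV, hQ, (hρ u hu).2.1, .of_forall fun _ => rfl⟩⟩
  have hb : ∀ b, Rch T B a b → ∀ u ∈ b.1, OnC T g p u (b.2.1 u) := fun b h =>
    rch_on ha a0 (by rw [a1]; exact hon) h
  have hv := fun b (hb : Rch T B a b) =>
    rch_vh h ha a0 k oV hQ (by rw [a1]; exact hV) (by rw [a1, a2]) hb
  have hv' : ∀ b, Rch T B a b → ∀ u ∈ b.1, ∀ᶠ v in 𝓝 u,
      VH J j w (fun v => (b.2.2 v).submatrix c c) v := fun b hb u hu =>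
    Filter.mem_of_superset ((hb.br ha).1.mem_nhds hu) (hv b hb)
  have i1 := invertibleOfIsUnitDet _ (hQ _ hV).1.isUnit
  have hg : ∀ t, Rch T B a (mulB a t) → t.det ≠ 0 ∧ ∃ V' Q', ContM U P V' Q' ∧ y 0 ∈ V' ∧
      ∀ᶠ x in 𝓝 (y 0), Q' x = Q x * t := fun t ht => by
    simpa only [a1] using rch_germ ha a0 k oV hQ (by rw [a1]; exact hV) (by rw [a1, a2]) ht
  have gm : ∀ t t', Rch T B a (mulB a t) → Rch T B a (mulB a t') →
      Rch T B a (mulB a (t * t')) := fun t t' ht ht' => by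
    rw [← brd_mm]
    exact Relation.ReflTransGen.trans ht' (Rch.mul ht (hg _ ht').1)
  have gi : ∀ t, Rch T B a (mulB a t) → Rch T B a (mulB a t⁻¹) := fun t ht => by
    have d3 := mul_nonsing_inv t (hg _ ht).1.isUnit
    have := Rch.mul ht (g := t⁻¹) (det_ne_zero_of_left_inverse d3)
    rw [brd_mm, d3, brd_m1] at this
    exact this.symm
  have bi : ∀ {A A' : Matrix μ μ ℚ}, bm c * qc A = bm c * qc A' → A = A' := fun e => by
    have := congrArg ((bm c)ᵀ * ·) e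
    simp only [← Matrix.mul_assoc, bm_t hc, Matrix.one_mul] at this
    exact Matrix.map_injective Rat.cast_injective this
  have hz : ∀ t, Rch T B a (mulB a t) → t * C1 = C1 → ∃ γ : Matrix μ μ ℤ,
      qr (γ.map Int.cast) * J * (qr (γ.map Int.cast))ᵀ = J ∧
        t * bm c = bm c * qc (γ.map Int.cast) := fun t ht e => by
    obtain ⟨-, V', Q', h1, h2, h3⟩ := hg t ht
    obtain ⟨γ, h4, h5⟩ := h.2.2.2 V Q V' Q' k h1 _ hV h2
      (h3.mono fun x hx => by rw [hx, Matrix.mul_assoc, e])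
    have c1 : qr (γ.map Int.cast) = γ.map Int.cast := by
      ext i j
      simp
    have c2 : qc (γ.map Int.cast) = γ.map Int.cast := by
      ext i j
      simp
    refine ⟨γ, by rw [c1, h4], (Matrix.mul_right_inj_of_invertible (Q (y 0))).1 ?_⟩
    rw [c2, ← Matrix.mul_assoc, ← h3.self_of_nhds, ← Matrix.mul_assoc, mul_bm, mul_bm]
    exact h5.self_of_nhds
  have hf : ((· * C1) '' {t | Rch T B a (mulB a t)}).Finite := by
    by_contra hi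
    let f := Set.Infinite.natEmbedding _ hi
    choose t ht et using fun i : Fin (r + 1) => (f i).2
    choose V' Q' h1 h2 h3 using fun i => (hg _ (ht i)).2
    obtain ⟨i, i', n, e⟩ := h.2.2.1 (y 0) V' Q' fun i => ⟨h1 i, h2 i⟩
    have e1 := e.self_of_nhds
    rw [(h3 i).self_of_nhds, (h3 i').self_of_nhds, Matrix.mul_assoc, Matrix.mul_assoc,
      Matrix.mul_right_inj_of_invertible] at e1
    exact n (Fin.ext (f.injective (Subtype.ext ((et i).symm.trans (e1.symm.trans (et i'))))))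
  obtain ⟨𝒯, t1, t2, t3⟩ := Set.exists_subset_image_finite_and.1
    (⟨_, subset_rfl, hf, rfl⟩ : ∃ t ⊆ (· * C1) '' {t | Rch T B a (mulB a t)}, t.Finite ∧
      t = (· * C1) '' {t | Rch T B a (mulB a t)})
  obtain ⟨Γ, eΓ⟩ : ∃ Γ : Set (Matrix μ μ ℚ), Γ =
    {γ | ∃ t, Rch T B a (mulB a t) ∧ t * C1 = C1 ∧ t * bm c = bm c * qc γ} := ⟨_, rfl⟩
  have hΓ : Grp Γ := by
    rw [eΓ]
    refine ⟨⟨1, ?_, Matrix.one_mul _, ?_⟩, ?_, ?_, 1, one_pos, ?_⟩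
    · rw [brd_m1]
      exact .refl
    · rw [brd_one, Matrix.one_mul, Matrix.mul_one]
    · rintro γ ⟨t, h1, h2, h3⟩ γ' ⟨t', k1, k2, k3⟩
      exact ⟨t * t', gm _ _ h1 k1, by rw [Matrix.mul_assoc, k2, h2], by
        rw [Matrix.mul_assoc, k3, ← Matrix.mul_assoc, h3, brd_mul, Matrix.mul_assoc]⟩
    · rintro γ ⟨t, h1, h2, h3⟩
      have d := (hg _ h1).1.isUnit
      have e : t⁻¹ * C1 = C1 := by
        conv_lhs => rw [← h2, nonsing_inv_mul_cancel_left _ _ d]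
      obtain ⟨γ', -, k2⟩ := hz _ (gi _ h1) e
      refine ⟨_, ⟨_, gi _ h1, e, k2⟩, bi ?_⟩
      rw [brd_mul, ← Matrix.mul_assoc, ← h3, Matrix.mul_assoc, ← k2,
        mul_nonsing_inv_cancel_left _ _ d, brd_one, Matrix.mul_one]
    · rintro γ ⟨t, h1, h2, h3⟩ i i'
      obtain ⟨γ', -, k2⟩ := hz _ h1 h2
      exact ⟨γ' i i', by rw [bi (h3.symm.trans k2), Nat.cast_one, one_mul]; rfl⟩
  obtain ⟨m, d, hr⟩ := rep_rW (ν := μ) r' δ
  have ln : ∀ b, Rch T B a b → ∀ u ∈ b.1, b.2.1 u = y u := fun b hb u hu =>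
    sub_eq_zero.1 (bra_zero (w := fun u x _ => x - y u) ha (fun b' hb' x hx =>
      (((hb'.br ha).2.2.1 x hx).sub (hy' x)).restrictScalars) a0
      (.of_forall fun x => by rw [a1, sub_self]) hb u hu)
  have he' : ∀ b, Rch T B a b → ∀ u ∈ b.1,
      (rW r' δ (hH J j w (-Complex.I) ((b.2.2 u).submatrix c c)) *ᵥ fun a => (e a : ℝ)) =
        rW r' δ (hH J j w (-Complex.I) ((Q (y 0)).submatrix c c)) *ᵥ fun a => (e a : ℝ) := by
    intro b hb u hu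
    refine sub_eq_zero.1 (bra_zero (w := fun _ _ Y =>
      (rW r' δ (hH J j w (-Complex.I) (Y.submatrix c c)) *ᵥ fun a => (e a : ℝ)) -
        rW r' δ (hH J j w (-Complex.I) ((Q (y 0)).submatrix c c)) *ᵥ fun a => (e a : ℝ)) ha
      (fun b' hb' x hx => AnalyticAt.sub (analyticAt_pi_iff.2 fun i => ?_) analyticAt_const) a0
      (he.mono fun x hx => by rw [a2, hx, sub_self]) hb u hu)
    simp only [mulVec, dotProduct]
    exact Finset.analyticAt_fun_sum _ fun l _ =>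
      (hr.an _ x (vh_hh (hv' b' hb' x hx) (neg_ne_zero.2 Complex.I_ne_zero)).1 i l).mul
        analyticAt_const
  have of : {x | ∃ γ ∈ Γ, x = rW r' δ γ *ᵥ e}.Finite := by
    refine orb_fin hΓ e (S := SH J j w ((a.2.2 0).submatrix c c)) (vh_hd (hv' a .refl 0 a0)).pd
      (κ := (fun a => (e a : ℝ)) ⬝ᵥ rW r' δ J⁻¹ *ᵥ
        (rW r' δ (hH J j w (-Complex.I) ((Q (y 0)).submatrix c c)) *ᵥ fun a => (e a : ℝ)))
      fun γ hγ => ?_
    rw [eΓ] at hγ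
    obtain ⟨t, h1, h2, h3⟩ := hγ
    obtain ⟨γ', k1, k2⟩ := hz _ h1 h2
    rw [← bi (h3.symm.trans k2)] at k1
    rw [← SH_conj (hv a .refl 0 a0).hs k1, brd_cq, ← blk_mul h3, SH, rW_mul, ← mulVec_mulVec,
      ← he' _ h1 0 a0]
    rfl
  have ex : ∀ x : (Fin r' → Mo δ μ) → ℚ, ∃ t : Matrix ν ν ℂ × Matrix μ μ ℚ,
      (∃ γ ∈ Γ, x = rW r' δ γ *ᵥ e) → Rch T B a (mulB a t.1) ∧ t.1 * bm c = bm c * qc t.2 ∧
        t.2 ∈ Γ ∧ x = rW r' δ t.2 *ᵥ e := fun x => by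
    by_cases k : ∃ γ ∈ Γ, x = rW r' δ γ *ᵥ e
    · obtain ⟨γ, k1, k2⟩ := k
      obtain ⟨t, h1, -, h3⟩ := eΓ ▸ k1
      exact ⟨(t, γ), fun _ => ⟨h1, h3, k1, k2⟩⟩
    · exact ⟨(1, 1), fun k' => absurd k' k⟩
  choose θ hθ using ex
  refine ⟨Z, ρ, ρ0, ?_⟩
  rw [← ea]
  refine ⟨ha, fun b hb u hu => (ln b hb u hu).trans (yu u).symm, fun g hg => hg.1,
    fun x hx => ?_, ?_⟩
  · obtain ⟨R, R0, hR⟩ := Metric.isOpen_iff.1 Z.finite_toSet.isClosed.isOpen_compl x hx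
    have hR' : ∀ u ∈ ball x R, u ∉ Z := fun u hu => hR hu
    obtain ⟨b₀, h₀, x₀⟩ := br_all loc hA ha ⟨0, a0⟩ (hb a .refl) x hx
    obtain ⟨β, n0, n2, -⟩ := br_disc loc hA (h₀.br ha) (hb b₀ h₀) hR' (mem_ball_self R0) x₀
    have n1 : Rch T B a β := Relation.ReflTransGen.trans h₀ n0
    refine ⟨R, R0, Set.image2 (fun τ x => mulB β (τ * (θ x).1)) 𝒯
      {x | ∃ γ ∈ Γ, x = rW r' δ γ *ᵥ e}, t2.image2 _ of, ?_, fun b h u h1 h2 => ?_⟩
    · rintro _ ⟨τ, m, z, m', rfl⟩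
      have k := gm _ _ (t1 m) (hθ z m').1
      exact ⟨Relation.ReflTransGen.trans k (n1.mul (hg _ k).1), n2⟩
    obtain ⟨b', k1, k2, -, k4⟩ := br_disc loc hA (h.br ha) (hb b h) hR' h2 h1
    have k5 : Rch T B a b' := Relation.ReflTransGen.trans h k1
    have n4 : ∀ v ∈ β.1, β.2.1 v = b'.2.1 v := fun v hv => by
      rw [ln β n1 v hv, ln b' k5 v (k2 ▸ n2 ▸ hv)]
    obtain ⟨t, t0, ht⟩ := br_uniq (n1.br ha) (k5.br ha) (n2.trans k2.symm) n4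
    have m3 : Rch T B a (mulB a t) := by
      refine Relation.ReflTransGen.trans k5 (Rch.symm ((n1.mul t0).tail
        ⟨(n1.br ha).mul t0, k5.br ha, u, n2 ▸ h2, k2 ▸ h2, ?_⟩))
      filter_upwards [(n1.br ha).1.mem_nhds (n2 ▸ h2)] with v hv
      exact ⟨n4 v hv, (ht v hv).symm⟩
    obtain ⟨τ, m5, m6⟩ := t3.ge ⟨t, m3, rfl⟩
    have d := (hg _ (t1 m5)).1.isUnit
    have e1 : τ⁻¹ * t * C1 = C1 := by
      rw [Matrix.mul_assoc, show t * C1 = τ * C1 from m6.symm, nonsing_inv_mul_cancel_left _ _ d]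
    have m7 := gm _ _ (gi _ (t1 m5)) m3
    obtain ⟨γ, -, k6⟩ := hz _ m7 e1
    have m8 : ∃ γ' ∈ Γ, rW r' δ (γ.map Int.cast) *ᵥ e = rW r' δ γ' *ᵥ e :=
      ⟨_, eΓ ▸ ⟨_, m7, e1, k6⟩, rfl⟩
    obtain ⟨q1, q2, q3, q4⟩ := hθ _ m8
    refine ⟨mulB β (τ * (θ (rW r' δ (γ.map Int.cast) *ᵥ e)).1), ⟨τ, m5, _, m8, rfl⟩, ?_⟩
    generalize (θ (rW r' δ (γ.map Int.cast) *ᵥ e)) = ϑ at q1 q2 q3 q4 ⊢
    obtain ⟨ι, -, hι⟩ := hΓ.inv _ q3
    have d' := (hg _ q1).1.isUnit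
    have q5 : ϑ.1⁻¹ * bm c = bm c * qc ι := by
      conv_rhs => rw [← nonsing_inv_mul_cancel_left _ (bm c * qc ι) d', ← Matrix.mul_assoc ϑ.1, q2,
        Matrix.mul_assoc, ← brd_mul, hι, brd_one, Matrix.mul_one]
    refine ⟨ϑ.1⁻¹ * (τ⁻¹ * t), ⟨(hg _ (gm _ _ (gi _ q1) m7)).1, ι * γ.map Int.cast, by
      rw [Matrix.mul_assoc, k6, ← Matrix.mul_assoc, q5, brd_mul, Matrix.mul_assoc], by
      rw [rW_mul, ← mulVec_mulVec, q4, mulVec_mulVec, ← rW_mul, mul_eq_one_comm.1 hι, rW_one,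
        one_mulVec]⟩, ?_⟩
    obtain ⟨z0, V₁, Q₁, o₁, -, f₁, m₁, e₁⟩ := (h.br ha).2.2.2 u h1
    obtain ⟨-, V₂, Q₂, o₂, -, f₂, m₂, e₂⟩ := (k5.br ha).2.2.2 u (k2 ▸ h2)
    have l1 : b'.2.1 u = b.2.1 u := by rw [ln b h u h1, ln b' k5 u (k2 ▸ h2)]
    rw [l1] at m₂
    have l2 : Q₁ (b.2.1 u) = Q₂ (b.2.1 u) := by
      rw [← e₁.self_of_nhds, ← k4, e₂.self_of_nhds, l1]
    filter_upwards [e₁, e₂, (h.br ha).1.mem_nhds h1, isOpen_ball.mem_nhds h2,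
      ((h.br ha).2.2.1 u h1).continuousAt.eventually (fund_uniq o₁ o₂ f₁ f₂ m₁ m₂ z0)]
      with x x1 x2 x3 x4 x5
    simp only [mulB]
    rw [x1, x5, l2, nonsing_inv_mul _ (f₂ _ m₂).1.isUnit, Matrix.mul_one, ln b h x x3,
      ← ln b' k5 x (k2 ▸ x4), ← x2, ht x (n2 ▸ x4), Matrix.mul_assoc, Matrix.mul_assoc,
      mul_nonsing_inv_cancel_left _ _ d', mul_nonsing_inv_cancel_left _ _ d]
  · intro b h u hu p R R0 hs hR
    have e0 : p + (u - p) * Complex.exp 0 = u := by simp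
    obtain ⟨y', Y, -, -, h3, h4⟩ := br_ext loc hA (h.br ha) (hb b h)
      (φ := fun ζ => p + (u - p) * Complex.exp ζ) (R := R) (fun ζ _ => by fun_prop)
      (fun ζ hζ => ⟨by
        rw [(((Complex.hasDerivAt_exp ζ).const_mul (u - p)).const_add p).deriv]
        exact mul_ne_zero (sub_ne_zero.2 hs) (Complex.exp_ne_zero ζ), hR ζ hζ⟩)
      (mem_ball_self R0) (e0.symm ▸ hu)
    refine ⟨Y, by simp only [h3.self_of_nhds.2, e0], fun ζ hζ => ?_⟩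
    obtain ⟨b', k1, k2, k3⟩ := h4 ζ hζ
    exact ⟨b', Relation.ReflTransGen.trans h k1, k2, k3.mono fun _ k => k.2⟩

end

end Pool.Agent.Lib.MP_5591bc_ag.Rg
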