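import Pool.Agent.Lib.MP_5591bc_ag.Rg.GalL
import Pool.Agent.Lib.MP_5591bc_ag.A.BrA

/-! Growth of the invariant polynomials. -/

namespace Pool.Agent.Lib.MP_5591bc_ag.Rg

open Matrix Filter Topology Metric G R W M A B E

noncomputable section

variable {σ K ν μ : Type} [Fintype σ] [DecidableEq σ] [Field K] [Algebra K ℂ] [Fintype ν]
  [DecidableEq ν] [Fintype μ] [DecidableEq μ] {T : MvPolynomial σ K}
  {B : σ → Matrix ν ν (MvPolynomial σ K)} {U V : Set (σ → ℂ)} {P Q : (σ → ℂ) → Matrix ν ν ℂ}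
  {C1 : Matrix ν ν ℂ} {c : μ → ν} {s v : σ → ℂ}

/-- a compact set off `Z`: up to a factor in `𝒢` the branches are bounded -/
theorem lb_bd {Z : Finset ℂ} {a : Bc σ ν} {𝒢 : Set (Matrix ν ν ℂ)} (h : LB T B s v Z a 𝒢)
    {D : Set ℂ} (hD : IsCompact D) (hZ : ∀ u ∈ D, u ∉ Z) : ∃ M : ℝ, ∀ b, Rch T B a b →
      ∀ u ∈ b.1, u ∈ D → ∃ g ∈ 𝒢, ∀ i k, ‖(b.2.2 u * g⁻¹) i k‖ ≤ M := by
  refine hD.induction_on (p := fun D => ∃ M : ℝ, ∀ b, Rch T B a b →
      ∀ u ∈ b.1, u ∈ D → ∃ g ∈ 𝒢, ∀ i k, ‖(b.2.2 u * g⁻¹) i k‖ ≤ M) ⟨0, fun _ _ _ _ k => k.elim⟩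
    (fun _ _ k ⟨M, hM⟩ => ⟨M, fun b hb u hu m => hM b hb u hu (k m)⟩)
    (fun _ _ ⟨M, hM⟩ ⟨M', hM'⟩ => ⟨max M M', fun b hb u hu m => m.elim
      (fun m => (hM b hb u hu m).imp fun g k => ⟨k.1, fun i j => (k.2 i j).trans (le_max_left _ _)⟩)
      fun m => (hM' b hb u hu m).imp fun g k =>
        ⟨k.1, fun i j => (k.2 i j).trans (le_max_right _ _)⟩⟩) fun x hx => ?_
  obtain ⟨ρ, ρ0, 𝒥, f, h1, h2⟩ := h.fin x (hZ x hx)
  have : ∀ b ∈ 𝒥, ∀ i k, ∃ M : ℝ, ∀ᶠ u in 𝓝 x, ‖b.2.2 u i k‖ ≤ M := fun b hb i k =>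
    ((((h1 b hb).1.br h.br).an i k x ((h1 b hb).2 ▸ mem_ball_self ρ0)).continuousAt.norm.tendsto
      |>.isBoundedUnder_le)
  choose! M hM using this
  obtain ⟨M0, h0⟩ := ((f.prod (Set.finite_univ (α := ν × ν))).image
    fun q => M q.1 q.2.1 q.2.2).bddAbove
  have e : ∀ᶠ u in 𝓝 x, ∀ b ∈ 𝒥, ∀ i k, ‖b.2.2 u i k‖ ≤ M b i k :=
    (eventually_all_finite f).2 fun b hb => eventually_all.2 fun i => eventually_all.2 (hM b hb i)
  refine ⟨_, mem_nhdsWithin_of_mem_nhds (e.and (ball_mem_nhds x ρ0)), M0, fun b hb u hu m => ?_⟩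
  obtain ⟨b', hb', g, hg, k⟩ := h2 b hb u hu m.2
  refine ⟨g, hg, fun i j => ?_⟩
  rw [k.self_of_nhds, mul_nonsing_inv_cancel_right _ _ (h.inv g hg).isUnit]
  exact (m.1 b' hb' i j).trans (h0 ⟨(b', i, j), ⟨hb', trivial⟩, rfl⟩)

/-- the columns of a branch solve the system of the line -/
theorem lb_der {b : Bc σ ν} (hb : IsBr T B b) (hl : ∀ u ∈ b.1, b.2.1 u = s + u • v) {p y : ℂ}
    (hw : p + y ∈ b.1) (k : ν) : HasDerivAt (fun u i => b.2.2 u i k)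
      ((1 / (ln (s + p • v) v T).eval y) • ((lB (s + p • v) v B).map (Polynomial.eval y) *ᵥ
        fun i => b.2.2 (p + y) i k)) (p + y) := by
  obtain ⟨t0, V, Q, -, -, f, m, e⟩ := hb.2.2.2 _ hw
  rw [hl _ hw] at t0 m
  have e' : ∀ᶠ u in 𝓝 (p + y), b.2.2 u = Q (s + u • v) := by
    filter_upwards [e, hb.1.mem_nhds hw] with u h1 h2
    rw [h1, hl u h2]
  refine hasDerivAt_pi.2 fun i => ?_
  have d := ((f _ m).2 i k).1.differentiableAt.hasFDerivAt.comp_hasDerivAt (p + y)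
    (((hasDerivAt_id (p + y)).smul_const v).const_add s)
  refine (d.congr_of_eventuallyEq (e'.mono fun u hu => by simp [hu])).congr_deriv ?_
  have e1 : s + p • v + y • v = s + (p + y) • v := by rw [add_smul, add_assoc]
  refine mul_left_cancel₀ t0 ?_
  rw [one_smul, Pi.smul_apply, smul_eq_mul, ln_eval, e1, one_div, mul_inv_cancel_left₀ t0,
    e'.self_of_nhds]
  have e2 : ∀ L : (σ → ℂ) →L[ℂ] ℂ, L v = ∑ l, v l * L (Pi.single l 1) := fun L => by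
    conv_lhs => rw [pi_eq_sum_univ' v]
    simp
  rw [e2, Finset.mul_sum]
  simp only [mul_left_comm _ (v _), ((f _ m).2 i k).2, lB, mulVec, dotProduct, map_apply,
    Matrix.sum_apply, Matrix.smul_apply, smul_eq_mul, Polynomial.eval_finsetSum,
    Polynomial.eval_mul, Polynomial.eval_C, ln_eval, e1, Finset.sum_mul, Finset.mul_sum, mul_assoc]
  exact Finset.sum_comm

theorem lb_fe {e : ℤ} (he : e = 1 ∨ e = -1) :
    (∀ O ∈ Fe e, ∃ a : ℝ, ∀ x : ℂ, x ≠ 0 → e * Real.log ‖x‖ < e * a → x ∈ O) ∧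
      Tendsto (fun x : ℂ => -(e * Real.log ‖x‖)) (Fe e) atTop ∧ ∀ᶠ x in Fe e, x ≠ 0 := by
  rcases he with rfl | rfl
  · rw [show Fe 1 = 𝓝[≠] 0 from if_pos rfl]
    refine ⟨fun O hO => ?_, ?_, self_mem_nhdsWithin⟩
    · obtain ⟨r, r0, hr⟩ := Metric.mem_nhdsWithin_iff.1 hO
      refine ⟨Real.log r, fun x hx k => hr ⟨?_, hx⟩⟩
      rwa [Int.cast_one, one_mul, one_mul, Real.log_lt_log_iff (norm_pos_iff.2 hx) r0,
        ← mem_ball_zero_iff] at k
    · simpa [Function.comp_def] using tendsto_neg_atBot_atTop.comp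
        (Real.tendsto_log_nhdsGT_zero.comp (tendsto_norm_sub_self_nhdsNE (0 : ℂ)))
  · rw [show Fe (-1) = cocompact ℂ from if_neg (by norm_num)]
    refine ⟨fun O hO => ?_, ?_, (isCompact_singleton (x := (0 : ℂ))).compl_mem_cocompact⟩
    · obtain ⟨D, hD, hr⟩ := mem_cocompact.1 hO
      obtain ⟨r, r0, k1⟩ := hD.isBounded.exists_pos_norm_le
      refine ⟨Real.log r, fun x hx k => hr fun m => ?_⟩
      have := Real.log_le_log (norm_pos_iff.2 hx) (k1 x m)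
      push_cast at k
      linarith
    · simpa [Function.comp_def] using Real.tendsto_log_atTop.comp
        (tendsto_norm_cocompact_atTop (E := ℂ))

theorem lb_pol {κ : Type} (F : MvPolynomial κ ℂ) : ∃ n : ℕ, ∀ᶠ X : ℝ in atTop, ∀ z : κ → ℂ,
    (∀ a, ‖z a‖ ≤ X) → ‖MvPolynomial.eval z F‖ ≤ X ^ n := by
  induction F using MvPolynomial.induction_on with
  | C c => exact ⟨1, (eventually_ge_atTop ‖c‖).mono fun X hX z _ => by simpa using hX⟩
  | add p q hp hq =>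
    obtain ⟨n, hn⟩ := hp
    obtain ⟨m, hm⟩ := hq
    refine ⟨n + m + 1, ?_⟩
    filter_upwards [hn, hm, eventually_ge_atTop 2] with X h1 h2 h3 z hz
    have k1 : X ^ n ≤ X ^ (n + m) := pow_le_pow_right₀ (by linarith) (by omega)
    have k2 : X ^ m ≤ X ^ (n + m) := pow_le_pow_right₀ (by linarith) (by omega)
    have k3 : 0 ≤ X ^ (n + m) := by positivity
    rw [map_add, pow_succ]
    refine (norm_add_le _ _).trans ?_
    nlinarith [h1 z hz, h2 z hz]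
  | mul_X p a hp =>
    obtain ⟨n, hn⟩ := hp
    refine ⟨n + 1, ?_⟩
    filter_upwards [hn, eventually_ge_atTop 0] with X h1 h3 z hz
    rw [map_mul, MvPolynomial.eval_X, norm_mul, pow_succ]
    exact mul_le_mul (h1 z hz) (hz a) (norm_nonneg _) (by positivity)

/-- growth of the branches, up to a factor in `𝒢` -/
theorem lb_ray {Z : Finset ℂ} {a : Bc σ ν} {𝒢 : Set (Matrix ν ν ℂ)} (h : LB T B s v Z a 𝒢)
    {e : ℤ} (he : e = 1 ∨ e = -1) {p : ℂ} (h1 : Mod e (ln (s + p • v) v T) (lB (s + p • v) v B))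
    (hZ : ∀ᶠ x in Fe e, p + x ∉ Z) : ∃ N : ℕ, ∀ᶠ x in Fe e, ∀ b, Rch T B a b → p + x ∈ b.1 →
      ∃ g ∈ 𝒢, ∀ i k, ‖(b.2.2 (p + x) * g⁻¹) i k‖ ≤ Real.exp (-(e * Real.log ‖x‖)) ^ (N + 1) := by
  obtain ⟨f1, f2, f3⟩ := lb_fe he
  obtain ⟨N, O, hO, hM⟩ := h1
  obtain ⟨α, hα⟩ := f1 _ (inter_mem hO hZ)
  have e2 : (e : ℝ) * e = 1 := by rcases he with rfl | rfl <;> norm_num
  have e1 : |(e : ℝ)| = 1 := by rcases he with rfl | rfl <;> norm_num
  have hS : ∀ x : ℂ, ‖x‖ = Real.exp (α - e) → x ∈ O ∧ p + x ∉ Z := fun x hx => hα x (fun k => by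
    rw [k, norm_zero] at hx
    exact (Real.exp_pos _).ne hx) (by rw [hx, Real.log_exp]; linarith)
  obtain ⟨M, hM⟩ := hM _ (Real.exp_pos (α - e)) fun x hx => (hS x (mem_sphere_zero_iff_norm.1 hx)).1
  obtain ⟨M', hM'⟩ := lb_bd h (isCompact_sphere p (Real.exp (α - e))) fun u hu => by
    simpa using (hS (u - p) (mem_sphere_iff_norm.1 hu)).2
  refine ⟨N, ?_⟩
  filter_upwards [f3, f2.eventually_ge_atTop (1 - e * α), (Real.tendsto_exp_atTop.comp
    f2).eventually_ge_atTop (|M| * |M'| * Real.exp (N * (e * α - 1)))] with x x0 k1 k2 b hb hx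
  have hn : ∀ ζ : ℂ, ‖x * Complex.exp ζ‖ = Real.exp (Real.log ‖x‖ + ζ.re) := fun ζ => by
    rw [norm_mul, Complex.norm_exp, Real.exp_add, Real.exp_log (norm_pos_iff.2 x0)]
  have hB : ∀ ζ ∈ ball (0 : ℂ) (e * α - e * Real.log ‖x‖),
      x * Complex.exp ζ ∈ O ∧ p + x * Complex.exp ζ ∉ Z := fun ζ hζ =>
    hα _ (mul_ne_zero x0 (Complex.exp_ne_zero ζ)) (by
      have k1 := (Complex.abs_re_le_norm ζ).trans_lt (mem_ball_zero_iff.1 hζ)
      have k2 : e * ζ.re ≤ |ζ.re| := (le_abs_self _).trans (by rw [abs_mul, e1, one_mul])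
      rw [hn, Real.log_exp]
      linarith)
  obtain ⟨Y, Y0, hY⟩ := h.ext b hb _ hx p (e * α - e * Real.log ‖x‖) (by linarith) (by simpa)
    (by simpa only [add_sub_cancel_left] using fun ζ hζ => (hB ζ hζ).2)
  simp only [add_sub_cancel_left] at hY
  have l1 : |α - Real.log ‖x‖ - e| = e * α - e * Real.log ‖x‖ - 1 := by
    rw [show α - Real.log ‖x‖ - e = e * (e * α - e * Real.log ‖x‖ - 1) by
      linear_combination (Real.log ‖x‖ - α) * e2, abs_mul, e1, one_mul, abs_of_nonneg (by linarith)]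
  have l2 : ∀ τ ∈ Set.uIcc (0 : ℝ) (α - Real.log ‖x‖ - e),
      (τ : ℂ) ∈ ball (0 : ℂ) (e * α - e * Real.log ‖x‖) := fun τ hτ => by
    have := Set.abs_sub_left_of_mem_uIcc hτ
    rw [sub_zero, sub_zero, l1] at this
    rw [mem_ball_zero_iff, Complex.norm_real, Real.norm_eq_abs]
    linarith
  have l3 : ‖x * Complex.exp (α - Real.log ‖x‖ - e : ℝ)‖ = Real.exp (α - e) := by
    rw [hn, Complex.ofReal_re]
    congr 1
    ring
  obtain ⟨b1, r1, m1, q1⟩ := hY _ (l2 _ Set.right_mem_uIcc)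
  obtain ⟨g, hg, q2⟩ := hM' b1 r1 _ m1 (by rwa [mem_sphere_iff_norm, add_sub_cancel_left])
  refine ⟨g, hg, fun i k => ?_⟩
  have := hM x _ (fun ζ i => (Y ζ * g⁻¹) i k) l3 fun τ hτ => ⟨(hB _ (l2 τ hτ)).1, by
    obtain ⟨b2, r2, m2, q3⟩ := hY _ (l2 τ hτ)
    have d := (lb_der (b := mulB b2 g⁻¹) ((r2.br h.br).mul (isUnit_nonsing_inv_det _
      (h.inv g hg).isUnit).ne_zero) (h.ln b2 r2) m2 k).scomp (τ : ℂ)
        (((Complex.hasDerivAt_exp τ).const_mul x).const_add p)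
    refine (d.congr_of_eventuallyEq (q3.mono fun ζ hζ => by
      simp only [hζ, mulB, Function.comp])).congr_deriv ?_
    rw [smul_smul, mul_one_div, q3.self_of_nhds]
    rfl⟩
  rw [Y0, q1.self_of_nhds, l1] at this
  refine ((norm_le_pi_norm (fun i => (b.2.2 (p + x) * g⁻¹) i k) i).trans this).trans ?_
  have q4 := (pi_norm_le_iff_of_nonneg (abs_nonneg M')).2 fun i => (q2 i k).trans (le_abs_self M')
  refine (mul_le_mul_of_nonneg_right (mul_le_mul (le_abs_self M) q4 (norm_nonneg _) (abs_nonneg _))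
    (Real.exp_pos _).le).trans ?_
  rw [pow_succ', ← Real.exp_nat_mul, show (N : ℝ) * (e * α - e * Real.log ‖x‖ - 1) =
    N * (e * α - 1) + N * -(e * Real.log ‖x‖) by ring, Real.exp_add, ← mul_assoc]
  exact mul_le_mul_of_nonneg_right k2 (Real.exp_pos _).le

/-- the radii as in `A.fix_bd`; the columns of `Y ζ * g⁻¹` solve the system of the line through
`s + p • v` -/
theorem lb_fin {Z : Finset ℂ} {a : Bc σ ν} {𝒢 : Set (Matrix ν ν ℂ)} (h : LB T B s v Z a 𝒢)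
    (h1 : ∀ p : ℂ, Mod 1 (ln (s + p • v) v T) (lB (s + p • v) v B))
    (h2 : Mod (-1) (ln s v T) (lB s v B)) (F : MvPolynomial (ν × ν) ℂ)
    (hF : ∀ g ∈ 𝒢, ∀ Y : Matrix ν ν ℂ, MvPolynomial.eval (fun a => (Y * g) a.1 a.2) F =
      MvPolynomial.eval (fun a => Y a.1 a.2) F) :
    FinB Z {x | ∃ b, Rch T B a b ∧
      x = (b.1, fun u => MvPolynomial.eval (fun a => b.2.2 u a.1 a.2) F)} := by
  have key : ∀ {e : ℤ} {p : ℂ}, e = 1 ∨ e = -1 → Mod e (ln (s + p • v) v T) (lB (s + p • v) v B) →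
      (∀ᶠ x in Fe e, p + x ∉ Z) → ∃ N : ℕ, ∀ᶠ x in Fe e, ∀ b, Rch T B a b → p + x ∈ b.1 →
        ‖MvPolynomial.eval (fun a => b.2.2 (p + x) a.1 a.2) F‖ ≤
          Real.exp (-(e * Real.log ‖x‖)) ^ N := fun he k1 k2 => by
    obtain ⟨N, hN⟩ := lb_ray h he k1 k2
    obtain ⟨n, hn⟩ := lb_pol F
    refine ⟨(N + 1) * n, ?_⟩
    filter_upwards [hN, ((tendsto_pow_atTop (Nat.succ_ne_zero N)).comp
      (Real.tendsto_exp_atTop.comp (lb_fe he).2.1)).eventually hn] with x q1 q2 b hb hx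
    obtain ⟨g, hg, q3⟩ := q1 b hb hx
    have := q2 _ fun a : ν × ν => q3 a.1 a.2
    rw [← hF g hg, nonsing_inv_mul_cancel_right _ _ (h.inv g hg).isUnit] at this
    rw [pow_mul]
    exact this
  refine ⟨?_, ?_, fun x hx => ?_, fun p hp => ?_, ?_⟩
  · rintro _ ⟨b, hb, rfl⟩
    exact (hb.br h.br).1
  · rintro _ ⟨b, hb, rfl⟩ u hu
    exact AnalyticAt.aeval_mvPolynomial (fun a : ν × ν => (hb.br h.br).an a.1 a.2 u hu) F
  · obtain ⟨ρ, ρ0, 𝒥, f, k1, k2⟩ := h.fin x hx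
    refine ⟨ρ, ρ0, _, f.image fun b u => MvPolynomial.eval (fun a => b.2.2 u a.1 a.2) F, ?_, ?_⟩
    · rintro _ ⟨b, hb, rfl⟩
      exact ⟨b, (k1 b hb).1, by rw [(k1 b hb).2]⟩
    · rintro _ ⟨b, hb, rfl⟩ u hu m
      obtain ⟨b', hb', g, hg, k⟩ := k2 b hb u hu m
      exact ⟨_, ⟨b', hb', rfl⟩, k.mono fun w hw => by simp only [hw, hF g hg]⟩
  · have t : Tendsto (fun u : ℂ => u - p) (𝓝[≠] p) (Fe 1) := by
      rw [show Fe 1 = 𝓝[≠] 0 from if_pos rfl]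
      refine tendsto_nhdsWithin_iff.2 ⟨?_, eventually_mem_nhdsWithin.mono fun u hu =>
        sub_ne_zero.2 hu⟩
      simpa using ((continuous_sub_right p).tendsto p).mono_left nhdsWithin_le_nhds
    obtain ⟨N, hN⟩ := key (p := p) (.inl rfl) (h1 p) (by
      rw [show Fe 1 = 𝓝[≠] 0 from if_pos rfl]
      have := ((continuous_const_add p).tendsto' 0 p (add_zero p)).eventually
        ((Z.finite_toSet.subset (Set.sdiff_subset (t := {p}))).isClosed.isOpen_compl.mem_nhds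
          (show p ∉ _ by simp))
      filter_upwards [mem_nhdsWithin_of_mem_nhds this, self_mem_nhdsWithin] with x q1 q2 q3
      exact q1 ⟨q3, by simpa using q2⟩)
    refine ⟨N, ?_⟩
    filter_upwards [t.eventually hN, self_mem_nhdsWithin] with u q1 q2
    rintro _ ⟨b, hb, rfl⟩ hu
    have u0 : 0 < ‖u - p‖ := norm_pos_iff.2 (sub_ne_zero.2 q2)
    rw [add_sub_cancel, Int.cast_one, one_mul, Real.exp_neg, Real.exp_log u0] at q1
    refine (mul_le_mul_of_nonneg_right (q1 b hb hu) (by positivity)).trans_eq ?_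
    rw [← mul_pow, inv_mul_cancel₀ u0.ne', one_pow]
  · have e0 : Fe (-1) = cocompact ℂ := if_neg (by norm_num)
    obtain ⟨N, hN⟩ := key (p := 0) (.inr rfl) (by rwa [zero_smul, add_zero]) (by
      rw [e0]
      filter_upwards [Z.finite_toSet.isCompact.compl_mem_cocompact] with x q1
      rwa [zero_add])
    refine ⟨N, ?_⟩
    rw [← e0]
    filter_upwards [hN, (lb_fe (.inr rfl)).2.2] with u q1 q2
    rintro _ ⟨b, hb, rfl⟩ hu
    rw [zero_add, Int.cast_neg, Int.cast_one, neg_one_mul, neg_neg,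
      Real.exp_log (norm_pos_iff.2 q2)] at q1
    exact q1 b hb hu

end

end Pool.Agent.Lib.MP_5591bc_ag.Rg
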