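import Pool.Agent.Lib.MP_5591bc_ag.Rg.Fuchs
import Pool.Agent.Lib.MP_5591bc_ag.Rg.Gron
import Pool.Agent.Lib.MP_5591bc_ag.Rg.ChQ
import Pool.Agent.Lib.MP_5591bc_ag.Rg.AlgL
import Pool.Agent.Lib.MP_5591bc_ag.Rg.AlgK
import Pool.Agent.Lib.MP_5591bc_ag.Rg.Den
import Pool.Agent.Lib.MP_5591bc_ag.Rg.LineA
import Pool.Agent.Lib.MP_5591bc_ag.Rg.LineB

/-! Outside the Hodge locus the monodromy group lies in the Mumford-Tate group. -/

namespace Pool.Agent.Lib.MP_5591bc_ag.Rg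

open Matrix Filter Topology Metric G R W M A B N E Z

noncomputable section

variable {σ K ν μ : Type} [Fintype σ] [DecidableEq σ] [Field K] [NumberField K] [Algebra K ℂ]
  [Fintype ν] [DecidableEq ν] [Fintype μ] [DecidableEq μ] {T : MvPolynomial σ K}
  {B : σ → Matrix ν ν (MvPolynomial σ K)} {U V : Set (σ → ℂ)} {P Q : (σ → ℂ) → Matrix ν ν ℂ}
  {C1 : Matrix ν ν ℂ} {c : μ → ν} {s : σ → ℂ} {J : Matrix μ μ ℝ} {j r : ℕ} {w : μ → ℕ}

theorem main_pol (r δ : ℕ) (e : (Fin r → Mo δ μ) → ℚ) (a : Fin r → Mo δ μ) :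
    ∃ F : MvPolynomial (μ × μ) ℂ, ∀ Y : Matrix μ μ ℂ,
      MvPolynomial.eval (fun a => Y a.1 a.2) F = (rW r δ Y *ᵥ fun a => (e a : ℂ)) a := by
  refine ⟨(rW r δ (mvPolynomialX μ μ ℂ) *ᵥ fun a => MvPolynomial.C (e a : ℂ)) a, fun Y => ?_⟩
  rw [RingHom.map_mulVec, ← rW_map, zc_X]
  congr 1
  ext b
  simp

theorem main_rat {r δ : ℕ} {e : (Fin r → Mo δ μ) → ℚ} {γ : Matrix μ μ ℚ} (h : rW r δ γ *ᵥ e = e) :
    (rW r δ (qc γ) *ᵥ fun a => (e a : ℂ)) = fun a => (e a : ℂ) := funext fun b => by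
  have := RingHom.map_mulVec (Rat.castHom ℂ) (rW r δ γ) e b
  rw [h, ← rW_map] at this
  exact this.symm

theorem main_mem {Y : Matrix μ μ ℂ} (h : HS J j w Y) {z : ℂ} (z0 : z ≠ 0) :
    cx (hH J j w z Y) ∈ MTH j w Y := fun _ hG => hG.2 _ _ z0 ((isH_iff h).2 rfl)

theorem main_canc {r δ : ℕ} {Y g : Matrix μ μ ℂ} (d0 : Y.det ≠ 0) {x : (Fin r → Mo δ μ) → ℂ}
    (h : rW r δ (Y * g) *ᵥ x = rW r δ Y *ᵥ x) : rW r δ g *ᵥ x = x := by
  have := congrArg (rW r δ Y⁻¹ *ᵥ ·) h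
  simpa only [mulVec_mulVec, ← rW_mul, ← Matrix.mul_assoc, nonsing_inv_mul _ d0.isUnit,
    Matrix.one_mul, rW_one, one_mulVec] using this

theorem main_an {q : Polynomial (Polynomial ℂ)} {Z : Finset ℂ} {ρ : ℝ}
    (ρ0 : 0 < ρ) {f : ℂ → ℂ} (hf : AnalyticAt ℂ f 0)
    (h : ∀ u ∈ ball (0 : ℂ) ρ, u ∉ Z → q.evalEval u (f u) = 0) :
    ∀ᶠ u in 𝓝 (0 : ℂ), q.evalEval u (f u) = 0 := by
  refine (alg_an hf q).frequently_zero_iff_eventually_zero.1 (Eventually.frequently ?_)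
  filter_upwards [mem_nhdsWithin_of_mem_nhds (ball_mem_nhds 0 ρ0), mem_nhdsWithin_of_mem_nhds
    ((Z.finite_toSet.subset (Set.sdiff_subset (t := {0}))).isClosed.isOpen_compl.mem_nhds
      (by simp)), self_mem_nhdsWithin] with u h1 h2 h3
  exact h u h1 fun hZ => h2 ⟨hZ, h3⟩

/-- an invariant polynomial is algebraic on every line -/
theorem line_alg (hg : GalM T B) (hc : Function.Injective c) (h : VHS T U P C1 c J j w r)
    (k : ContM U P V Q) (oV : IsOpen V) (cV : IsPreconnected V) (hQ : FundM T B V Q) (hs : s ∈ V)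
    (hT : MvPolynomial.aeval s T ≠ 0) {r' δ : ℕ} {e : (Fin r' → Mo δ μ) → ℚ}
    (he : ∀ᶠ t in 𝓝 s, ∃ x : ℂ, (rW r' δ (cx (hH J j w (-Complex.I) ((Q t).submatrix c c))) *ᵥ
      fun a => (e a : ℂ)) = x • fun a => (e a : ℂ)) {F : MvPolynomial (ν × ν) ℂ}
    {a : Fin r' → Mo δ μ} (eF : ∀ Y : Matrix ν ν ℂ, MvPolynomial.eval (fun a => Y a.1 a.2) F =
      (rW r' δ (Y.submatrix c c) *ᵥ fun a => (e a : ℂ)) a) (v : σ → ℂ) :
    ∃ q : Polynomial (Polynomial ℂ), q ≠ 0 ∧ ∀ᶠ u in 𝓝 (0 : ℂ),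
      q.evalEval u (MvPolynomial.eval (fun a => Q (s + u • v) a.1 a.2) F) = 0 := by
  have ya : ∀ u : ℂ, AnalyticAt ℂ (fun u : ℂ => s + u • v) u := fun u => by fun_prop
  have t : Tendsto (fun u : ℂ => s + u • v) (𝓝 0) (𝓝 s) := by
    simpa using (ya 0).continuousAt.tendsto
  have vh : ∀ᶠ u in 𝓝 (0 : ℂ), VH J j w (fun u => (Q (s + u • v)).submatrix c c) u := by
    filter_upwards [t.eventually (oV.mem_nhds hs),
      t.eventually ((aeval_ana T).continuousAt.eventually_ne hT)] with u h1 h2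
    exact arc_vh h k hQ (ya u) h1 h2
  obtain ⟨Z, ρ, ρ0, hL⟩ := lb_ex hc h k oV cV hQ hs hT v e (by
    simpa only [zero_smul, add_zero] using orb_const vh e (t.eventually he))
  have t0 : ∀ p : ℂ, ln (s + p • v) v T ≠ 0 := fun p e0 => hT (by
    have := ln_eval (s + p • v) v T (-p)
    rw [e0, Polynomial.eval_zero] at this
    simpa using this.symm)
  have t1 : ln s v T ≠ 0 := by simpa using t0 0
  obtain ⟨q, q0, hq⟩ := algL (lb_fin hL
    (fun p => gron (.inl rfl) (t0 p) (fuchs hg _ v (t0 p) (.inl rfl)))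
    (gron (.inr rfl) t1 (fuchs hg s v t1 (.inr rfl))) F (by
      rintro g ⟨-, γ, g1, g2⟩ Y
      rw [eF, eF, blk_mul g1, rW_mul, ← mulVec_mulVec, main_rat g2]))
  exact ⟨q, q0, main_an ρ0 (AnalyticAt.aeval_mvPolynomial
    (f := fun (u : ℂ) (a : ν × ν) => Q (s + u • v) a.1 a.2)
    (fun a => hL.br.an a.1 a.2 0 (mem_ball_self ρ0)) F) (hq _ ⟨_, .refl, rfl⟩)⟩

theorem main_fix (hg : GalM T B) (hc : Function.Injective c) (h : VHS T U P C1 c J j w r)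
    (k : ContM U P V Q) (oV : IsOpen V) (cV : IsPreconnected V) (hQ : FundM T B V Q)
    (hC : ConnRM V Q fun t => Q t * C1) (hs : s ∈ V)
    (hT : MvPolynomial.aeval s T ≠ 0) {r' δ : ℕ} {e : (Fin r' → Mo δ μ) → ℚ}
    (he : ∀ᶠ t in 𝓝 s, ∃ x : ℂ, (rW r' δ (cx (hH J j w (-Complex.I) ((Q t).submatrix c c))) *ᵥ
      fun a => (e a : ℂ)) = x • fun a => (e a : ℂ)) {g : Matrix μ μ ℂ} (m : g ∈ Mf Q C1 c s) :
    (rW r' δ g *ᵥ fun a => (e a : ℂ)) = fun a => (e a : ℂ) := by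
  refine main_canc (hs_det (h.2.1 _ _ k _ hs hT).1) (funext fun a => ?_)
  obtain ⟨F, hF⟩ := main_pol r' δ e a
  have eF : ∀ Y : Matrix ν ν ℂ, MvPolynomial.eval (fun a => Y a.1 a.2)
      (MvPolynomial.rename (Prod.map c c) F) =
      MvPolynomial.eval (fun a => Y.submatrix c c a.1 a.2) F := fun Y => by
    rw [MvPolynomial.eval_rename]
    rfl
  have an : AnalyticAt ℂ (fun t => MvPolynomial.eval (fun a => Q t a.1 a.2)
      (MvPolynomial.rename (Prod.map c c) F)) s :=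
    AnalyticAt.aeval_mvPolynomial (f := fun t (a : ν × ν) => Q t a.1 a.2)
      (fun a => ((hQ s hs).2 a.1 a.2).1) _
  obtain ⟨n, p, p0, hp⟩ := algK an
    (line_alg hg hc h k oV cV hQ hs hT he fun Y => (eF Y).trans (hF _))
  rw [← hF, ← hF]
  simp only [eF] at hp
  exact mf_fix oV cV hQ hC hs hT F p0 hp g m

theorem mf_sub (hg : GalM T B) (T0 : T ≠ 0) (ho : IsOpen U) (hU : IsPreconnected U)
    (hP : FundM T B U P) (hC : ConnRM U P fun t => P t * C1) (hc : Function.Injective c)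
    (h : VHS T U P C1 c J j w r) (k : ContM U P V Q) (hs : s ∈ V)
    (hT : MvPolynomial.aeval s T ≠ 0) (hG : HGen j w (fun t => (Q t).submatrix c c) s) :
    Mf Q C1 c s ⊆ MTH j w ((Q s).submatrix c c) := by
  obtain ⟨V', v1, v2, v3, -, v5⟩ := cont_fund T0 ho hU hP k hs hT
  have k' : ContM U P V' Q := .step _ _ _ _ _ k v1 v2 (fun i j t ht => ((v5 t ht).2 i j).1) hs v3
    (.of_forall fun _ => rfl)
  intro g m G hG'
  refine chq_mem hG'.1 m.1 fun r' δ e he => main_fix hg hc h k' v1 v2 v5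
    (hC.cont ho hU (fun t ht i j => ((hP t ht).2 i j).1) C1 k') v3 hT ?_ m
  filter_upwards [hG, v1.mem_nhds v3, (aeval_ana T).continuousAt.eventually_ne hT]
    with t h1 h2 h3
  have h4 := h1 (main_mem (h.2.1 _ _ k' t h2 h3).1 (neg_ne_zero.2 Complex.I_ne_zero))
  exact he _ (Set.mem_sInter.1 h4 G hG')

end

end Pool.Agent.Lib.MP_5591bc_ag.Rg
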