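import Pool.Agent.Lib.MP_5591bc_ag.K.Fin
import Pool.Agent.Lib.MP_5591bc_ag.Rg.Main

/-! The count of the exceptional points outside the Hodge locus, up to weakly special loci. -/

namespace Pool.Agent.Lib.MP_5591bc_ag.Rg

open Matrix G R W M N E Z J B K

theorem cntH {σ K : Type} [Fintype σ] [DecidableEq σ] [Field K] [NumberField K] [Algebra K ℂ]
    {n : ℕ} {T : MvPolynomial σ K} {B : σ → Matrix (Fin n) (Fin n) (MvPolynomial σ K)}
    (T0 : T ≠ 0) (h : GalM T B) : ∃ C : ℕ, ∀ (δ r m j : ℕ) (hm : m ≤ n) (w : Fin m → ℕ)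
      (J : Matrix (Fin m) (Fin m) ℝ) (U : Set (σ → ℂ)) (P : (σ → ℂ) → Matrix (Fin n) (Fin n) ℂ)
      (C1 C0 : Matrix (Fin n) (Fin n) ℂ),
      (C0 = diagonal fun i : Fin n => if (i : ℕ) < m then 1 else 0) →
      IsOpen U → IsPreconnected U → FundM T B U P → (ConnRM U P fun t => P t * C1) →
      Proj T U P C1 C0 → VHS T U P C1 (Fin.castLE hm) J j w r →
      ∀ (d : ℕ) (H : ℝ), 2 ≤ H → ∀ S : Finset ((σ → ℂ) × Matrix (Fin n) (Fin n) ℂ),
        (∀ s ∈ S, MvPolynomial.aeval s.1 T ≠ 0 ∧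
          (∀ j, ∃ q : Polynomial ℤ, q ≠ 0 ∧ (∀ i, |(q.coeff i : ℝ)| ≤ H) ∧
            Polynomial.aeval (s.1 j) q = 0) ∧
          ∃ U' P', ContM U P U' P' ∧ s.1 ∈ U' ∧ P' s.1 * C1 = s.2 ∧
            (HGen j w (fun t => (P' t).submatrix (Fin.castLE hm) (Fin.castLE hm)) s.1 ∨
              Mf P' C1 (Fin.castLE hm) s.1 ⊆
                MTH j w ((P' s.1).submatrix (Fin.castLE hm) (Fin.castLE hm))) ∧
            (∀ s' ∈ S, WS T U P C1 (Fin.castLE hm) j w P' s.1 s' → s' = s) ∧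
            ∃ (E : IntermediateField K ℂ) (x : σ → E) (z : Matrix (Fin n) (Fin n) E),
              (∀ j, (x j : ℂ) = s.1 j) ∧ (∀ i j, (z i j : ℂ) = s.2 i j) ∧
              FiniteDimensional ℚ E ∧ Module.finrank ℚ E ≤ d ∧ ¬ GoodRM U' P' C1 C0 δ x z) →
        (S.card : ℝ) ≤ (C * (δ + r + 1) * d * Real.log H) ^
          (C * (δ + 1) ^ (Fintype.card σ * n ^ 2)) := by
  obtain ⟨C, hC⟩ := cntW T0 h
  refine ⟨C, fun δ r m j hm w J U P C1 C0 e0 ho hU hP h1 h2 h3 d H H2 S hS =>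
    hC δ r m j hm w J U P C1 C0 e0 ho hU hP h1 h2 h3 d H H2 S fun s hs => ?_⟩
  obtain ⟨e, b, U', P', k, hx, hz, hM, hW⟩ := hS s hs
  exact ⟨e, b, U', P', k, hx, hz,
    hM.elim (mf_sub h T0 ho hU hP h1 (Fin.castLE_injective hm) h3 k hx e) id, hW⟩

end Pool.Agent.Lib.MP_5591bc_ag.Rg
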