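import Pool.Agent.Lib.MP_5591bc_ag.Rg.Set

/-! A right inverse up to a scalar. -/

namespace Pool.Agent.Lib.MP_5591bc_ag.Rg

open Matrix Filter Topology Metric Polynomial G R W M A B

noncomputable section

/-- the case of a field -/
theorem lv_field {F ι κ : Type*} [Field F] [Fintype ι] [DecidableEq ι]
    {w : ι → κ → F} (h : LinearIndependent F w) (j : ι) :
    ∃ r : κ →₀ F, ∀ i, (r.sum fun k c => c * w i k) = if i = j then 1 else 0 := by
  have top : Submodule.span F (Set.range fun k i => w i k) = ⊤ := by
    by_contra hne
    obtain ⟨f, hf0, hf⟩ := Submodule.exists_le_ker_of_lt_top _ (lt_top_iff_ne_top.2 hne)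
    apply hf0
    have h0 := Fintype.linearIndependent_iff.1 h (fun i => f fun l => if i = l then 1 else 0) (by
      funext k
      have h1 : f (fun i => w i k) = 0 := hf (Submodule.subset_span ⟨k, rfl⟩)
      rw [LinearMap.pi_apply_eq_sum_univ] at h1
      simpa [Finset.sum_apply, mul_comm] using h1)
    refine LinearMap.ext fun x => ?_
    rw [LinearMap.pi_apply_eq_sum_univ]
    simp [h0]
  have hm : (fun i => if i = j then (1 : F) else 0) ∈
      Submodule.span F (Set.range fun k i => w i k) := by rw [top]; trivial
  obtain ⟨r, hr⟩ := Finsupp.mem_span_range_iff_exists_finsupp.1 hm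
  refine ⟨r, fun i => ?_⟩
  have := congrFun hr i
  simpa [Finsupp.sum, Finset.sum_apply] using this

/-- pass to the fraction field, restrict to finitely many coordinates, clear denominators -/
theorem linv {S ι κ : Type*} [CommRing S] [IsDomain S] [Fintype ι] [DecidableEq ι]
    {w : ι → κ → S} (h : LinearIndependent S w) : ∃ (r : ι → κ →₀ S) (D : S), D ≠ 0 ∧
      ∀ i j, ((r j).sum fun k c => c * w i k) = if i = j then D else 0 := by
  classical
  have inj : Function.Injective (algebraMap S (FractionRing S)) := IsFractionRing.injective _ _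
  have h1 : LinearIndependent S fun i k => algebraMap S (FractionRing S) (w i k) :=
    h.map' ((Algebra.linearMap S (FractionRing S)).compLeft κ) (by
      rw [LinearMap.ker_eq_bot]
      intro x y hxy
      funext k
      exact inj (congrFun hxy k))
  have h2 := (LinearIndependent.iff_fractionRing S (FractionRing S)).1 h1
  choose r hr using lv_field h2
  obtain ⟨b, hb⟩ := IsLocalization.exist_integer_multiples (S := FractionRing S)
    (nonZeroDivisors S) (Finset.univ ×ˢ Finset.univ.biUnion fun j => (r j).support)
    fun p : ι × κ => r p.1 p.2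
  have hc : ∀ j k, ∃ c : S, algebraMap S (FractionRing S) c = (b : S) • r j k := fun j k => by
    by_cases hk : r j k = 0
    · exact ⟨0, by simp [hk]⟩
    · exact hb (j, k) (by
        simp only [Finset.mem_product, Finset.mem_univ, Finset.mem_biUnion, true_and]
        exact ⟨j, Finsupp.mem_support_iff.2 hk⟩)
  choose c hc using hc
  refine ⟨fun j => Finsupp.onFinset (r j).support (c j) fun k hk => ?_, b,
    nonZeroDivisors.coe_ne_zero b, fun i j => ?_⟩
  · refine Finsupp.mem_support_iff.2 fun h0 => hk (inj ?_)
    simp [hc, h0]
  · rw [Finsupp.onFinset_sum _ (by simp)]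
    apply inj
    have h3 := congrArg (fun x => (b : S) • x) (hr j i)
    simp only [Finsupp.sum, Finset.smul_sum] at h3
    rw [map_sum]
    simp only [map_mul, hc, smul_mul_assoc, h3]
    split_ifs <;> simp [Algebra.smul_def]

end

end Pool.Agent.Lib.MP_5591bc_ag.Rg
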