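import Pool.Agent.Lib.MP_5591bc_ag.Rg.Ord

/-! The leading coefficients at an irregular point. -/

namespace Pool.Agent.Lib.MP_5591bc_ag.Rg

open Matrix Filter Topology Metric Polynomial G R W M A B

noncomputable section

variable {S : Type*} [CommRing S] {e : ℤ} {n : ℕ} {a0 : S[X]} {a : ℕ → S[X]} {κ ν : ℚ}

theorem rec_nu (he : e = 1 ∨ e = -1) (h : ¬ ∀ i < n, Ord e (a i) (κ - e * (n - i : ℚ))) :
    ∃ ν : ℚ, (e : ℚ) < ν ∧ (∀ i < n, Ord e (a i) (κ - ν * (n - i : ℚ))) ∧
      ∃ i < n, lc e (a i) (κ - ν * (n - i : ℚ)) ≠ 0 := by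
  classical
  have pos : ∀ i < n, (0 : ℚ) < n - i := fun i hi => sub_pos.2 (by exact_mod_cast hi)
  simp only [Ord, not_forall] at h
  obtain ⟨i1, hi1, k1, hk1, c1⟩ := h
  let F : Finset (Σ _ : ℕ, ℕ) := (Finset.range n).sigma fun i => (a i).support
  have mem : ∀ i k, i < n → (a i).coeff k ≠ 0 → (⟨i, k⟩ : Σ _ : ℕ, ℕ) ∈ F := fun i k hi hk => by
    simp only [F, Finset.mem_sigma, Finset.mem_range, mem_support_iff]
    exact ⟨hi, hk⟩
  obtain ⟨⟨i0, k0⟩, h0, hm⟩ := F.exists_max_image
    (fun p => (κ - e * p.2) / (n - p.1 : ℚ)) ⟨_, mem i1 k1 hi1 c1⟩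
  simp only [F, Finset.mem_sigma, Finset.mem_range, mem_support_iff] at h0
  refine ⟨(κ - e * k0) / (n - i0 : ℚ), ?_, fun i hi k hk => ?_, i0, h0.1, ?_⟩
  · refine lt_of_lt_of_le ?_ (hm _ (mem i1 k1 hi1 c1))
    rw [lt_div_iff₀ (pos i1 hi1)]
    simp only
    linarith
  · by_contra hc
    have := hm _ (mem i k hi hc)
    rw [div_le_iff₀ (pos i hi)] at this
    simp only at this
    linarith
  · rw [div_mul_cancel₀ _ (pos i0 h0.1).ne', sub_sub_cancel, lc_coeff he]
    exact h0.2

theorem rec_lead (he : e = 1 ∨ e = -1) (n0 : 0 < n) (h0 : Ord e a0 κ)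
    (ha : ∀ i < n, Ord e (a i) (κ - ν * (n - i : ℚ))) (hν : (e : ℚ) < ν) (m : ℕ) :
    ∀ i < n, Ord e (Qs n a0 a m i) (κ * m - ν * (m - i : ℚ)) ∧
      lc e (Qs n a0 a m i) (κ * m - ν * (m - i : ℚ)) =
        cs n (lc e a0 κ) (fun i => lc e (a i) (κ - ν * (n - i : ℚ))) m i := by
  have z1 : ∀ x, Ord e (0 : S[X]) x := fun x k _ => coeff_zero k
  have z2 : ∀ x, lc e (0 : S[X]) x = 0 := fun x => by simp [lc]
  induction m with
  | zero =>
    intro i _
    by_cases hi : i = 0
    · subst hi
      have e0 : κ * ((0 : ℕ) : ℚ) - ν * (((0 : ℕ) : ℚ) - ((0 : ℕ) : ℚ)) = e * ((0 : ℕ) : ℚ) := by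
        simp
      simp only [Qs, cs, if_true]
      rw [e0, lc_coeff he]
      refine ⟨?_, by simp⟩
      have := Ord.nat (S := S) (e := e) 1
      simpa using this
    · simp only [Qs, cs, if_neg hi]
      exact ⟨z1 _, z2 _⟩
  | succ m ih =>
    intro i hi
    have hn : n - 1 < n := by omega
    have cn : ((n - 1 : ℕ) : ℚ) = n - 1 := by rw [Nat.cast_sub n0, Nat.cast_one]
    set x : ℚ := κ * ((m + 1 : ℕ) : ℚ) - ν * (((m + 1 : ℕ) : ℚ) - i) with hx
    have o1 := h0.mul (ih i hi).1.der
    have o2 := ((Ord.nat (S := S) (e := e) m).mul h0.der).mul (ih i hi).1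
    have l1 : x < κ + (κ * m - ν * (m - i : ℚ) - e) := by rw [hx]; push_cast; linarith
    have l2 : x < 0 + (κ - e) + (κ * m - ν * (m - i : ℚ)) := by linarith
    have x4 : x = (κ * m - ν * (m - (n - 1 : ℕ) : ℚ)) + (κ - ν * (n - i : ℚ)) := by
      rw [hx, cn]; push_cast; ring
    have o4 := (ih _ hn).1.mul (ha i hi)
    have c4 := lc_mul he (ih _ hn).1 (ha i hi)
    rw [← x4] at o4 c4
    have o3 : Ord e (if i = 0 then 0 else a0 * Qs n a0 a m (i - 1)) x ∧
        lc e (if i = 0 then 0 else a0 * Qs n a0 a m (i - 1)) x = if i = 0 then 0 else lc e a0 κ *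
          cs n (lc e a0 κ) (fun i => lc e (a i) (κ - ν * (n - i : ℚ))) m (i - 1) := by
      by_cases i0 : i = 0
      · simp only [if_pos i0]
        exact ⟨z1 _, z2 _⟩
      · have h1 : i - 1 < n := by omega
        have x3 : x = κ + (κ * m - ν * (m - (i - 1 : ℕ) : ℚ)) := by
          rw [hx, Nat.cast_sub (by omega : 1 ≤ i)]; push_cast; ring
        simp only [if_neg i0]
        rw [x3]
        exact ⟨h0.mul (ih _ h1).1, by rw [lc_mul he h0 (ih _ h1).1, (ih _ h1).2]⟩
    simp only [Qs, cs]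
    refine ⟨(((o1.mono l1.le).sub (o2.mono l2.le)).add o3.1).add o4, ?_⟩
    rw [lc_add he, lc_add he, lc_sub he, lc_lt o1 l1, lc_lt o2 l2, o3.2, c4, (ih _ hn).2]
    simp

theorem cs_map {S' : Type*} [CommRing S'] (φ : S →+* S') (n : ℕ) (α : S) (β : ℕ → S) (m i : ℕ) :
    φ (cs n α β m i) = cs n (φ α) (fun i => φ (β i)) m i := by
  induction m generalizing i with
  | zero => simp only [cs]; split_ifs <;> simp
  | succ m ih => simp only [cs]; split_ifs <;> simp [ih]

theorem cs_congr (n0 : 0 < n) (α : S) {β β' : ℕ → S} (h : ∀ i < n, β i = β' i) (m : ℕ) :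
    ∀ i < n, cs n α β m i = cs n α β' m i := by
  induction m with
  | zero => intro i _; rfl
  | succ m ih =>
    intro i hi
    simp only [cs]
    rw [ih (i - 1) (by omega), ih (n - 1) (by omega), h i hi]

/-- the step is injective on the vectors that vanish below the least `i` with `β i ≠ 0` -/
theorem cs_ne [IsDomain S] {α : S} {β : ℕ → S} (α0 : α ≠ 0) (h : ∃ i < n, β i ≠ 0) (m : ℕ) :
    ∃ i < n, cs n α β m i ≠ 0 := by
  classical
  obtain ⟨h1, h2⟩ := Nat.find_spec h
  have h3 : ∀ i < Nat.find h, β i = 0 := fun i hi => by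
    by_contra hc
    exact Nat.find_min h hi ⟨by omega, hc⟩
  set i0 := Nat.find h
  have hA : ∀ m, m < n → ∀ i, m < i → cs n α β m i = 0 := by
    intro m
    induction m with
    | zero => intro _ i hi; simp only [cs]; rw [if_neg (by omega)]
    | succ m ih =>
      intro hm i hi
      simp only [cs]
      rw [ih (by omega) (i - 1) (by omega), ih (by omega) (n - 1) (by omega)]
      simp
  have hB : ∀ m i, i < m → i < i0 → cs n α β m i = 0 := by
    intro m
    induction m with
    | zero => intro i hi; omega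
    | succ m ih =>
      intro i hi hi0
      simp only [cs]
      rw [h3 i hi0]
      by_cases z : i = 0
      · simp [z]
      · rw [ih (i - 1) (by omega) (by omega)]
        simp
  induction m with
  | zero => exact ⟨0, by omega, by simp [cs]⟩
  | succ m ih =>
    by_contra hc
    push Not at hc
    have hl : cs n α β m (n - 1) = 0 := by
      by_cases hm : m < i0
      · exact hA m (by omega) _ (by omega)
      · have := hc i0 h1
        simp only [cs] at this
        by_cases z : i0 = 0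
        · rw [if_pos z, zero_add] at this
          exact (mul_eq_zero.1 this).resolve_right h2
        · rw [if_neg z, hB m (i0 - 1) (by omega) (by omega), mul_zero, zero_add] at this
          exact (mul_eq_zero.1 this).resolve_right h2
    obtain ⟨i, hi, hne⟩ := ih
    by_cases z : i = n - 1
    · exact hne (z ▸ hl)
    · have := hc (i + 1) (by omega)
      simp only [cs] at this
      rw [if_neg (by omega), hl, zero_mul, add_zero, Nat.add_sub_cancel] at this
      exact hne ((mul_eq_zero.1 this).resolve_left α0)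

end

end Pool.Agent.Lib.MP_5591bc_ag.Rg
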