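import Pool.Agent.Lib.MP_5591bc_ag.Rg.Rec
import Pool.Agent.Lib.MP_5591bc_ag.W.GFB

/-! The arithmetic contradiction. -/

namespace Pool.Agent.Lib.MP_5591bc_ag.Rg

open Matrix Filter Topology Metric Polynomial G R W M A B

noncomputable section

theorem ari_bd {L : Type} [Field L] [NumberField L] (s : Finset L) :
    ∃ E : ℝ, 1 ≤ E ∧ ∀ z ∈ s, ∀ φ : L →+* ℂ, ‖φ z‖ ≤ E := by
  refine ⟨1 + ∑ z ∈ s, NumberField.house z, le_add_of_nonneg_right
    (Finset.sum_nonneg fun _ _ => NumberField.house_nonneg _), fun z hz φ => ?_⟩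
  have := Finset.single_le_sum (f := fun z : L => NumberField.house z)
    (fun _ _ => NumberField.house_nonneg _) hz
  have := NumberField.norm_embedding_le_house z φ
  linarith

theorem ari_cs {L : Type} [Field L] (φ : L →+* ℂ) {n : ℕ} {α : L} {β : ℕ → L} {E : ℝ}
    (E1 : 1 ≤ E) (hα : ‖φ α‖ ≤ E) (hβ : ∀ i < n, ‖φ (β i)‖ ≤ E) (m : ℕ) :
    ∀ i < n, ‖φ (cs n α β m i)‖ ≤ (2 * E) ^ m := by
  induction m with
  | zero =>
    intro i _
    simp only [cs]
    split_ifs <;> simp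
  | succ m ih =>
    intro i hi
    have p0 : (0 : ℝ) ≤ (2 * E) ^ m := by positivity
    have k1 : ‖φ (if i = 0 then 0 else α * cs n α β m (i - 1))‖ ≤ E * (2 * E) ^ m := by
      split_ifs
      · simp only [map_zero, norm_zero]
        positivity
      · rw [map_mul, norm_mul]
        exact mul_le_mul hα (ih _ (by omega)) (norm_nonneg _) (by linarith)
    have k2 : ‖φ (cs n α β m (n - 1) * β i)‖ ≤ (2 * E) ^ m * E := by
      rw [map_mul, norm_mul]
      exact mul_le_mul (ih _ (by omega)) (hβ i hi) (norm_nonneg _) p0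
    simp only [cs]
    rw [map_add]
    refine (norm_add_le _ _).trans ?_
    rw [pow_succ]
    linarith

theorem ari_int {L ν : Type} [Field L] [Fintype ν] {u r : ν → L[X]} {d D f : L}
    (hu : ∀ j l, IsIntegral ℤ (d * (u j).coeff l / f))
    (hr : ∀ j l, IsIntegral ℤ (D * (r j).coeff l)) (k : ℕ) :
    IsIntegral ℤ (d * D * (u ⬝ᵥ r).coeff k / f) := by
  have e : d * D * (u ⬝ᵥ r).coeff k / f = ∑ j, ∑ p ∈ Finset.HasAntidiagonal.antidiagonal k,
      (d * (u j).coeff p.1 / f) * (D * (r j).coeff p.2) := by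
    rw [dotProduct, finset_sum_coeff, Finset.mul_sum, Finset.sum_div]
    refine Finset.sum_congr rfl fun j _ => ?_
    rw [coeff_mul, Finset.mul_sum, Finset.sum_div]
    refine Finset.sum_congr rfl fun p _ => ?_
    ring
  rw [e]
  exact IsIntegral.sum _ fun j _ => IsIntegral.sum _ fun p _ => (hu j _).mul (hr j _)

theorem ari_one {L : Type} [Field L] [NumberField L] {y : L} (hy : IsIntegral ℤ y) (h0 : y ≠ 0)
    {A : ℝ} (hA : ∀ φ : L →+* ℂ, ‖φ y‖ ≤ A) : 1 ≤ A := by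
  obtain ⟨N, N0, hN, -⟩ := gf_inv hy h0 hA
  obtain ⟨φ⟩ : Nonempty (L →+* ℂ) := inferInstance
  have A0 : 0 ≤ A := (norm_nonneg _).trans (hA φ)
  by_contra k
  have := pow_lt_one₀ A0 (not_le.1 k) (Module.finrank_pos (R := ℚ) (M := L)).ne'
  have : (1 : ℝ) ≤ N := by exact_mod_cast N0
  linarith

/-- `d D y / (m / q)!` is a non zero algebraic integer of house less than one -/
theorem ari {L ν : Type} [Field L] [NumberField L] [Fintype ν] [DecidableEq ν] {t : L[X]}
    {b : Matrix ν ν L[X]} {q : ℕ} (q0 : 0 < q) (h : ∃ c : ℝ, ∀ m : ℕ, ∃ d : ℕ, 0 < d ∧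
      (d : ℝ) ≤ c ^ (m + 1) ∧ ∀ i j l,
      IsIntegral ℤ ((d : L) * (iterK t b m i j).coeff l / ((m / q).factorial : L)))
    (x : ν) (r : ℕ → ν → L[X]) {n : ℕ} {α τ δ : L}
    {β : ℕ → L} (α0 : α ≠ 0) (τ0 : τ ≠ 0) (δ0 : δ ≠ 0) (hβ : ∃ i < n, β i ≠ 0) :
    ¬ ∀ m, ∀ i < n, cs n α β m i = 0 ∨ ∃ k : ℕ,
      α ^ m * τ ^ n * (iterK t b m x ⬝ᵥ r i).coeff k = τ ^ m * cs n α β m i * δ := by
  classical
  intro H
  obtain ⟨c, hc⟩ := h
  obtain ⟨D, D0, hD⟩ := gf_cden (K := L) ((Finset.range n).biUnion fun i =>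
    Finset.univ.biUnion fun j => (r i j).coeffs)
  have hD' : ∀ i < n, ∀ j l, IsIntegral ℤ ((D : L) * (r i j).coeff l) := by
    intro i hi j l
    by_cases k : (r i j).coeff l = 0
    · rw [k, mul_zero]
      exact isIntegral_zero
    · exact hD _ (Finset.mem_biUnion.2 ⟨i, Finset.mem_range.2 hi,
        Finset.mem_biUnion.2 ⟨j, Finset.mem_univ _, coeff_mem_coeffs k⟩⟩)
  obtain ⟨E, E1, hE⟩ := ari_bd (L := L) ({α, α⁻¹, τ, τ⁻¹, δ} ∪ (Finset.range n).image β)
  have E0 : 0 ≤ E := by linarith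
  set Z : ℝ := (|c| * (E * (2 * E) * E)) ^ q with hZ
  set K0 : ℝ := |c| * D * (E * E ^ n) with hK
  have key : ∀ s : ℕ, 1 ≤ K0 * (Z ^ s / s.factorial) := by
    intro s
    obtain ⟨i, hi, c0⟩ := cs_ne α0 hβ (q * s)
    obtain ⟨k, hk⟩ := (H (q * s) i hi).resolve_left c0
    obtain ⟨d, d0, d1, d2⟩ := hc (q * s)
    rw [Nat.mul_div_cancel_left s q0] at d2
    set y := (iterK t b (q * s) x ⬝ᵥ r i).coeff k with hy
    have ey : y = τ ^ (q * s) * cs n α β (q * s) i * α⁻¹ ^ (q * s) * (δ * τ⁻¹ ^ n) := by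
      have : y = α⁻¹ ^ (q * s) * τ⁻¹ ^ n * (α ^ (q * s) * τ ^ n * y) := by
        rw [inv_pow, inv_pow]
        field_simp
      rw [this, hk]
      ring
    have y0 : y ≠ 0 := by
      rw [ey]
      exact mul_ne_zero (mul_ne_zero (mul_ne_zero (pow_ne_zero _ τ0) c0)
        (pow_ne_zero _ (inv_ne_zero α0))) (mul_ne_zero δ0 (pow_ne_zero _ (inv_ne_zero τ0)))
    have f0 : (0 : ℝ) < s.factorial := by exact_mod_cast s.factorial_pos
    refine ari_one (ari_int (d2 x) (hD' i hi) k) (div_ne_zero (mul_ne_zero (mul_ne_zero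
      (Nat.cast_ne_zero.2 d0.ne') (Nat.cast_ne_zero.2 D0.ne')) y0)
      (Nat.cast_ne_zero.2 s.factorial_ne_zero)) fun φ => ?_
    have b1 : ‖φ y‖ ≤ E ^ (q * s) * (2 * E) ^ (q * s) * E ^ (q * s) * (E * E ^ n) := by
      rw [ey]
      simp only [map_mul, map_pow, norm_mul, norm_pow]
      have a1 := hE τ (by simp) φ
      have a2 := hE α⁻¹ (by simp) φ
      have a3 := hE δ (by simp) φ
      have a4 := hE τ⁻¹ (by simp) φ
      have a5 := ari_cs φ E1 (hE α (by simp) φ) (fun i hi => hE (β i)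
        (Finset.mem_union_right _ (Finset.mem_image_of_mem _ (Finset.mem_range.2 hi))) φ)
        (q * s) i hi
      gcongr
    have b2 : (d : ℝ) ≤ |c| ^ (q * s + 1) := by
      rw [← abs_pow]
      exact d1.trans (le_abs_self _)
    rw [← hy, map_div₀, map_mul, map_mul, map_natCast, map_natCast, map_natCast, norm_div, norm_mul,
      norm_mul, Complex.norm_natCast, Complex.norm_natCast, Complex.norm_natCast, ← mul_div_assoc]
    refine div_le_div_of_nonneg_right ?_ f0.le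
    calc (d : ℝ) * D * ‖φ y‖ ≤ |c| ^ (q * s + 1) * D *
          (E ^ (q * s) * (2 * E) ^ (q * s) * E ^ (q * s) * (E * E ^ n)) := by gcongr
      _ = K0 * Z ^ s := by
        rw [hK, hZ, ← pow_mul, mul_pow, mul_pow, mul_pow, pow_succ]
        ring
  have lim := (FloorSemiring.tendsto_pow_div_factorial_atTop Z).const_mul K0
  rw [mul_zero] at lim
  exact absurd (ge_of_tendsto' lim key) (by norm_num)

end

end Pool.Agent.Lib.MP_5591bc_ag.Rg
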