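import Pool.Agent.Lib.MP_5591bc_ag.B.Defs

/-! Points outside the Hodge locus, any weight. -/

namespace Pool.Agent.Lib.MP_5591bc_ag.Rg

open Filter Topology B

/-- `s` is outside the Hodge locus: the Mumford-Tate group at `s` contains the Mumford-Tate groups
at all points near `s` (the lattices are identified by parallel transport), so it is the generic
one. -/
def HGen {σ μ : Type*} [Fintype μ] [DecidableEq μ] (j : ℕ) (w : μ → ℕ)
    (Y : (σ → ℂ) → Matrix μ μ ℂ) (s : σ → ℂ) : Prop :=
  ∀ᶠ t in 𝓝 s, MTH j w (Y t) ⊆ MTH j w (Y s)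

end Pool.Agent.Lib.MP_5591bc_ag.Rg
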