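import Pool.Agent.Lib.MP_5591bc_ag.Rg.Set
import Pool.Agent.Lib.MP_5591bc_ag.M.SerG
import Pool.Agent.Lib.MP_5591bc_ag.M.GFB

/-! The condition of Galochkin on a line. -/

namespace Pool.Agent.Lib.MP_5591bc_ag.Rg

open Matrix Filter Topology Metric Polynomial G R W M A B

noncomputable section

variable {σ K ν : Type} [Fintype σ] [DecidableEq σ] [Field K] [Fintype ν] [DecidableEq ν]
  {T : MvPolynomial σ K} {B : σ → Matrix ν ν (MvPolynomial σ K)}

omit [Fintype σ] [DecidableEq σ] in
theorem gl_C {S : Type*} [CommRing S] [Algebra K S] (s v : σ → S) (a : K) :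
    ln s v (MvPolynomial.C a) = C (algebraMap K S a) := by
  simp [ln, Polynomial.algebraMap_apply]

omit [Fintype σ] [DecidableEq σ] in
theorem gl_X {S : Type*} [CommRing S] [Algebra K S] (s v : σ → S) (l : σ) :
    ln s v (MvPolynomial.X l : MvPolynomial σ K) = C (s l) + C (v l) * X := by
  simp [ln]

theorem ln_map {S S' : Type*} [CommRing S] [CommRing S'] [Algebra K S] [Algebra K S']
    (φ : S →ₐ[K] S') (s v : σ → S) (p : MvPolynomial σ K) :
    (ln s v p).map (φ : S →+* S') = ln (fun l => φ (s l)) (fun l => φ (v l)) p := by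
  induction p using MvPolynomial.induction_on with
  | C a => simp [gl_C]
  | add p q h k => rw [map_add, map_add, Polynomial.map_add, h, k]
  | mul_X p l h => rw [map_mul, map_mul, Polynomial.map_mul, h, gl_X, gl_X]; simp

theorem lB_map {S S' : Type*} [CommRing S] [CommRing S'] [Algebra K S] [Algebra K S']
    (φ : S →ₐ[K] S') (s v : σ → S) : (lB s v B).map (Polynomial.map (φ : S →+* S')) =
      lB (fun l => φ (s l)) (fun l => φ (v l)) B := by
  ext1 i j
  simp only [lB, Matrix.map_apply, Matrix.sum_apply, Matrix.smul_apply, smul_eq_mul,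
    Polynomial.map_sum, Polynomial.map_mul, Polynomial.map_C, ln_map, RingHom.coe_coe]

theorem ln_eval [Algebra K ℂ] (s v : σ → ℂ) (p : MvPolynomial σ K) (u : ℂ) :
    (ln s v p).eval u = MvPolynomial.aeval (s + u • v) p := by
  induction p using MvPolynomial.induction_on with
  | C a => simp [gl_C]
  | add p q h k => rw [map_add, map_add, Polynomial.eval_add, h, k]
  | mul_X p l h => rw [map_mul, map_mul, Polynomial.eval_mul, h, gl_X]; simp [mul_comm u]

theorem gl_der {S : Type*} [CommRing S] [Algebra K S] (s v : σ → S) (p : MvPolynomial σ K) :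
    derivative (ln s v p) = ∑ l, C (v l) * ln s v (MvPolynomial.pderiv l p) := by
  induction p using MvPolynomial.induction_on with
  | C a => simp [gl_C]
  | add p q h k => simp only [map_add, h, k, mul_add, Finset.sum_add_distrib]
  | mul_X p n h =>
    have e : ∀ l, C (v l) * ln s v (MvPolynomial.pderiv l (p * MvPolynomial.X n)) =
        C (v l) * ln s v (MvPolynomial.pderiv l p) * (C (s n) + C (v n) * X) +
          if n = l then ln s v p * C (v n) else 0 := by
      intro l
      rw [MvPolynomial.pderiv_mul, map_add, map_mul, map_mul, gl_X, MvPolynomial.pderiv_X]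
      split_ifs with e
      · subst e; simp; ring
      · simp [Pi.single_apply, e]; ring
    rw [map_mul, derivative_mul, h, gl_X]
    simp only [e, Finset.sum_add_distrib, Finset.sum_ite_eq, Finset.mem_univ, if_true,
      Finset.sum_mul]
    simp

theorem iterK_ln {S : Type*} [CommRing S] [Algebra K S] (s v : σ → S) (m : ℕ) :
    iterK (ln s v T) (lB s v B) m = ∑ w : Fin m → σ,
      (C (∏ i, v (w i)) : S[X]) • (iterM T B (List.ofFn w)).map (ln s v) := by
  induction m with
  | zero => simp [iterK, iterM, Matrix.map_one]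
  | succ m ih =>
    rw [iterK, ih, ← (Fin.consEquiv fun _ : Fin (m + 1) => σ).sum_comp, Fintype.sum_prod_type_right]
    ext1 i j
    simp only [Matrix.add_apply, Matrix.sub_apply, Matrix.smul_apply, Matrix.map_apply,
      Matrix.sum_apply, Matrix.mul_apply, smul_eq_mul, derivative_sum, Finset.mul_sum,
      Finset.sum_mul]
    rw [← Finset.sum_sub_distrib, ← Finset.sum_add_distrib]
    refine Finset.sum_congr rfl fun w _ => ?_
    simp only [Fin.consEquiv_apply, Fin.prod_univ_succ, Fin.cons_zero, Fin.cons_succ,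
      List.ofFn_succ, iterM, List.length_ofFn, Matrix.add_apply, Matrix.sub_apply,
      Matrix.smul_apply, Matrix.map_apply, Matrix.mul_apply, smul_eq_mul, map_add, map_sub, map_mul,
      map_sum, map_natCast, derivative_mul, derivative_C, gl_der, lB, Matrix.sum_apply, zero_mul,
      zero_add, Finset.mul_sum, Finset.sum_mul, mul_add, mul_sub]
    rw [Finset.sum_comm (s := (Finset.univ : Finset ν)), ← Finset.sum_sub_distrib,
      ← Finset.sum_add_distrib]
    refine Finset.sum_congr rfl fun l _ => ?_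
    congr 1
    · ring
    · exact Finset.sum_congr rfl fun k _ => by ring

theorem gl_dvd (w : List σ) :
    (w.length / (Fintype.card σ + 1)).factorial ∣ ∏ l, (w.count l).factorial := by
  by_cases h : ∃ l, w.length / (Fintype.card σ + 1) ≤ w.count l
  · obtain ⟨l, hl⟩ := h
    exact (Nat.factorial_dvd_factorial hl).trans
      (Finset.dvd_prod_of_mem (fun l => (w.count l).factorial) (Finset.mem_univ l))
  · push Not at h
    have e : ∑ l, w.count l = w.length := by
      simpa using Multiset.sum_count_eq_card (s := Finset.univ) (m := (w : Multiset σ))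
        fun _ _ => Finset.mem_univ _
    have h1 : ∑ l, w.count l ≤ Fintype.card σ * (w.length / (Fintype.card σ + 1)) := by
      simpa using Finset.sum_le_card_nsmul Finset.univ (fun l => w.count l) _
        fun l _ => (h l).le
    have h2 := Nat.mul_div_le w.length (Fintype.card σ + 1)
    have h3 : w.length / (Fintype.card σ + 1) = 0 := by nlinarith [Nat.zero_le (w.length / (Fintype.card σ + 1))]
    rw [h3]
    exact one_dvd _

omit [Fintype σ] [DecidableEq σ] in
theorem gl_den {E : Type*} [CommRing E] [Algebra K E] (O : Subring E) {x : σ → E}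
    {W : MvPolynomial σ K} {D : ℕ} {a : K} {d : E} (hd : d ∈ O) (hs : ∀ l, d * x l ∈ O)
    (h : W.totalDegree ≤ D) (hW : ∀ κ, algebraMap K E (a * MvPolynomial.coeff κ W) ∈ O) :
    algebraMap K E a * d ^ D * MvPolynomial.aeval x W ∈ O := by
  rw [MvPolynomial.aeval_def, MvPolynomial.eval₂_eq, Finset.mul_sum]
  refine O.sum_mem fun κ hκ => ?_
  have k : ∑ l ∈ κ.support, κ l ≤ D := (MvPolynomial.le_totalDegree hκ).trans h
  have e : algebraMap K E a * d ^ D *
      (algebraMap K E (MvPolynomial.coeff κ W) * ∏ l ∈ κ.support, x l ^ κ l) =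
      algebraMap K E (a * MvPolynomial.coeff κ W) * (∏ l ∈ κ.support, (d * x l) ^ κ l) *
        d ^ (D - ∑ l ∈ κ.support, κ l) := by
    simp only [mul_pow, Finset.prod_mul_distrib, Finset.prod_pow_eq_pow_sum, map_mul]
    rw [← Nat.sub_add_cancel k, add_tsub_cancel_right]
    ring
  rw [e]
  exact O.mul_mem (O.mul_mem (hW κ) (O.prod_mem fun l _ => O.pow_mem (hs l) _)) (O.pow_mem hd _)

theorem gl_deg [NumberField K] (T : MvPolynomial σ K) (B : σ → Matrix ν ν (MvPolynomial σ K)) :
    ∃ g : ℕ, ∀ (w : List σ) i j, (iterM T B w i j).totalDegree ≤ w.length * g := by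
  obtain ⟨g1, c1, hc1⟩ := mdom_ex T
  choose g2 c2 hc2 using fun p : σ × ν × ν => mdom_ex (B p.1 p.2.1 p.2.2)
  obtain ⟨φ0⟩ : Nonempty (K →+* ℂ) := inferInstance
  have c10 := (hc1 φ0).nonneg
  have c20 := fun p => (hc2 p φ0).nonneg
  have s0 : 0 ≤ ∑ p, c2 p := Finset.sum_nonneg fun p _ => c20 p
  refine ⟨g1 + ∑ p, g2 p, fun w i j => (mdom_iter (φ := φ0) (c := c1 + ∑ p, c2 p)
    ((hc1 φ0).mono (by linarith) (Nat.le_add_right _ _)) (fun l i j => (hc2 (l, i, j) φ0).mono ?_ ?_)
    w i j).deg⟩
  · have := Finset.single_le_sum (f := c2) (fun p _ => c20 p) (Finset.mem_univ (l, i, j))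
    linarith
  · exact (Finset.single_le_sum (f := g2) (fun p _ => Nat.zero_le _)
      (Finset.mem_univ (l, i, j))).trans (Nat.le_add_left _ _)

/-- a letter occurs at least `m / (k + 1)` times in a word of length `m`; the degree of `iterM w`
is at most `c * |w|` -/
theorem gal_ln [NumberField K] (h : GalM T B) {L : Type} [Field L] [NumberField L] [Algebra K L]
    (s v : σ → L) : ∃ c : ℝ, ∀ m : ℕ, ∃ d : ℕ, 0 < d ∧ (d : ℝ) ≤ c ^ (m + 1) ∧ ∀ i j l,
      IsIntegral ℤ ((d : L) * (iterK (ln s v T) (lB s v B) m i j).coeff l /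
        ((m / (Fintype.card σ + 1)).factorial : L)) := by
  classical
  obtain ⟨c, hc⟩ := h
  obtain ⟨g, hg⟩ := gl_deg T B
  obtain ⟨D, D0, hD⟩ := gf_cden (Finset.univ.image s ∪ Finset.univ.image v)
  have hs : ∀ l, IsIntegral ℤ ((D : L) * s l) := fun l => hD _ (by simp)
  have hv : ∀ l, IsIntegral ℤ ((D : L) * v l) := fun l => hD _ (by simp)
  obtain ⟨O, hO⟩ : ∃ O : Subring L[X], ∀ p, p ∈ O ↔ ∀ n, IsIntegral ℤ (p.coeff n) :=
    ⟨(mapRingHom (integralClosure ℤ L).toSubring.subtype).range, fun p => by
      rw [Polynomial.mem_map_range, Subring.range_subtype]; rfl⟩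
  have oC : ∀ a : L, IsIntegral ℤ a → C a ∈ O := fun a ha => (hO _).2 fun n => by
    rw [coeff_C]
    split_ifs
    · exact ha
    · exact isIntegral_zero
  have oX : (X : L[X]) ∈ O := (hO _).2 fun n => by
    rw [coeff_X]
    split_ifs
    · exact isIntegral_one
    · exact isIntegral_zero
  refine ⟨c * (D : ℝ) ^ (g + 1), fun m => ?_⟩
  obtain ⟨d, d0, d1, hd⟩ := hc m
  have D1 : (1 : ℝ) ≤ D := by exact_mod_cast D0
  refine ⟨d * D ^ (m * g + m), by positivity, ?_, fun i j n => ?_⟩
  · rw [mul_pow, ← pow_mul]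
    push_cast
    exact mul_le_mul d1 (pow_le_pow_right₀ D1 (by nlinarith)) (by positivity)
      ((Nat.cast_nonneg d).trans d1)
  · rw [mul_div_right_comm, ← coeff_C_mul]
    refine (hO _).1 ?_ n
    rw [iterK_ln, Matrix.sum_apply, Finset.mul_sum]
    refine O.sum_mem fun w _ => ?_
    obtain ⟨N, hN⟩ := gl_dvd (List.ofFn w)
    rw [List.length_ofFn] at hN
    have k := gl_den O (K := K) (x := fun l => C (s l) + C (v l) * X) (d := C (D : L))
      (a := (d : K) / ∏ l, (((List.ofFn w).count l).factorial : K)) (W := iterM T B (List.ofFn w) i j)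
      (oC _ (isIntegral_natCast _)) (fun l => by
        rw [mul_add, ← mul_assoc, ← C_mul, ← C_mul]
        exact O.add_mem (oC _ (hs l)) (O.mul_mem (oC _ (hv l)) oX))
      (hg (List.ofFn w) i j) fun κ => by
        rw [Polynomial.algebraMap_apply, div_mul_eq_mul_div]
        exact oC _ ((hd _ (by simp) i j κ).map (algebraMap K L).toIntAlgHom)
    rw [List.length_ofFn, Polynomial.algebraMap_apply] at k
    have k2 : C (∏ a, ((D : L) * v (w a))) ∈ O := oC _ (IsIntegral.prod _ fun a _ => hv _)
    have k3 : C (N : L) ∈ O := oC _ (isIntegral_natCast _)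
    have f0 : ((m / (Fintype.card σ + 1)).factorial : L) ≠ 0 :=
      Nat.cast_ne_zero.2 (Nat.factorial_ne_zero _)
    have N0 : (N : L) ≠ 0 := Nat.cast_ne_zero.2 fun e => by
      rw [e, mul_zero] at hN
      exact Finset.prod_ne_zero_iff.2 (fun l _ => Nat.factorial_ne_zero _) hN
    have e : (((d * D ^ (m * g + m) : ℕ) : L) / ((m / (Fintype.card σ + 1)).factorial : L)) *
        ∏ a, v (w a) = (∏ a, ((D : L) * v (w a))) * N * (algebraMap K L
          ((d : K) / ∏ l, (((List.ofFn w).count l).factorial : K)) * (D : L) ^ (m * g)) := by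
      rw [← Nat.cast_prod, hN, map_div₀, map_natCast, map_natCast, Finset.prod_mul_distrib,
        Finset.prod_const, Finset.card_univ, Fintype.card_fin]
      push_cast
      field_simp
      ring
    rw [Matrix.smul_apply, Matrix.map_apply, smul_eq_mul, ← mul_assoc, ← C_mul, e, C_mul, C_mul,
      C_mul, C_pow, mul_assoc]
    exact O.mul_mem (O.mul_mem k2 k3) k

end

end Pool.Agent.Lib.MP_5591bc_ag.Rg
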