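import Pool.Agent.Lib.MP_5591bc_ag.Rg.Set

/-! Specialisation to a number field. -/

namespace Pool.Agent.Lib.MP_5591bc_ag.Rg

open Matrix Filter Topology Metric Polynomial G R W M A B

noncomputable section

/-- a maximal ideal that misses `x` (Jacobson ring) and the lemma of Zariski -/
theorem spec {K : Type} [Field K] [NumberField K] [Algebra K ℂ] (A : Subalgebra K ℂ) (hA : A.FG)
    {x : A} (x0 : x ≠ 0) : ∃ (L : Type) (_ : Field L) (_ : NumberField L) (_ : Algebra K L)
      (φ : A →ₐ[K] L), φ x ≠ 0 := by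
  have : Algebra.FiniteType K A := (Subalgebra.fg_iff_finiteType A).1 hA
  have : IsJacobsonRing A := isJacobsonRing_of_finiteType (A := K)
  have hj : (⊥ : Ideal A).jacobson = ⊥ :=
    IsJacobsonRing.out inferInstance (Ideal.isPrime_bot.isRadical)
  obtain ⟨m, hm, hx⟩ : ∃ m : Ideal A, m.IsMaximal ∧ x ∉ m := by
    by_contra hn
    push Not at hn
    apply x0
    have : x ∈ (⊥ : Ideal A).jacobson := Ideal.mem_sInf.2 fun {I} hI => hn I hI.2
    rwa [hj, Ideal.mem_bot] at this
  let : Field (A ⧸ m) := Ideal.Quotient.field m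
  have : Module.Finite K (A ⧸ m) := finite_of_finite_type_of_isJacobsonRing K (A ⧸ m)
  have : NumberField (A ⧸ m) := NumberField.of_module_finite K (A ⧸ m)
  exact ⟨A ⧸ m, inferInstance, inferInstance, inferInstance, Ideal.Quotient.mkₐ K m,
    fun h => hx (Ideal.Quotient.eq_zero_iff_mem.1 h)⟩

end

end Pool.Agent.Lib.MP_5591bc_ag.Rg
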