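import Pool.Agent.Lib.MP_5591bc_ag.Rg.Rel
import Pool.Agent.Lib.MP_5591bc_ag.Rg.Spec
import Pool.Agent.Lib.MP_5591bc_ag.Rg.GalL
import Pool.Agent.Lib.MP_5591bc_ag.Rg.Ari

/-! The criterion of Fuchs. -/

namespace Pool.Agent.Lib.MP_5591bc_ag.Rg

open Matrix Filter Topology Metric Polynomial G R W M A B

noncomputable section

variable {σ K ν : Type} [Fintype σ] [DecidableEq σ] [Field K] [Fintype ν] [DecidableEq ν]
  {T : MvPolynomial σ K} {B : σ → Matrix ν ν (MvPolynomial σ K)}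

theorem fu_map {S S' : Type*} [CommRing S] [CommRing S'] [Algebra K S] [Algebra K S']
    (φ : S →ₐ[K] S') (s v : σ → S) (m k : ℕ) (x : ν) (r : ν → S[X]) :
    φ ((iterK (ln s v T) (lB s v B) m x ⬝ᵥ r).coeff k) =
      (iterK (ln (fun l => φ (s l)) (fun l => φ (v l)) T)
        (lB (fun l => φ (s l)) (fun l => φ (v l)) B) m x ⬝ᵥ
          fun j => (r j).map (φ : S →+* S')).coeff k := by
  rw [← ln_map, ← lB_map, iterK_mapR]
  change (φ : S →+* S') _ = _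
  rw [← coeff_map, dotProduct, dotProduct, Polynomial.map_sum]
  simp only [Polynomial.map_mul, map_apply]

theorem fu_key {e : ℤ} (he : e = 1 ∨ e = -1) {t a0 D : ℂ[X]} {b : Matrix ν ν ℂ[X]} {x : ν} {n : ℕ}
    {a : ℕ → ℂ[X]} {r : ℕ → ν → ℂ[X]} (hR : Rel t b x n a0 a)
    (hr : ∀ i < n, ∀ j < n, (t ^ (n - i) • iterK t b i x) ⬝ᵥ r j = if i = j then D else 0)
    {κ μ y z : ℚ} (o0 : Ord e a0 κ) (l0 : lc e a0 κ ≠ 0) (o1 : Ord e t y) (l1 : lc e t y ≠ 0)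
    (o2 : Ord e D z) (l2 : lc e D z ≠ 0) (hμ : (e : ℚ) < μ)
    (ha : ∀ i < n, Ord e (a i) (κ - μ * (n - i : ℚ))) (m i : ℕ) (hi : i < n) :
    cs n (lc e a0 κ) (fun i => lc e (a i) (κ - μ * (n - i : ℚ))) m i = 0 ∨ ∃ k : ℕ,
      lc e a0 κ ^ m * lc e t y ^ n * (iterK t b m x ⬝ᵥ r i).coeff k = lc e t y ^ m *
        cs n (lc e a0 κ) (fun i => lc e (a i) (κ - μ * (n - i : ℚ))) m i * lc e D z := by
  obtain ⟨q1, q2⟩ := rec_lead he hR.n0 o0 ha hμ m i hi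
  have e1 : a0 ^ m * t ^ n * (iterK t b m x ⬝ᵥ r i) = t ^ m * Qs n a0 a m i * D := by
    have := congrArg (· ⬝ᵥ r i) (rel_iter hR m)
    simp only [smul_dotProduct, sum_dotProduct, smul_eq_mul] at this
    rw [this, Finset.sum_eq_single i (fun j hj e => ?_) fun e => absurd (Finset.mem_range.2 hi) e]
    · have := hr i hi i hi
      rw [smul_dotProduct, smul_eq_mul, if_pos rfl] at this
      rw [mul_assoc, this]
    · have := hr j (Finset.mem_range.1 hj) i hi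
      rw [smul_dotProduct, smul_eq_mul, if_neg e] at this
      rw [mul_assoc, this, mul_zero]
  have p1 := (o0.pow m).mul (o1.pow n)
  have p2 := lc_mul he (o0.pow m) (o1.pow n)
  have p3 := lc_mul he ((o1.pow m).mul q1) o2
  have p4 := ((o1.pow m).mul q1).mul o2
  rw [lc_pow he o0, lc_pow he o1] at p2
  rw [lc_mul he (o1.pow m) q1, lc_pow he o1, q2] at p3
  obtain ⟨u, hu⟩ : ∃ u, y * m + (κ * m - μ * (m - i : ℚ)) + z = κ * m + y * n + u :=
    ⟨_, (add_sub_cancel _ _).symm⟩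
  rw [← e1, hu] at p3 p4
  rw [lc_mul he p1 (p1.cancel he (p2 ▸ mul_ne_zero (pow_ne_zero _ l0) (pow_ne_zero _ l1)) p4),
    p2] at p3
  refine (lc_cases he (iterK t b m x ⬝ᵥ r i) u).imp (fun k => ?_) fun ⟨k, hk⟩ => ⟨k, hk ▸ p3⟩
  rw [k, mul_zero] at p3
  exact ((mul_eq_zero.1 ((mul_eq_zero.1 p3.symm).resolve_right l2)).resolve_left
    (pow_ne_zero _ l1))

/-- pair `rel_iter` with `r j`, take leading coefficients, lift everything to the algebra generated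
by `s`, `v`, the coefficients of the `r j`, `α`, `τ`, `δ`, `β i`, and specialise -/
theorem fuchs [NumberField K] [Algebra K ℂ] (h : GalM T B) (s v : σ → ℂ)
    (t0 : ln s v T ≠ 0) {e : ℤ} (he : e = 1 ∨ e = -1) (x : ν) :
    ∃ (n : ℕ) (a0 : ℂ[X]) (a : ℕ → ℂ[X]) (κ : ℚ), Rel (ln s v T) (lB s v B) x n a0 a ∧
      Ord e a0 κ ∧ lc e a0 κ ≠ 0 ∧ ∀ i < n, Ord e (a i) (κ - e * (n - i : ℚ)) := by
  classical
  obtain ⟨n, a0, a, r, D, hR, D0, hr⟩ := rel_ex t0 (lB s v B) x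
  obtain ⟨k0, o0, l0⟩ := ord_ex he hR.ne
  refine ⟨n, a0, a, e * k0, hR, o0, l0, ?_⟩
  by_contra hn
  obtain ⟨μ, hμ, ha, i0, hi0, b0⟩ := rec_nu he hn
  obtain ⟨k1, o1, l1⟩ := ord_ex he t0
  obtain ⟨k2, o2, l2⟩ := ord_ex he D0
  have key := fu_key he hR hr o0 l0 o1 l1 o2 l2 hμ ha
  generalize lc e a0 (e * k0) = α at key l0
  generalize lc e (ln s v T) (e * k1) = τ at key l1
  generalize lc e D (e * k2) = δ at key l2
  obtain ⟨β, hβ⟩ : ∃ β : ℕ → ℂ, β = fun i => lc e (a i) (e * k0 - μ * (n - i : ℚ)) := ⟨_, rfl⟩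
  rw [← hβ] at key
  replace b0 : β i0 ≠ 0 := hβ ▸ b0
  let F : Finset ℂ := Finset.univ.image s ∪ Finset.univ.image v ∪ {α, τ, δ} ∪
    (Finset.range n).image β ∪ (Finset.range n).biUnion fun i => Finset.univ.biUnion fun j =>
      (r i j).coeffs
  let A : Subalgebra K ℂ := Algebra.adjoin K (F : Set ℂ)
  have m : ∀ z ∈ F, z ∈ A := fun z hz => Algebra.subset_adjoin hz
  obtain ⟨s', hs⟩ : ∃ s' : σ → A, ∀ l, A.val (s' l) = s l :=
    ⟨fun l => ⟨s l, m _ (by simp [F])⟩, fun _ => rfl⟩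
  obtain ⟨v', hv⟩ : ∃ v' : σ → A, ∀ l, A.val (v' l) = v l :=
    ⟨fun l => ⟨v l, m _ (by simp [F])⟩, fun _ => rfl⟩
  obtain ⟨α', hα⟩ : ∃ α' : A, A.val α' = α := ⟨⟨α, m _ (by simp [F])⟩, rfl⟩
  obtain ⟨τ', hτ⟩ : ∃ τ' : A, A.val τ' = τ := ⟨⟨τ, m _ (by simp [F])⟩, rfl⟩
  obtain ⟨δ', hδ⟩ : ∃ δ' : A, A.val δ' = δ := ⟨⟨δ, m _ (by simp [F])⟩, rfl⟩
  have k1 : ∀ i, ∃ β' : A, i < n → A.val β' = β i := fun i => by
    by_cases hi : i < n
    · exact ⟨⟨β i, m _ (Finset.mem_union_left _ (Finset.mem_union_right _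
        (Finset.mem_image_of_mem _ (Finset.mem_range.2 hi))))⟩, fun _ => rfl⟩
    · exact ⟨0, fun e => absurd e hi⟩
  have k2 : ∀ i j, ∃ p : A[X], i < n → p.map (A.val : A →+* ℂ) = r i j := fun i j => by
    by_cases hi : i < n
    · obtain ⟨p, hp⟩ := (mem_lifts _).1 ((lifts_iff_coeffs_subset_range (f := (A.val : A →+* ℂ))
        (r i j)).2 fun z hz => ⟨⟨z, m _ (Finset.mem_union_right _ (Finset.mem_biUnion.2
          ⟨i, Finset.mem_range.2 hi, Finset.mem_biUnion.2 ⟨j, Finset.mem_univ j, hz⟩⟩))⟩, rfl⟩)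
      exact ⟨p, fun _ => hp⟩
    · exact ⟨0, fun e => absurd e hi⟩
  choose β' hβ' using k1
  choose r' hr' using k2
  have vi : Function.Injective A.val := Subtype.val_injective
  obtain ⟨L, _, _, _, φ, φ0⟩ := spec A ⟨F, rfl⟩ (x := α' * τ' * δ' * β' i0) fun e => by
    have := congrArg A.val e
    rw [map_mul, map_mul, map_mul, hα, hτ, hδ, hβ' i0 hi0, map_zero] at this
    exact mul_ne_zero (mul_ne_zero (mul_ne_zero l0 l1) l2) b0 this
  rw [map_mul, map_mul, map_mul, mul_ne_zero_iff, mul_ne_zero_iff, mul_ne_zero_iff] at φ0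
  refine ari (Nat.succ_pos _) (gal_ln h (fun l => φ (s' l)) fun l => φ (v' l)) x
    (fun i j => (r' i j).map (φ : A →+* L)) φ0.1.1.1 φ0.1.1.2 φ0.1.2 (β := fun i => φ (β' i))
    ⟨i0, hi0, φ0.2⟩ fun m i hi => ?_
  have c1 : A.val (cs n α' β' m i) = cs n α β m i :=
    (cs_map (A.val : A →+* ℂ) n α' β' m i).trans (hα ▸ cs_congr hR.n0 _ hβ' m i hi)
  have c2 : φ (cs n α' β' m i) = cs n (φ α') (fun i => φ (β' i)) m i :=
    cs_map (φ : A →+* L) n α' β' m i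
  rw [← c2]
  refine (key m i hi).imp (fun k => ?_) fun ⟨k, hk⟩ => ⟨k, ?_⟩
  · rw [vi (c1.trans (k.trans (map_zero _).symm)), map_zero]
  · rw [← fu_map, ← map_pow, ← map_pow, ← map_pow, ← map_mul, ← map_mul, ← map_mul, ← map_mul]
    refine congrArg φ (vi ?_)
    simp only [map_mul, map_pow, fu_map, hα, hτ, hδ, hs, hv, c1, hr' i _ hi, hk]

end

end Pool.Agent.Lib.MP_5591bc_ag.Rg
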