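import Pool.Agent.Lib.MP_5591bc_ag.Rg.Set

/-! Holomorphic functions of moderate growth are rational. -/

namespace Pool.Agent.Lib.MP_5591bc_ag.Rg

open Matrix Filter Topology Metric Polynomial G R W M A B

noncomputable section

theorem mero_ge (r : ℝ) : ∀ᶠ u in cocompact ℂ, r ≤ ‖u‖ :=
  (tendsto_norm_cocompact_atTop (E := ℂ)).eventually (eventually_ge_atTop r)

theorem mero_ent (N : ℕ) : ∀ (f : ℂ → ℂ) (c : ℝ), Differentiable ℂ f →
    (∀ᶠ u in cocompact ℂ, ‖f u‖ ≤ c * ‖u‖ ^ N) → ∃ p : ℂ[X], ∀ u, f u = p.eval u := by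
  induction N with
  | zero =>
    intro f c hf h
    obtain ⟨K, hK, hs⟩ := mem_cocompact.1 h
    have hb : Bornology.IsBounded (Set.range f) := by
      have h1 : Bornology.IsBounded (f '' K) := (hK.image hf.continuous).isBounded
      refine (h1.union (isBounded_closedBall (x := (0 : ℂ)) (r := c))).subset ?_
      rintro _ ⟨u, rfl⟩
      by_cases hu : u ∈ K
      · exact Or.inl ⟨u, hu, rfl⟩
      · have := hs hu
        exact Or.inr (by simpa using this)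
    obtain ⟨a, ha⟩ := hf.exists_const_forall_eq_of_bounded hb
    exact ⟨Polynomial.C a, fun u => by simp [ha u]⟩
  | succ N ih =>
    intro f c hf h
    have e : ∀ u, f u = f 0 + u * dslope f 0 u := fun u => by
      have := sub_smul_dslope f 0 u
      simp only [sub_zero, smul_eq_mul] at this
      rw [this]; ring
    have hd : Differentiable ℂ (dslope f 0) :=
      differentiableOn_univ.1
        ((Complex.differentiableOn_dslope (c := 0) univ_mem).2 hf.differentiableOn)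
    obtain ⟨p, hp⟩ := ih (dslope f 0) (c + ‖f 0‖) hd (by
      filter_upwards [h, mero_ge 1] with u h1 h2
      have h0 : 0 < ‖u‖ := lt_of_lt_of_le one_pos h2
      have h3 : ‖u‖ * ‖dslope f 0 u‖ ≤ ‖f u‖ + ‖f 0‖ := by
        rw [← norm_mul]
        have : u * dslope f 0 u = f u - f 0 := by rw [e u]; ring
        rw [this]; exact norm_sub_le _ _
      have h4 : (1 : ℝ) ≤ ‖u‖ ^ (N + 1) := one_le_pow₀ h2
      have h5 : ‖f 0‖ ≤ ‖f 0‖ * ‖u‖ ^ (N + 1) := le_mul_of_one_le_right (norm_nonneg _) h4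
      refine le_of_mul_le_mul_left ?_ h0
      calc ‖u‖ * ‖dslope f 0 u‖ ≤ c * ‖u‖ ^ (N + 1) + ‖f 0‖ * ‖u‖ ^ (N + 1) := by linarith
        _ = ‖u‖ * ((c + ‖f 0‖) * ‖u‖ ^ N) := by ring)
    exact ⟨Polynomial.C (f 0) + Polynomial.X * p, fun u => by rw [e u, hp u]; simp⟩

theorem ent_poly {f : ℂ → ℂ} (hf : Differentiable ℂ f) {N : ℕ}
    (h : ∀ᶠ u in cocompact ℂ, ‖f u‖ ≤ ‖u‖ ^ N) : ∃ p : ℂ[X], ∀ u, f u = p.eval u :=
  mero_ent N f 1 hf (by simpa using h)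

theorem mero_off (Z : Finset ℂ) (s : ℂ) : ∀ᶠ u in 𝓝[≠] s, u ∉ Z := by
  have h : ((Z.erase s : Finset ℂ) : Set ℂ)ᶜ ∈ 𝓝 s :=
    (Z.erase s).finite_toSet.isClosed.isOpen_compl.mem_nhds (by simp)
  filter_upwards [mem_nhdsWithin_of_mem_nhds h, self_mem_nhdsWithin] with u h1 h2 h3
  exact h1 (Finset.mem_coe.2 (Finset.mem_erase.2 ⟨h2, h3⟩))

theorem mero {Z : Finset ℂ} {f : ℂ → ℂ} (hf : ∀ u ∉ Z, DifferentiableAt ℂ f u)
    (h1 : ∀ s ∈ Z, ∃ N : ℕ, ∀ᶠ u in 𝓝[≠] s, ‖f u‖ * ‖u - s‖ ^ N ≤ 1)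
    (h2 : ∃ N : ℕ, ∀ᶠ u in cocompact ℂ, ‖f u‖ ≤ ‖u‖ ^ N) :
    ∃ (N : ℕ) (p : ℂ[X]), ∀ u ∉ Z, (∏ s ∈ Z, (u - s)) ^ N * f u = p.eval u := by
  classical
  choose! n hn using h1
  obtain ⟨M, hM⟩ := h2
  set N := Z.sup n + 1 with hN
  have hq : Differentiable ℂ fun u : ℂ => (∏ s ∈ Z, (u - s)) ^ N := by fun_prop
  have hoff : ∀ u ∉ Z, DifferentiableAt ℂ (fun u => (∏ s ∈ Z, (u - s)) ^ N * f u) u :=
    fun u hu => (hq u).mul (hf u hu)
  have hd : Differentiable ℂ fun u => (∏ s ∈ Z, (u - s)) ^ N * f u := by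
    intro s
    by_cases hs : s ∈ Z
    swap
    · exact hoff s hs
    refine (Complex.analyticAt_of_differentiable_on_punctured_nhds_of_continuousAt
      ((mero_off Z s).mono hoff) ?_).differentiableAt
    obtain ⟨k, hk⟩ : ∃ k, N = n s + (k + 1) := by
      have := Finset.le_sup (f := n) hs
      exact ⟨Z.sup n - n s, by omega⟩
    have h0 : (∏ t ∈ Z, (s - t)) ^ N * f s = 0 := by
      rw [Finset.prod_eq_zero hs (sub_self s), hN]; simp
    rw [← continuousWithinAt_compl_self, ContinuousWithinAt, h0]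
    have hc : Continuous fun u : ℂ => ‖∏ t ∈ Z.erase s, (u - t)‖ ^ N * ‖u - s‖ ^ (k + 1) := by
      fun_prop
    have ht : Tendsto (fun u : ℂ => ‖∏ t ∈ Z.erase s, (u - t)‖ ^ N * ‖u - s‖ ^ (k + 1))
        (𝓝[≠] s) (𝓝 0) := by
      have := (hc.tendsto s).mono_left (nhdsWithin_le_nhds (s := {s}ᶜ))
      simpa using this
    refine squeeze_zero_norm' ?_ ht
    filter_upwards [hn s hs] with u hu
    rw [← Finset.mul_prod_erase Z _ hs, norm_mul, norm_pow, norm_mul, mul_pow]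
    have e : ‖u - s‖ ^ N = ‖u - s‖ ^ n s * ‖u - s‖ ^ (k + 1) := by rw [hk, pow_add]
    rw [e]
    calc ‖u - s‖ ^ n s * ‖u - s‖ ^ (k + 1) * ‖∏ t ∈ Z.erase s, (u - t)‖ ^ N * ‖f u‖
        = (‖∏ t ∈ Z.erase s, (u - t)‖ ^ N * ‖u - s‖ ^ (k + 1)) * (‖f u‖ * ‖u - s‖ ^ n s) := by
          ring
      _ ≤ (‖∏ t ∈ Z.erase s, (u - t)‖ ^ N * ‖u - s‖ ^ (k + 1)) * 1 :=
          mul_le_mul_of_nonneg_left hu (by positivity)
      _ = _ := mul_one _
  obtain ⟨p, hp⟩ := mero_ent (Z.card * N + M) _ ((2 ^ Z.card) ^ N) hd (by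
    have hz : ∀ᶠ u in cocompact ℂ, ∀ s ∈ Z, ‖s‖ ≤ ‖u‖ :=
      (eventually_all_finset Z).2 fun s _ => mero_ge _
    filter_upwards [hM, hz] with u h3 h4
    have h5 : ‖∏ s ∈ Z, (u - s)‖ ≤ (2 * ‖u‖) ^ Z.card := by
      rw [norm_prod, ← Finset.prod_const]
      refine Finset.prod_le_prod (fun _ _ => norm_nonneg _) fun s hs => ?_
      have := norm_sub_le u s
      linarith [h4 s hs]
    rw [norm_mul, norm_pow]
    calc ‖∏ s ∈ Z, (u - s)‖ ^ N * ‖f u‖ ≤ ((2 * ‖u‖) ^ Z.card) ^ N * ‖u‖ ^ M := by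
          gcongr
      _ = _ := by rw [mul_pow, mul_pow, pow_add ‖u‖, pow_mul ‖u‖, mul_assoc])
  exact ⟨N, p, fun u _ => hp u⟩

end

end Pool.Agent.Lib.MP_5591bc_ag.Rg
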