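import Pool.Agent.Lib.MP_5591bc_ag.Rg.Set
import Pool.Agent.Lib.MP_5591bc_ag.B.VhC
import Pool.Agent.Lib.MP_5591bc_ag.A.ChevA
import Pool.Agent.Lib.MP_5591bc_ag.A.Rep
import Pool.Agent.Lib.MP_5591bc_ag.A.Chev
import Pool.Agent.Lib.MP_5591bc_ag.A.Lap

/-! The orbit of a Hodge class is finite. -/

namespace Pool.Agent.Lib.MP_5591bc_ag.Rg

open Matrix Filter Topology Metric Polynomial G R W M A B

noncomputable section

variable {μ : Type*} [Fintype μ] [DecidableEq μ] {r δ : ℕ}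

omit [Fintype μ] in
/-- the entries of `rW r δ γ` have a common denominator -/
theorem orb_den {D : ℕ} {g : Matrix μ μ ℚ} (hD : ∀ i j, ∃ n : ℤ, (D : ℚ) * g i j = n)
    (a x : Fin r → Mo δ μ) : ∃ n : ℤ, ((D : ℚ) ^ δ) ^ r * rW r δ g a x = n := by
  have : ∀ o o', ∃ n : ℤ, (D : ℚ) * exg 1 g o o' = n := by
    rintro (_ | ⟨p, q⟩) (_ | ⟨p', q'⟩)
    · exact ⟨D, by simp [exg]⟩
    · exact ⟨0, by simp [exg]⟩
    · exact ⟨0, by simp [exg]⟩
    · by_cases e : q = q'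
      · simpa [exg, e] using hD p p'
      · exact ⟨0, by simp [exg, e]⟩
  choose n hn using this
  refine ⟨∏ i, ∏ j, n (a i j) (x i j), ?_⟩
  simp only [Int.cast_prod, ← hn, Finset.prod_mul_distrib, Finset.prod_const,
    Finset.card_univ, Fintype.card_fin, rW, piM, of_apply]

/-- bounded norm and bounded denominator -/
theorem orb_fin {Γ : Set (Matrix μ μ ℚ)} (hΓ : Grp Γ) (e : (Fin r → Mo δ μ) → ℚ)
    {S : Matrix μ μ ℝ} (hS : S.PosDef) {κ : ℝ} (h : ∀ γ ∈ Γ, ((fun a => (e a : ℝ)) ⬝ᵥ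
      rW r δ ((qr γ)ᵀ * S * qr γ) *ᵥ fun a => (e a : ℝ)) = κ) :
    {x | ∃ γ ∈ Γ, x = rW r δ γ *ᵥ e}.Finite := by
  classical
  obtain ⟨m, d, hr⟩ := rep_rW (ν := μ) r δ
  have hA := hr.pd hS
  obtain ⟨D, D0, hD⟩ := hΓ.den
  obtain ⟨E, E0, hE⟩ : ∃ E : ℕ, 0 < E ∧ ∀ x, ∃ n : ℤ, (E : ℚ) * e x = n := by
    refine ⟨∏ x, (e x).den, Finset.prod_pos fun x _ => (e x).pos, fun x => ?_⟩
    refine ⟨(∏ y ∈ Finset.univ.erase x, (e y).den : ℕ) * (e x).num, ?_⟩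
    rw [← Finset.prod_erase_mul _ _ (Finset.mem_univ x), Nat.cast_mul, mul_assoc,
      Rat.den_mul_eq_num]
    simp
  obtain ⟨N, hN⟩ : ∃ N : ℚ, N = ((D : ℚ) ^ δ) ^ r * E := ⟨_, rfl⟩
  have N0 : N ≠ 0 := by rw [hN]; positivity
  have bd : ∀ a, ∃ M : ℝ, ∀ γ ∈ Γ, (((rW r δ γ *ᵥ e) a : ℚ) : ℝ) ^ 2 ≤ M := fun a => by
    refine ⟨κ * (((rW r δ S)⁻¹ *ᵥ Pi.single a 1) ⬝ᵥ rW r δ S *ᵥ (rW r δ S)⁻¹ *ᵥ Pi.single a 1),
      fun γ hγ => ?_⟩
    have h1 := lap_cs hA.posSemidef (rW r δ (qr γ) *ᵥ fun a => (e a : ℝ))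
      ((rW r δ S)⁻¹ *ᵥ Pi.single a 1)
    have h2 := h γ hγ
    have h3 : rW r δ (qr γ)ᵀ = (rW r δ (qr γ))ᵀ := hr.tr _
    rw [rW_mul, rW_mul, h3, ← mulVec_mulVec, ← mulVec_mulVec, dotProduct_mulVec,
      vecMul_transpose] at h2
    rw [h2] at h1
    refine le_trans (le_of_eq ?_) h1
    rw [mulVec_mulVec, mul_nonsing_inv _ ((isUnit_iff_isUnit_det _).1 hA.isUnit), one_mulVec,
      dotProduct_single_one, chev_qr]
  choose M hM using bd
  refine (Set.Finite.pi' fun a => (Set.finite_Icc (-⌈(N : ℝ) ^ 2 * M a⌉) ⌈(N : ℝ) ^ 2 * M a⌉).image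
    fun n : ℤ => (n : ℚ) / N).subset ?_
  rintro _ ⟨γ, hγ, rfl⟩ a
  choose n hn using orb_den (r := r) (δ := δ) (hD γ hγ) a
  choose k hk using hE
  have h1 : N * (rW r δ γ *ᵥ e) a = (∑ x, n x * k x : ℤ) := by
    simp only [mulVec, dotProduct, Finset.mul_sum, Int.cast_sum, Int.cast_mul, ← hn, ← hk, hN]
    exact Finset.sum_congr rfl fun x _ => by ring
  generalize ∑ x, n x * k x = q at h1
  refine ⟨q, abs_le.1 ?_, by simp only [← h1]; field_simp⟩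
  have h2 : ((q ^ 2 : ℤ) : ℝ) ≤ (N : ℝ) ^ 2 * M a := by
    have h3 : (q : ℝ) = N * (((rW r δ γ *ᵥ e) a : ℚ) : ℝ) := by exact_mod_cast h1.symm
    rw [Int.cast_pow, h3, mul_pow]
    exact mul_le_mul_of_nonneg_left (hM a γ hγ) (sq_nonneg _)
  have h4 : q ^ 2 ≤ ⌈(N : ℝ) ^ 2 * M a⌉ := by exact_mod_cast h2.trans (Int.le_ceil _)
  exact ((Int.le_self_sq _).trans_eq (sq_abs q)).trans h4

/-- the fourth power of `hH (-I)` is `1`, so the continuous vector takes finitely many values -/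
theorem orb_const {J : Matrix μ μ ℝ} {j : ℕ} {w : μ → ℕ} {Y : ℂ → Matrix μ μ ℂ}
    (hY : ∀ᶠ u in 𝓝 (0 : ℂ), VH J j w Y u) (e : (Fin r → Mo δ μ) → ℚ)
    (h : ∀ᶠ u in 𝓝 (0 : ℂ), ∃ c : ℂ, (rW r δ (cx (hH J j w (-Complex.I) (Y u))) *ᵥ
      fun a => (e a : ℂ)) = c • fun a => (e a : ℂ)) :
    ∀ᶠ u in 𝓝 (0 : ℂ), (rW r δ (hH J j w (-Complex.I) (Y u)) *ᵥ fun a => (e a : ℝ)) =
      rW r δ (hH J j w (-Complex.I) (Y 0)) *ᵥ fun a => (e a : ℝ) := by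
  classical
  obtain ⟨m, d, hr⟩ := rep_rW (ν := μ) r δ
  refine (eventually_all.2 fun a => ?_).mono fun u hu => funext hu
  have hc : ContinuousAt (fun u => (rW r δ (hH J j w (-Complex.I) (Y u)) *ᵥ
      fun a => (e a : ℝ)) a) 0 := by
    simp only [mulVec, dotProduct]
    exact tendsto_finsetSum _ fun x _ =>
      ((hr.an _ 0 (vc_anh hY.self_of_nhds (-Complex.I)) a x).continuousAt).mul continuousAt_const
  have fin : (({(e a : ℝ), -(e a : ℝ)} : Set ℝ) \ {(rW r δ (hH J j w (-Complex.I) (Y 0)) *ᵥ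
      fun a => (e a : ℝ)) a}).Finite := (Set.toFinite _).sdiff
  filter_upwards [hc.eventually (fin.isClosed.isOpen_compl.mem_nhds fun k => k.2 rfl), hY, h]
    with u h1 h2 ⟨c, h3⟩
  by_contra h4
  refine h1 ⟨?_, h4⟩
  have e1 : (fun a => (e a : ℂ)) = fun a => (((fun a => (e a : ℝ)) a : ℝ) : ℂ) := by
    funext a
    simp
  have e2 : ∀ z z' : ℂ, rW r δ (cx (hH J j w z (Y u))) * rW r δ (cx (hH J j w z' (Y u))) =
      rW r δ (cx (hH J j w (z * z') (Y u))) := fun z z' => by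
    rw [← rW_mul, ← cxa_mul, hH_mul h2.hs]
  have e3 : -Complex.I * (-Complex.I * (-Complex.I * -Complex.I)) = 1 := by
    linear_combination (Complex.I ^ 2 - 1) * Complex.I_sq
  have e4 : (rW r δ (cx (hH J j w (-Complex.I * (-Complex.I * (-Complex.I * -Complex.I))) (Y u))) *ᵥ
      fun a => (e a : ℂ)) = c ^ 4 • fun a => (e a : ℂ) := by
    simp only [← e2, ← mulVec_mulVec, h3, mulVec_smul, smul_smul]
    congr 1
    ring
  rw [e3, hH_one h2.hs, show cx (1 : Matrix μ μ ℝ) = 1 from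
    Matrix.map_one _ Complex.ofReal_zero Complex.ofReal_one, rW_one, one_mulVec] at e4
  have e5 := congrFun e4 a
  rw [e1, chev_cx] at h3
  have e6 := congrFun h3 a
  simp only [Pi.smul_apply, smul_eq_mul, Complex.ofReal_ratCast] at e5 e6
  have e7 : (rW r δ (hH J j w (-Complex.I) (Y u)) *ᵥ fun a => (e a : ℝ)) a ^ 4 = (e a : ℝ) ^ 4 := by
    apply Complex.ofReal_injective
    rw [Complex.ofReal_pow, Complex.ofReal_pow, e6, Complex.ofReal_ratCast]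
    linear_combination (-(e a : ℂ) ^ 3) * e5
  rcases (pow_eq_pow_iff_of_ne_zero four_ne_zero).1 e7 with k | k
  exacts [Or.inl k, Or.inr k.1]

end

end Pool.Agent.Lib.MP_5591bc_ag.Rg
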