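import Pool.Agent.Lib.MP_5591bc_ag.Rg.Set

/-! Orders and leading coefficients. -/

namespace Pool.Agent.Lib.MP_5591bc_ag.Rg

open Matrix Filter Topology Metric Polynomial G R W M A B

noncomputable section

variable {S : Type*} [CommRing S] {e : ℤ} {f g : S[X]} {x y : ℚ}

theorem ord_C (c : S) : Ord e (C c) 0 := fun k hk =>
  coeff_C_of_ne_zero fun k0 => by simp [k0] at hk

theorem ord_inj (he : e = 1 ∨ e = -1) {i j : ℕ} (h : (e : ℚ) * i = e * j) : i = j := by
  rcases he with rfl | rfl <;> simpa using h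

theorem ord_lc (he : e = 1 ∨ e = -1) (f : S[X]) (k : ℕ) : lc e f (e * k) = f.coeff k := by
  rw [lc, Finset.sum_eq_single k (fun i _ ne => if_neg fun c => ne (ord_inj he c))
    fun c => by rw [notMem_support_iff.1 c, ite_self], if_pos rfl]

theorem ord_lc0 (h : ¬ ∃ k : ℕ, (e : ℚ) * k = x) (f : S[X]) : lc e f x = 0 :=
  Finset.sum_eq_zero fun i _ => if_neg fun c => h ⟨i, c⟩

theorem Ord.mono (h : Ord e f y) (k : x ≤ y) : Ord e f x := by
  exact fun i hi => h i (hi.trans_le k)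

theorem Ord.add (h : Ord e f x) (h' : Ord e g x) : Ord e (f + g) x := by
  intro i hi
  rw [coeff_add, h i hi, h' i hi, add_zero]

theorem Ord.sub (h : Ord e f x) (h' : Ord e g x) : Ord e (f - g) x := by
  intro i hi
  rw [coeff_sub, h i hi, h' i hi, sub_zero]

theorem Ord.mul (h : Ord e f x) (h' : Ord e g y) : Ord e (f * g) (x + y) := by
  intro k hk
  rw [coeff_mul]
  refine Finset.sum_eq_zero fun c hc => ?_
  have e1 : (k : ℚ) = c.1 + c.2 := by
      exact_mod_cast (Finset.HasAntidiagonal.mem_antidiagonal.1 hc).symm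
  by_cases h1 : (e : ℚ) * c.1 < x
  · rw [h _ h1, zero_mul]
  · rw [h' c.2 (by rw [e1, mul_add] at hk; linarith), mul_zero]

theorem Ord.pow (h : Ord e f x) (m : ℕ) : Ord e (f ^ m) (x * m) := by
  induction m with
  | zero => simpa using ord_C (e := e) (1 : S)
  | succ m ih =>
    rw [pow_succ, Nat.cast_succ, mul_add_one]
    exact ih.mul h

theorem Ord.der (h : Ord e f x) : Ord e (derivative f) (x - e) := by
  intro k hk
  rw [coeff_derivative, h (k + 1) (by push_cast; linarith), zero_mul]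

theorem Ord.nat (m : ℕ) : Ord e (m : S[X]) 0 := by
  simpa using ord_C (e := e) (m : S)

theorem lc_add (he : e = 1 ∨ e = -1) (f g : S[X]) (x : ℚ) :
    lc e (f + g) x = lc e f x + lc e g x := by
  by_cases h : ∃ k : ℕ, (e : ℚ) * k = x
  · obtain ⟨k, rfl⟩ := h
    simp only [ord_lc he, coeff_add]
  · simp only [ord_lc0 h, add_zero]

theorem lc_sub (he : e = 1 ∨ e = -1) (f g : S[X]) (x : ℚ) :
    lc e (f - g) x = lc e f x - lc e g x := by
  by_cases h : ∃ k : ℕ, (e : ℚ) * k = x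
  · obtain ⟨k, rfl⟩ := h
    simp only [ord_lc he, coeff_sub]
  · simp only [ord_lc0 h, sub_zero]

theorem lc_lt (h : Ord e f y) (k : x < y) : lc e f x = 0 := by
  refine Finset.sum_eq_zero fun i _ => ?_
  split_ifs with c
  · exact h i (c ▸ k)
  · rfl

theorem lc_coeff (he : e = 1 ∨ e = -1) (f : S[X]) (k : ℕ) : lc e f (e * k) = f.coeff k := by
  exact ord_lc he f k

theorem lc_cases (he : e = 1 ∨ e = -1) (f : S[X]) (x : ℚ) :
    lc e f x = 0 ∨ ∃ k : ℕ, lc e f x = f.coeff k := by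
  by_cases h : ∃ k : ℕ, (e : ℚ) * k = x
  · obtain ⟨k, rfl⟩ := h
    exact .inr ⟨k, ord_lc he f k⟩
  · exact .inl (ord_lc0 h f)

theorem lc_mul (he : e = 1 ∨ e = -1) (h : Ord e f x) (h' : Ord e g y) :
    lc e (f * g) (x + y) = lc e f x * lc e g y := by
  have key : ∀ k : ℕ, (e : ℚ) * k = x + y → ∀ c ∈ Finset.HasAntidiagonal.antidiagonal k,
      ¬ ((e : ℚ) * c.1 = x ∧ (e : ℚ) * c.2 = y) → f.coeff c.1 * g.coeff c.2 = 0 := by
    intro k hk c hc hn
    have e1 : (k : ℚ) = c.1 + c.2 := by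
      exact_mod_cast (Finset.HasAntidiagonal.mem_antidiagonal.1 hc).symm
    rw [e1, mul_add] at hk
    rcases lt_trichotomy ((e : ℚ) * c.1) x with h1 | h1 | h1
    · rw [h _ h1, zero_mul]
    · exact absurd ⟨h1, by linarith⟩ hn
    · rw [h' c.2 (by linarith), mul_zero]
  by_cases hx : (∃ k : ℕ, (e : ℚ) * k = x) ∧ ∃ k : ℕ, (e : ℚ) * k = y
  · obtain ⟨⟨i, rfl⟩, j, rfl⟩ := hx
    have e1 : (e : ℚ) * i + e * j = e * ((i + j : ℕ) : ℚ) := by push_cast; ring
    rw [e1, ord_lc he, ord_lc he, ord_lc he, coeff_mul]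
    exact Finset.sum_eq_single_of_mem (i, j) (Finset.HasAntidiagonal.mem_antidiagonal.2 rfl)
      fun c hc ne => key _ e1.symm c hc fun k => ne (Prod.ext (ord_inj he k.1) (ord_inj he k.2))
  · have e1 : lc e f x * lc e g y = 0 :=
      (not_and_or.1 hx).elim (fun k => by rw [ord_lc0 k, zero_mul]) fun k => by
        rw [ord_lc0 k, mul_zero]
    rw [e1]
    by_cases hk : ∃ k : ℕ, (e : ℚ) * k = x + y
    · obtain ⟨k, hk⟩ := hk
      rw [← hk, ord_lc he, coeff_mul]
      exact Finset.sum_eq_zero fun c hc => key k hk c hc fun k => hx ⟨⟨_, k.1⟩, _, k.2⟩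
    · exact ord_lc0 hk _

theorem lc_pow (he : e = 1 ∨ e = -1) (h : Ord e f x) (m : ℕ) :
    lc e (f ^ m) (x * m) = lc e f x ^ m := by
  induction m with
  | zero => simpa using ord_lc he (1 : S[X]) 0
  | succ m ih => rw [pow_succ, Nat.cast_succ, mul_add_one, lc_mul he (h.pow m) h, ih, pow_succ]

theorem ord_ex (he : e = 1 ∨ e = -1) (f0 : f ≠ 0) :
    ∃ k : ℕ, Ord e f (e * k) ∧ lc e f (e * k) ≠ 0 := by
  rcases he with rfl | rfl
  · refine ⟨f.natTrailingDegree, fun k hk => coeff_eq_zero_of_lt_natTrailingDegree ?_, ?_⟩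
    · simpa using hk
    · rw [ord_lc (.inl rfl)]
      exact trailingCoeff_nonzero_iff_nonzero.2 f0
  · refine ⟨f.natDegree, fun k hk => coeff_eq_zero_of_natDegree_lt ?_, ?_⟩
    · simpa using hk
    · rw [ord_lc (.inr rfl)]
      exact leadingCoeff_ne_zero.2 f0

theorem Ord.cancel [IsDomain S] (he : e = 1 ∨ e = -1) (h : Ord e f x) (h0 : lc e f x ≠ 0)
    (h' : Ord e (f * g) (x + y)) : Ord e g y := by
  by_cases g0 : g = 0
  · exact fun k _ => by rw [g0, coeff_zero]
  obtain ⟨k, k1, k2⟩ := ord_ex he g0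
  refine k1.mono (not_lt.1 fun c => mul_ne_zero h0 k2 ?_)
  rw [← lc_mul he h k1]
  exact lc_lt h' (by linarith)

end

end Pool.Agent.Lib.MP_5591bc_ag.Rg
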