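import Pool.Agent.Lib.MP_5591bc_ag.Rg.Linv

/-! The scalar equation of a coordinate. -/

namespace Pool.Agent.Lib.MP_5591bc_ag.Rg

open Matrix Filter Topology Metric Polynomial G R W M A B

noncomputable section

variable {S ν : Type*} [CommRing S] [Fintype ν] [DecidableEq ν] {t a0 : S[X]} {b : Matrix ν ν S[X]}
  {x : ν} {n : ℕ} {a : ℕ → S[X]}

/-- `n` is the least number such that the rows `t ^ (n - i) • iterK t b i x`, `i ≤ n`, are dependent -/
theorem rel_ex {t : ℂ[X]} (t0 : t ≠ 0) (b : Matrix ν ν ℂ[X]) (x : ν) :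
    ∃ (n : ℕ) (a0 : ℂ[X]) (a : ℕ → ℂ[X]) (r : ℕ → ν → ℂ[X]) (D : ℂ[X]), Rel t b x n a0 a ∧ D ≠ 0 ∧
      ∀ i < n, ∀ j < n, (t ^ (n - i) • iterK t b i x) ⬝ᵥ r j = if i = j then D else 0 := by
  have ex : ∃ n : ℕ, ¬ LinearIndependent ℂ[X] fun i : Fin (n + 1) => iterK t b i x :=
    ⟨Fintype.card ν, fun h => by simpa using h.fintype_card_le_finrank⟩
  classical
  have h1 := Nat.find_spec ex
  have h2 := fun m => Nat.find_min ex (m := m)
  generalize Nat.find ex = n at h1 h2
  rcases n with _ | k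
  · refine absurd ((linearIndependent_unique_iff (ι := Fin 1)).2 fun e => ?_) h1
    simpa [iterK] using congrFun e x
  have li := not_not.1 (h2 k k.lt_succ_self)
  obtain ⟨g, hg, i0, hi0⟩ := Fintype.not_linearIndependent_iff.1 h1
  rw [Fin.sum_univ_castSucc] at hg
  have g0 : g (Fin.last _) ≠ 0 := fun e => by
    rw [e, zero_smul, add_zero] at hg
    refine hi0 (Fin.lastCases e (fun i => ?_) i0)
    exact Fintype.linearIndependent_iff.1 li (fun i => g i.castSucc) hg i
  obtain ⟨r, D, D0, hr⟩ := linv li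
  refine ⟨k + 1, t ^ (k + 1) * g (Fin.last _),
    fun i => if h : i < k + 1 then -(g (Fin.castSucc ⟨i, h⟩) * t ^ i) else 0,
    fun j => if h : j < k + 1 then t ^ j • ⇑(r ⟨j, h⟩) else 0, t ^ (k + 1) * D,
    ⟨k.succ_pos, mul_ne_zero (pow_ne_zero _ t0) g0, ?_⟩, mul_ne_zero (pow_ne_zero _ t0) D0,
    fun i hi j hj => ?_⟩
  · rw [mul_smul, Finset.sum_range]
    refine (congrArg _ (eq_neg_of_add_eq_zero_right hg)).trans ?_
    rw [smul_neg, Finset.smul_sum, ← Finset.sum_neg_distrib]
    refine Finset.sum_congr rfl fun i _ => ?_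
    rw [dif_pos i.2, neg_mul, mul_assoc, ← pow_add, Nat.add_sub_cancel' i.2.le, neg_smul, smul_smul,
      mul_comm]
    rfl
  · have e := hr ⟨i, hi⟩ ⟨j, hj⟩
    rw [Finsupp.sum_fintype _ _ fun _ => zero_mul _] at e
    have e' : iterK t b i x ⬝ᵥ ⇑(r ⟨j, hj⟩) = if i = j then D else 0 := by
      simpa only [dotProduct, mul_comm, Fin.mk.injEq] using e
    beta_reduce
    rw [dif_pos hj, smul_dotProduct, dotProduct_smul, e']
    split_ifs with h
    · rw [smul_smul, ← pow_add, ← h, Nat.sub_add_cancel hi.le, smul_eq_mul]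
    · simp

theorem rel_op (t : S[X]) (b : Matrix ν ν S[X]) (x : ν) :
    ∃ L : (ν → S[X]) →+ (ν → S[X]), (∀ (f : S[X]) w, L (f • w) = (t * derivative f) • w + f • L w) ∧
      ∀ i, L (iterK t b i x) = iterK t b (i + 1) x + ((i : S[X]) * derivative t) • iterK t b i x := by
  refine ⟨AddMonoidHom.mk' (fun w => (fun y => t * derivative (w y)) + w ᵥ* b) fun v w => ?_,
    fun f w => ?_, fun i => ?_⟩
  · funext y
    simp only [Pi.add_apply, map_add, add_vecMul]
    ring
  · funext y
    simp only [AddMonoidHom.mk'_apply, Pi.add_apply, Pi.smul_apply, smul_eq_mul, derivative_mul,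
      smul_vecMul]
    ring
  · funext y
    simp only [AddMonoidHom.mk'_apply, Pi.add_apply, Pi.smul_apply, smul_eq_mul, iterK,
      Matrix.add_apply, Matrix.sub_apply, Matrix.smul_apply, map_apply, mul_apply, vecMul,
      dotProduct]
    ring

theorem rel_pow (f : S[X]) (m : ℕ) : f * derivative (f ^ m) = m * derivative f * f ^ m := by
  induction m with
  | zero => simp
  | succ m ih =>
    rw [pow_succ, derivative_mul]
    push_cast
    linear_combination f * ih

/-- apply `a0 t d + a0 (· ᵥ* b) - (m a0' t + (n + m) a0 t')` to both sides -/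
theorem rel_iter (h : Rel t b x n a0 a) (m : ℕ) : (a0 ^ m * t ^ n) • iterK t b m x =
    ∑ i ∈ Finset.range n, (t ^ m * Qs n a0 a m i * t ^ (n - i)) • iterK t b i x := by
  obtain ⟨L, L1, L2⟩ := rel_op t b x
  obtain ⟨k, rfl⟩ := Nat.exists_eq_succ_of_ne_zero h.n0.ne'
  induction m with
  | zero =>
    rw [Finset.sum_range_succ']
    simp [Qs]
  | succ m ih =>
    have e := congrArg (fun w => a0 • L w - ((m : S[X]) * derivative a0 * t +
      ((k + 1 + m : ℕ) : S[X]) * a0 * derivative t) • w) ih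
    have e1 : ∀ i ∈ Finset.range (k + 1),
        a0 • L ((t ^ m * Qs (k + 1) a0 a m i * t ^ (k + 1 - i)) • iterK t b i x) -
          ((m : S[X]) * derivative a0 * t + ((k + 1 + m : ℕ) : S[X]) * a0 * derivative t) •
            (t ^ m * Qs (k + 1) a0 a m i * t ^ (k + 1 - i)) • iterK t b i x =
        (t ^ (m + 1) * (a0 * derivative (Qs (k + 1) a0 a m i) - (m : S[X]) * derivative a0 *
          Qs (k + 1) a0 a m i) * t ^ (k + 1 - i)) • iterK t b i x +
        (t ^ (m + 1) * (a0 * Qs (k + 1) a0 a m i) * t ^ (k - i)) • iterK t b (i + 1) x := by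
      intro i hi
      obtain ⟨j, rfl⟩ := Nat.exists_eq_add_of_le (Nat.lt_succ_iff.1 (Finset.mem_range.1 hi))
      rw [L1, L2, show i + j + 1 - i = j + 1 by omega, Nat.add_sub_cancel_left]
      have p1 := rel_pow t m
      have p2 := rel_pow t (j + 1)
      funext y
      simp only [Pi.add_apply, Pi.sub_apply, Pi.smul_apply, smul_eq_mul, derivative_mul]
      push_cast at p2 ⊢
      linear_combination (a0 * Qs (i + j + 1) a0 a m i * iterK t b i x y) *
        (t ^ (j + 1) * p1 + t ^ m * p2)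
    have e2 : a0 • L ((a0 ^ m * t ^ (k + 1)) • iterK t b m x) -
        ((m : S[X]) * derivative a0 * t + ((k + 1 + m : ℕ) : S[X]) * a0 * derivative t) •
          (a0 ^ m * t ^ (k + 1)) • iterK t b m x =
        (a0 ^ (m + 1) * t ^ (k + 1)) • iterK t b (m + 1) x := by
      rw [L1, L2]
      have p1 := rel_pow a0 m
      have p2 := rel_pow t (k + 1)
      funext y
      simp only [Pi.add_apply, Pi.sub_apply, Pi.smul_apply, smul_eq_mul, derivative_mul]
      push_cast at p2 ⊢
      linear_combination iterK t b m x y * (t * t ^ (k + 1) * p1 + a0 * a0 ^ m * p2)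
    simp only [Nat.succ_eq_add_one] at e h ⊢
    rw [e2, map_sum, Finset.smul_sum, Finset.smul_sum, ← Finset.sum_sub_distrib,
      Finset.sum_congr rfl e1, Finset.sum_add_distrib,
      Finset.sum_range_succ (fun i => _ • iterK t b (i + 1) x) k] at e
    have e3 : (t ^ (m + 1) * (a0 * Qs (k + 1) a0 a m k) * t ^ (k - k)) • iterK t b (k + 1) x =
        ∑ i ∈ Finset.range (k + 1), (t ^ (m + 1) * (Qs (k + 1) a0 a m k * a i) * t ^ (k + 1 - i)) •
          iterK t b i x := by
      rw [Nat.sub_self, pow_zero, mul_one, mul_comm a0, ← mul_assoc, mul_smul, h.eq, Finset.smul_sum]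
      refine Finset.sum_congr rfl fun i _ => ?_
      rw [smul_smul]
      congr 1
      ring
    have e4 : ∑ i ∈ Finset.range k, (t ^ (m + 1) * (a0 * Qs (k + 1) a0 a m i) * t ^ (k - i)) •
        iterK t b (i + 1) x = ∑ i ∈ Finset.range (k + 1), (t ^ (m + 1) *
          (if i = 0 then 0 else a0 * Qs (k + 1) a0 a m (i - 1)) * t ^ (k + 1 - i)) •
            iterK t b i x := by
      rw [Finset.sum_range_succ']
      simp
    rw [e, e3, e4, ← Finset.sum_add_distrib, ← Finset.sum_add_distrib]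
    refine Finset.sum_congr rfl fun i _ => ?_
    rw [← add_smul, ← add_smul, Qs]
    congr 1
    simp only [Nat.add_sub_cancel]
    ring

theorem iterK_mapR {S' : Type*} [CommRing S'] (φ : S →+* S') (t : S[X]) (b : Matrix ν ν S[X])
    (m : ℕ) : iterK (t.map φ) (b.map (Polynomial.map φ)) m =
      (iterK t b m).map (Polynomial.map φ) := by
  induction m with
  | zero => simp [iterK]
  | succ m ih =>
    ext1 i j
    simp [iterK, ih, mul_apply, Polynomial.map_sum]

end

end Pool.Agent.Lib.MP_5591bc_ag.Rg
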