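import Pool.Agent.Lib.MP_5591bc_ag.Rg.Defs
import Pool.Agent.Lib.MP_5591bc_ag.B.Set
import Pool.Agent.Lib.MP_5591bc_ag.RDefs

/-! Shared definitions for regular singularities. -/

namespace Pool.Agent.Lib.MP_5591bc_ag.Rg

open Matrix Filter Topology Metric Polynomial G R W M A B

noncomputable section

variable {K S σ ν : Type*} [CommRing S]

/-- restriction to a line -/
def ln [CommRing K] [Algebra K S] (s v : σ → S) : MvPolynomial σ K →ₐ[K] S[X] :=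
  MvPolynomial.aeval fun l => C (s l) + C (v l) * X

/-- the system on a line -/
def lB [CommRing K] [Algebra K S] [Fintype σ] (s v : σ → S)
    (B : σ → Matrix ν ν (MvPolynomial σ K)) : Matrix ν ν S[X] :=
  ∑ l, (C (v l) : S[X]) • (B l).map (ln s v)

/-- order at least `x` at `0` (`e = 1`) or at infinity (`e = -1`) -/
def Ord (e : ℤ) (f : S[X]) (x : ℚ) : Prop := ∀ k : ℕ, (e : ℚ) * k < x → f.coeff k = 0

/-- the coefficient of order `x` -/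
def lc (e : ℤ) (f : S[X]) (x : ℚ) : S := ∑ k ∈ f.support, if (e : ℚ) * k = x then f.coeff k else 0

/-- numerators of the higher derivatives -/
def Qs (n : ℕ) (a0 : S[X]) (a : ℕ → S[X]) : ℕ → ℕ → S[X]
  | 0 => fun i => if i = 0 then 1 else 0
  | m + 1 => fun i => a0 * derivative (Qs n a0 a m i) - (m : S[X]) * derivative a0 * Qs n a0 a m i +
      (if i = 0 then 0 else a0 * Qs n a0 a m (i - 1)) + Qs n a0 a m (n - 1) * a i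

/-- their leading coefficients -/
def cs (n : ℕ) (α : S) (β : ℕ → S) : ℕ → ℕ → S
  | 0 => fun i => if i = 0 then 1 else 0
  | m + 1 => fun i => (if i = 0 then 0 else α * cs n α β m (i - 1)) + cs n α β m (n - 1) * β i

/-- a scalar equation for the coordinate `x` -/
structure Rel [Fintype ν] [DecidableEq ν] (t : S[X]) (b : Matrix ν ν S[X]) (x : ν) (n : ℕ)
    (a0 : S[X]) (a : ℕ → S[X]) : Prop where
  n0 : 0 < n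
  ne : a0 ≠ 0
  eq : a0 • iterK t b n x = ∑ i ∈ Finset.range n, (a i * t ^ (n - i)) • iterK t b i x

/-- punctured neighbourhoods of `0` or of infinity -/
def Fe (e : ℤ) : Filter ℂ := if e = 1 then 𝓝[≠] 0 else cocompact ℂ

/-- the iterated derivatives commute -/
def Cm [CommRing K] [Fintype ν] [DecidableEq ν] (T : MvPolynomial σ K)
    (B : σ → Matrix ν ν (MvPolynomial σ K)) : Prop :=
  ∀ w w' : List σ, w.Perm w' → iterM T B w = iterM T B w'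

/-- moderate growth of the solutions along rays -/
def Mod [Fintype ν] (e : ℤ) (t : ℂ[X]) (b : Matrix ν ν ℂ[X]) : Prop :=
  ∃ N : ℕ, ∃ O ∈ Fe e, ∀ ρ : ℝ, 0 < ρ → sphere (0 : ℂ) ρ ⊆ O → ∃ M : ℝ,
    ∀ (u : ℂ) (l : ℝ) (Y : ℂ → ν → ℂ), ‖u * Complex.exp l‖ = ρ →
      (∀ τ ∈ Set.uIcc (0 : ℝ) l, u * Complex.exp τ ∈ O ∧ HasDerivAt Y ((u * Complex.exp τ /
        t.eval (u * Complex.exp τ)) • (b.map (eval (u * Complex.exp τ)) *ᵥ Y τ)) τ) →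
      ‖Y 0‖ ≤ M * ‖Y l‖ * Real.exp (N * |l|)

/-- a function with finitely many branches and moderate growth -/
structure FinB (Z : Finset ℂ) (𝓑 : Set (Set ℂ × (ℂ → ℂ))) : Prop where
  op : ∀ b ∈ 𝓑, IsOpen b.1
  an : ∀ b ∈ 𝓑, AnalyticOnNhd ℂ b.2 b.1
  fin : ∀ c ∉ Z, ∃ ρ > 0, ∃ 𝒥 : Set (ℂ → ℂ), 𝒥.Finite ∧ (∀ f ∈ 𝒥, (ball c ρ, f) ∈ 𝓑) ∧
    ∀ b ∈ 𝓑, ∀ u ∈ b.1, u ∈ ball c ρ → ∃ f ∈ 𝒥, b.2 =ᶠ[𝓝 u] f
  gr : ∀ s ∈ Z, ∃ N : ℕ, ∀ᶠ u in 𝓝[≠] s, ∀ b ∈ 𝓑, u ∈ b.1 → ‖b.2 u‖ * ‖u - s‖ ^ N ≤ 1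
  gi : ∃ N : ℕ, ∀ᶠ u in cocompact ℂ, ∀ b ∈ 𝓑, u ∈ b.1 → ‖b.2 u‖ ≤ ‖u‖ ^ N

/-- the branches along a line are finitely many up to right factors in `𝒢` -/
structure LB {K : Type*} [Field K] [Algebra K ℂ] [Fintype σ] [DecidableEq σ] [Fintype ν]
    [DecidableEq ν] (T : MvPolynomial σ K) (B : σ → Matrix ν ν (MvPolynomial σ K)) (s v : σ → ℂ)
    (Z : Finset ℂ) (a : Bc σ ν) (𝒢 : Set (Matrix ν ν ℂ)) : Prop where
  br : IsBr T B a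
  ln : ∀ b, Rch T B a b → ∀ u ∈ b.1, b.2.1 u = s + u • v
  inv : ∀ g ∈ 𝒢, g.det ≠ 0
  fin : ∀ c ∉ Z, ∃ ρ > 0, ∃ 𝒥 : Set (Bc σ ν), 𝒥.Finite ∧
    (∀ b ∈ 𝒥, Rch T B a b ∧ b.1 = ball c ρ) ∧ ∀ b, Rch T B a b → ∀ u ∈ b.1, u ∈ ball c ρ →
      ∃ b' ∈ 𝒥, ∃ g ∈ 𝒢, ∀ᶠ w in 𝓝 u, b.2.2 w = b'.2.2 w * g
  ext : ∀ b, Rch T B a b → ∀ u ∈ b.1, ∀ (p : ℂ) (R : ℝ), 0 < R → u ≠ p →
    (∀ ζ ∈ ball (0 : ℂ) R, p + (u - p) * Complex.exp ζ ∉ Z) → ∃ Y : ℂ → Matrix ν ν ℂ,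
      Y 0 = b.2.2 u ∧ ∀ ζ ∈ ball (0 : ℂ) R, ∃ b', Rch T B a b' ∧
        p + (u - p) * Complex.exp ζ ∈ b'.1 ∧
        ∀ᶠ ζ' in 𝓝 ζ, Y ζ' = b'.2.2 (p + (u - p) * Complex.exp ζ')

end

end Pool.Agent.Lib.MP_5591bc_ag.Rg
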